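import Pool.Agent.P.MP_a1177c_nt.Sign.Kloos

/-!
# Points of the modular hyperbola `z y = ε (mod u)` in residue classes modulo `d`
-/

namespace Pool.Agent.P.MP_a1177c_nt.Sign

open Finset

/-- The points `(z, y)` of `[0, u)²` with `z y = ε` modulo `u`. -/
def hyp (u : ℕ) (ε : ZMod u) : Finset (ℕ × ℕ) :=
  (range u ×ˢ range u).filter fun q => (q.1 : ZMod u) * q.2 = ε

variable {u : ℕ} [NeZero u]

/-- Fourier transform of a set of naturals. -/
noncomputable def FT (A : Finset ℕ) (h : ZMod u) : ℂ := ∑ a ∈ A, ZMod.stdAddChar (h * (a : ZMod u))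

theorem ind_eq (ε : (ZMod u)ˣ) (a b : ZMod u) :
    (if a * b = ε then (u : ℂ) ^ 2 else 0) = ∑ h : ZMod u, ∑ k : ZMod u,
      ZMod.stdAddChar (h * a) * ZMod.stdAddChar (k * b) * Kl (-h) (-(k * ε.val)) := by
  have h1 : ∑ h : ZMod u, ∑ k : ZMod u,
      ZMod.stdAddChar (h * a) * ZMod.stdAddChar (k * b) * Kl (-h) (-(k * ε.val)) =
      ∑ x : (ZMod u)ˣ, (∑ h : ZMod u, ZMod.stdAddChar (h * (a - x.val))) *
        ∑ k : ZMod u, ZMod.stdAddChar (k * (b - ε.val * (x⁻¹).val)) := by
    simp only [Finset.sum_mul_sum]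
    simp only [Kl, Finset.mul_sum]
    rw [Finset.sum_comm (s := (univ : Finset (ZMod u)ˣ))]
    refine Finset.sum_congr rfl fun h _ => ?_
    rw [Finset.sum_comm (s := (univ : Finset (ZMod u)ˣ))]
    refine Finset.sum_congr rfl fun k _ => Finset.sum_congr rfl fun x _ => ?_
    simp only [← AddChar.map_add_eq_mul]
    congr 1; ring
  rw [h1]
  simp only [sum_char, sub_eq_zero]
  split_ifs with h
  · have hu : a * (b * (ε⁻¹).val) = 1 := by rw [← mul_assoc, h]; exact ε.mul_inv
    rw [Finset.sum_eq_single (Units.mkOfMulEqOne a _ hu)]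
    · have e : b = ε.val * ((Units.mkOfMulEqOne a _ hu)⁻¹).val := by
        change b = ε.val * (b * (ε⁻¹).val)
        rw [mul_left_comm, ε.mul_inv, mul_one]
      rw [if_pos (by rfl), if_pos e, sq]
    · intro x _ hx
      rw [if_neg, zero_mul]
      intro h'
      exact hx (Units.ext h'.symm)
    · simp
  · symm
    refine Finset.sum_eq_zero fun x _ => ?_
    by_cases h2 : a = x.val
    · by_cases h3 : b = ε.val * (x⁻¹).val
      · exfalso
        apply h
        rw [h2, h3, mul_left_comm, x.mul_inv, mul_one]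
      · rw [if_neg h3, mul_zero]
    · rw [if_neg h2, zero_mul]

theorem count_eq (ε : (ZMod u)ˣ) (A B : Finset ℕ) :
    (u : ℂ) ^ 2 * #{q ∈ A ×ˢ B | (q.1 : ZMod u) * q.2 = ε} =
      ∑ h : ZMod u, ∑ k : ZMod u, FT A h * FT B k * Kl (-h) (-(k * ε.val)) := by
  calc (u : ℂ) ^ 2 * #{q ∈ A ×ˢ B | (q.1 : ZMod u) * q.2 = ε}
      = ∑ q ∈ A ×ˢ B, if (q.1 : ZMod u) * q.2 = ε then (u : ℂ) ^ 2 else 0 := by
        rw [← Finset.sum_filter, Finset.sum_const, nsmul_eq_mul, mul_comm]
    _ = _ := by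
        simp only [ind_eq]
        rw [Finset.sum_comm]
        refine Finset.sum_congr rfl fun h _ => ?_
        rw [Finset.sum_comm]
        refine Finset.sum_congr rfl fun k _ => ?_
        rw [← Finset.sum_mul, FT, FT, Finset.sum_mul_sum, Finset.sum_product]

theorem Kc_le_mul (h c : ZMod u) : Kc h ≤ Kc (h * c) := by
  refine Finset.card_le_card fun x hx => ?_
  simp only [mem_filter, mem_univ, true_and] at hx ⊢
  rw [mul_right_comm, hx, zero_mul]

theorem count_err (ε : (ZMod u)ˣ) (A B : Finset ℕ) {S W : ℝ} (hS0 : 0 ≤ S)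
    (hS : 2 * (u : ℝ) ^ 3 * (#u.divisors : ℝ) ^ 3 ≤ S ^ 4) (hW : (u : ℝ) ≤ W)
    (hA : #A ≤ u) (hB : #B ≤ u)
    (hWA : ∑ h ∈ (univ : Finset (ZMod u)).erase 0, ‖FT A h‖ * Kc h ≤ W)
    (hWB : ∑ h ∈ (univ : Finset (ZMod u)).erase 0, ‖FT B h‖ * Kc h ≤ W) :
    |(u : ℝ) ^ 2 * #{q ∈ A ×ˢ B | (q.1 : ZMod u) * q.2 = ε} - #A * #B * u.totient| ≤
      3 * S * W ^ 2 := by
  have hW0 : 0 ≤ W := le_trans (Nat.cast_nonneg _) hW
  have hFT0 : ∀ A : Finset ℕ, FT (u := u) A 0 = #A := fun A => by simp [FT]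
  have hK0 : Kl (u := u) 0 0 = u.totient := by
    simp [Kl, ZMod.card_units_eq_totient]
  have h1 := count_eq ε A B
  rw [← Finset.add_sum_erase _ _ (mem_univ (0 : ZMod u)),
    ← Finset.add_sum_erase _ _ (mem_univ (0 : ZMod u))] at h1
  simp only [neg_zero, zero_mul, hFT0, hK0] at h1
  have h2 : (((u : ℝ) ^ 2 * #{q ∈ A ×ˢ B | (q.1 : ZMod u) * q.2 = ε} - #A * #B * u.totient : ℝ) :
      ℂ) = ∑ k ∈ univ.erase 0, #A * FT B k * Kl 0 (-(k * ε.val)) +
        ∑ h ∈ univ.erase 0, ∑ k : ZMod u, FT A h * FT B k * Kl (-h) (-(k * ε.val)) := by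
    push_cast
    rw [h1]; ring
  rw [← Real.norm_eq_abs, ← Complex.norm_real, h2]
  have hA' : (#A : ℝ) ≤ W := le_trans (by exact_mod_cast hA) hW
  have hB' : (#B : ℝ) ≤ W := le_trans (by exact_mod_cast hB) hW
  have h3 : ‖∑ k ∈ univ.erase 0, #A * FT B k * Kl 0 (-(k * ε.val))‖ ≤ W * S * W := by
    refine (norm_sum_le _ _).trans ?_
    refine le_trans ?_ (mul_le_mul_of_nonneg_left hWB (by positivity))
    rw [Finset.mul_sum]
    refine Finset.sum_le_sum fun k _ => ?_
    rw [norm_mul, norm_mul, Complex.norm_natCast, Kl_symm]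
    have h4 : (Kc (-(k * ε.val)) : ℝ) ≤ Kc k := by
      have := Kc_le_mul (-(k * ε.val)) (-(ε⁻¹).val)
      rw [neg_mul_neg, mul_assoc, ε.mul_inv, mul_one] at this
      exact_mod_cast this
    calc (#A : ℝ) * ‖FT B k‖ * ‖Kl (-(k * ε.val)) 0‖ ≤ W * ‖FT B k‖ * (S * Kc k) := by
          gcongr
          exact (norm_Kl_le hS0 hS _ _).trans (by gcongr)
      _ = _ := by ring
  have h5 : ∑ k : ZMod u, ‖FT B k‖ ≤ 2 * W := by
    rw [← Finset.add_sum_erase _ _ (mem_univ (0 : ZMod u)), hFT0, Complex.norm_natCast, two_mul]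
    refine add_le_add hB' (le_trans (Finset.sum_le_sum fun k _ => ?_) hWB)
    have : (1 : ℝ) ≤ Kc k := by exact_mod_cast one_le_Kc k
    exact le_mul_of_one_le_right (norm_nonneg _) this
  have h6 : ‖∑ h ∈ univ.erase 0, ∑ k : ZMod u, FT A h * FT B k * Kl (-h) (-(k * ε.val))‖ ≤
      W * S * (2 * W) := by
    refine (norm_sum_le _ _).trans ?_
    calc ∑ h ∈ univ.erase 0, ‖∑ k : ZMod u, FT A h * FT B k * Kl (-h) (-(k * ε.val))‖
        ≤ ∑ h ∈ (univ : Finset (ZMod u)).erase 0, ‖FT A h‖ * Kc h * S * (2 * W) := by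
          refine Finset.sum_le_sum fun h _ => (norm_sum_le _ _).trans ?_
          refine le_trans ?_ (mul_le_mul_of_nonneg_left h5 (by positivity))
          rw [Finset.mul_sum]
          refine Finset.sum_le_sum fun k _ => ?_
          rw [norm_mul, norm_mul]
          have h4 : (Kc (-h) : ℝ) ≤ Kc h := by
            have := Kc_le_mul (-h) (-1)
            rw [neg_mul_neg, mul_one] at this
            exact_mod_cast this
          calc ‖FT A h‖ * ‖FT B k‖ * ‖Kl (-h) (-(k * ε.val))‖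
              ≤ ‖FT A h‖ * ‖FT B k‖ * (S * Kc h) := by
                gcongr
                exact (norm_Kl_le hS0 hS _ _).trans (by gcongr)
            _ = _ := by ring
      _ = (∑ h ∈ (univ : Finset (ZMod u)).erase 0, ‖FT A h‖ * Kc h) * S * (2 * W) := by
          rw [Finset.sum_mul, Finset.sum_mul]
      _ ≤ _ := by gcongr
  refine (norm_add_le _ _).trans ((add_le_add h3 h6).trans (le_of_eq (by ring)))

theorem norm_char_sub_one (t : ZMod u) :
    4 * min (t.val : ℝ) (u - t.val) / u ≤ ‖ZMod.stdAddChar t - 1‖ := by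
  have hu : (0 : ℝ) < u := by exact_mod_cast NeZero.pos u
  have hv : (t.val : ℝ) < u := by exact_mod_cast ZMod.val_lt t
  have hv0 : (0 : ℝ) ≤ t.val := Nat.cast_nonneg _
  have e : ZMod.stdAddChar t = Complex.exp (Complex.I * ((2 * Real.pi * t.val / u : ℝ) : ℂ)) := by
    rw [ZMod.stdAddChar_apply, ZMod.toCircle_apply]
    congr 1; push_cast; ring
  rw [e, Complex.norm_exp_I_mul_ofReal_sub_one, Real.norm_eq_abs]
  refine le_trans ?_ (le_abs_self _)
  have hpi := Real.pi_pos
  have key : ∀ m : ℝ, 0 ≤ m → 2 * m ≤ u → 4 * m / u ≤ 2 * Real.sin (Real.pi * m / u) := by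
    intro m hm0 hm
    have := Real.mul_le_sin (x := Real.pi * m / u) (by positivity) (by
      rw [div_le_div_iff₀ hu (by norm_num)]; nlinarith)
    have e2 : 2 / Real.pi * (Real.pi * m / u) = 2 * m / u := by field_simp
    rw [e2] at this
    have e3 : 4 * m / u = 2 * (2 * m / u) := by ring
    linarith
  rcases le_total (t.val : ℝ) (u - t.val) with h | h
  · rw [min_eq_left h]
    have := key _ hv0 (by linarith)
    rwa [show 2 * Real.pi * t.val / u / 2 = Real.pi * t.val / u by ring]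
  · rw [min_eq_right h]
    have := key (u - t.val) (by linarith) (by linarith)
    rwa [show Real.pi * (u - t.val) / u = Real.pi - 2 * Real.pi * t.val / u / 2 by
      field_simp, Real.sin_pi_sub] at this

theorem ap_eq (u d z : ℕ) (hz : z < d) :
    {a ∈ range u | a % d = z} = (range ((u - z + d - 1) / d)).image fun j => z + d * j := by
  have hd : 0 < d := by omega
  have key : ∀ j, j < (u - z + d - 1) / d ↔ z + d * j < u := by
    intro j
    rw [Nat.lt_iff_add_one_le, Nat.le_div_iff_mul_le hd, add_mul, one_mul, mul_comm j d]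
    omega
  ext a
  simp only [mem_filter, mem_range, mem_image, key]
  constructor
  · rintro ⟨h1, h2⟩
    have := Nat.mod_add_div a d
    exact ⟨a / d, by rw [← h2, this]; exact h1, by rw [← h2, this]⟩
  · rintro ⟨j, h1, rfl⟩
    exact ⟨h1, by rw [Nat.add_mul_mod_self_left, Nat.mod_eq_of_lt hz]⟩

theorem ap_inj (d z n : ℕ) (hd : 0 < d) : Set.InjOn (fun j => z + d * j) (range n : Set ℕ) :=
  fun _ _ _ _ h => Nat.eq_of_mul_eq_mul_left hd (Nat.add_left_cancel h)

theorem card_ap (u d z : ℕ) (hz : z < d) :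
    |(#{a ∈ range u | a % d = z} : ℝ) - u / d| ≤ 1 := by
  have hd : 0 < d := by omega
  rw [ap_eq u d z hz, Finset.card_image_of_injOn (ap_inj d z _ hd), card_range]
  have h1 := Nat.div_add_mod (u - z + d - 1) d
  have h2 := Nat.mod_lt (u - z + d - 1) hd
  set n := (u - z + d - 1) / d
  have h3 : d * n ≤ u + d := by omega
  have h4 : u ≤ d * n + d := by omega
  have hd' : (0 : ℝ) < d := by exact_mod_cast hd
  have h3' : (d : ℝ) * n ≤ u + d := by exact_mod_cast h3
  have h4' : (u : ℝ) ≤ d * n + d := by exact_mod_cast h4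
  have e : (n : ℝ) - u / d = (d * n - u) / d := by field_simp
  rw [e, abs_le, le_div_iff₀ hd', div_le_iff₀ hd']
  constructor <;> linarith

theorem norm_FT_ap (d z : ℕ) (hz : z < d) (h : ZMod u) (hh : h * d ≠ 0) :
    ‖FT {a ∈ range u | a % d = z} h‖ ≤
      u / 2 * (1 / ((h * d).val : ℝ) + 1 / (u - (h * d).val : ℝ)) := by
  have hd : 0 < d := by omega
  rw [ap_eq u d z hz, FT, Finset.sum_image (ap_inj d z _ hd)]
  set t := h * (d : ZMod u) with ht
  have hu : (0 : ℝ) < u := by exact_mod_cast NeZero.pos u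
  have hv : (t.val : ℝ) < u := by exact_mod_cast ZMod.val_lt t
  have hv0 : (0 : ℝ) < t.val := by
    have : t.val ≠ 0 := fun h0 => hh ((ZMod.val_eq_zero t).1 h0)
    exact_mod_cast Nat.pos_of_ne_zero this
  have hm : 0 < min (t.val : ℝ) (u - t.val) := lt_min hv0 (by linarith)
  have h1 := norm_char_sub_one t
  have h2 : 0 < ‖ZMod.stdAddChar t - 1‖ := lt_of_lt_of_le (by positivity) h1
  have h3 : ZMod.stdAddChar t ≠ 1 := fun h0 => by simp [h0] at h2
  have e : ∀ j : ℕ, ZMod.stdAddChar (h * ((z + d * j : ℕ) : ZMod u)) =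
      ZMod.stdAddChar (h * (z : ZMod u)) * ZMod.stdAddChar t ^ j := by
    intro j
    rw [← AddChar.map_nsmul_eq_pow, ← AddChar.map_add_eq_mul, nsmul_eq_mul, ht]
    congr 1; push_cast; ring
  have hn : ∀ s : ZMod u, ‖ZMod.stdAddChar s‖ = 1 := fun s => by
    rw [ZMod.stdAddChar_apply]; exact Circle.norm_coe _
  simp only [e]
  rw [← Finset.mul_sum, geom_sum_eq h3, norm_mul, hn, one_mul, norm_div]
  have h4 : ‖ZMod.stdAddChar t ^ ((u - z + d - 1) / d) - 1‖ ≤ 2 := by
    refine (norm_sub_le _ _).trans ?_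
    rw [norm_pow, hn, one_pow, norm_one]; norm_num
  calc _ ≤ 2 / (4 * min (t.val : ℝ) (u - t.val) / u) := by gcongr
    _ = u / 2 * (1 / min (t.val : ℝ) (u - t.val)) := by field_simp; norm_num
    _ ≤ _ := by
        gcongr
        have : (0 : ℝ) < u - t.val := by linarith
        rcases le_total (t.val : ℝ) (u - t.val) with h | h
        · rw [min_eq_left h]; exact le_add_of_nonneg_right (by positivity)
        · rw [min_eq_right h]; exact le_add_of_nonneg_left (by positivity)

theorem sum_inv_le (n : ℕ) : ∑ m ∈ Icc 1 n, (1 / m : ℝ) ≤ 1 + Real.log n := by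
  have := harmonic_le_one_add_log n
  rw [harmonic_eq_sum_Icc] at this
  push_cast at this
  simpa only [one_div] using this

theorem sum_gcd_div_le :
    ∑ v ∈ Ico 1 u, (Nat.gcd v u : ℝ) / v ≤ #u.divisors * (1 + Real.log u) := by
  calc ∑ v ∈ Ico 1 u, (Nat.gcd v u : ℝ) / v
      ≤ ∑ v ∈ Ico 1 u, ∑ g ∈ u.divisors, if g ∣ v then (g : ℝ) / v else 0 := by
        refine Finset.sum_le_sum fun v _ => ?_
        have h := gcd_le_sum (u := u) v
        have h' : (Nat.gcd v u : ℝ) ≤ ∑ g ∈ u.divisors, if g ∣ v then (g : ℝ) else 0 := by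
          exact_mod_cast h
        refine (div_le_div_of_nonneg_right h' (Nat.cast_nonneg _)).trans (le_of_eq ?_)
        rw [Finset.sum_div]
        refine Finset.sum_congr rfl fun g _ => ?_
        split_ifs <;> simp
    _ = ∑ g ∈ u.divisors, ∑ v ∈ Ico 1 u with g ∣ v, (g : ℝ) / v := by
        rw [Finset.sum_comm]
        simp only [Finset.sum_filter]
    _ ≤ ∑ _g ∈ u.divisors, (1 + Real.log u) := by
        refine Finset.sum_le_sum fun g hg => le_trans ?_ (sum_inv_le u)
        have hg0 : 0 < g := Nat.pos_of_mem_divisors hg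
        have hsub : {v ∈ Ico 1 u | g ∣ v} ⊆ (Icc 1 u).image (g * ·) := by
          intro v hv
          simp only [mem_filter, mem_Ico] at hv
          obtain ⟨⟨h1, h2⟩, m, rfl⟩ := hv
          refine mem_image.2 ⟨m, mem_Icc.2 ⟨?_, ?_⟩, rfl⟩
          · rcases Nat.eq_zero_or_pos m with h | h
            · simp [h] at h1
            · exact h
          · nlinarith
        refine (Finset.sum_le_sum_of_subset_of_nonneg hsub fun _ _ _ => by positivity).trans ?_
        rw [Finset.sum_image fun _ _ _ _ h => Nat.eq_of_mul_eq_mul_left hg0 h]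
        refine le_of_eq (Finset.sum_congr rfl fun m _ => ?_)
        have : (g : ℝ) ≠ 0 := by positivity
        push_cast
        rw [div_mul_eq_div_div, div_self this]
    _ = _ := by rw [Finset.sum_const, nsmul_eq_mul]

theorem sum_FT_ap (d z : ℕ) (hz : z < d) (hdu : d.Coprime u) :
    ∑ h ∈ (univ : Finset (ZMod u)).erase 0, ‖FT {a ∈ range u | a % d = z} h‖ * Kc h ≤
      u * (#u.divisors * (1 + Real.log u)) := by
  set e := ZMod.unitOfCoprime d hdu with he
  have hed : (d : ZMod u) = e.val := rfl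
  let G : ℕ → ℝ := fun v => if v = 0 then 0 else
    u / 2 * (1 / (v : ℝ) + 1 / (u - v : ℝ)) * Nat.gcd v u
  have hG0 : ∀ t : ZMod u, 0 ≤ G t.val := by
    intro t
    have hv : (t.val : ℝ) < u := by exact_mod_cast ZMod.val_lt t
    have : (0 : ℝ) < u - t.val := by linarith
    simp only [G]
    split_ifs
    · exact le_rfl
    · positivity
  calc ∑ h ∈ (univ : Finset (ZMod u)).erase 0, ‖FT {a ∈ range u | a % d = z} h‖ * Kc h
      ≤ ∑ h ∈ (univ : Finset (ZMod u)).erase 0, G (h * e.val).val := by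
        refine Finset.sum_le_sum fun h hh => ?_
        have h0 : h * d ≠ 0 := by
          rw [hed]; simpa using (mem_erase.1 hh).1
        have h1 : (h * e.val).val ≠ 0 := fun h' => h0 ((ZMod.val_eq_zero _).1 h')
        simp only [G, if_neg h1]
        refine mul_le_mul (norm_FT_ap d z hz h h0) ?_ (Nat.cast_nonneg _)
          ((norm_nonneg _).trans (norm_FT_ap d z hz h h0))
        exact_mod_cast (Kc_le_mul h e.val).trans (Kc_le_gcd _)
    _ ≤ ∑ h : ZMod u, G (h * e.val).val :=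
        Finset.sum_le_sum_of_subset_of_nonneg (erase_subset _ _) fun h _ _ => hG0 _
    _ = ∑ t : ZMod u, G t.val := Equiv.sum_comp (Units.mulRight e) fun t => G t.val
    _ = ∑ v ∈ Ico 1 u, G v := by
        rw [sum_zmod_eq_range, range_eq_Ico, Finset.sum_eq_sum_Ico_succ_bot (NeZero.pos u)]
        simp [G]
    _ = u / 2 * (∑ v ∈ Ico 1 u, (Nat.gcd v u : ℝ) / v +
          ∑ v ∈ Ico 1 u, (Nat.gcd v u : ℝ) / (u - v : ℝ)) := by
        rw [← Finset.sum_add_distrib, Finset.mul_sum]
        refine Finset.sum_congr rfl fun v hv => ?_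
        have : v ≠ 0 := by have := (mem_Ico.1 hv).1; omega
        simp only [G, if_neg this]
        ring
    _ = u * ∑ v ∈ Ico 1 u, (Nat.gcd v u : ℝ) / v := by
        have : ∑ v ∈ Ico 1 u, (Nat.gcd v u : ℝ) / (u - v : ℝ) =
            ∑ v ∈ Ico 1 u, (Nat.gcd v u : ℝ) / v := by
          refine Finset.sum_bij' (fun v _ => u - v) (fun v _ => u - v) ?_ ?_ ?_ ?_ ?_
          · intro v hv; simp only [mem_Ico] at hv ⊢; omega
          · intro v hv; simp only [mem_Ico] at hv ⊢; omega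
          · intro v hv; simp only [mem_Ico] at hv; omega
          · intro v hv; simp only [mem_Ico] at hv; omega
          · intro v hv
            simp only [mem_Ico] at hv
            rw [Nat.gcd_self_sub_left hv.2.le, Nat.cast_sub hv.2.le]
        rw [this]; ring
    _ ≤ _ := by gcongr; exact sum_gcd_div_le

/-- Equidistribution of the modular hyperbola in residue classes. -/
theorem hyp_count (ε : (ZMod u)ˣ) (d z y : ℕ) (hz : z < d) (hy : y < d) (hdu : d.Coprime u)
    {S : ℝ} (hS0 : 0 ≤ S) (hS : 2 * (u : ℝ) ^ 3 * (#u.divisors : ℝ) ^ 3 ≤ S ^ 4) :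
    |(#{q ∈ hyp u ε.val | q.1 % d = z ∧ q.2 % d = y} : ℝ) - u.totient / d ^ 2| ≤
      3 + 3 * S * (#u.divisors * (1 + Real.log u)) ^ 2 := by
  have hu : (1 : ℝ) ≤ u := by exact_mod_cast NeZero.pos u
  have hd : (1 : ℝ) ≤ d := by exact_mod_cast (show 1 ≤ d by omega)
  have e : {q ∈ hyp u ε.val | q.1 % d = z ∧ q.2 % d = y} =
      {q ∈ {a ∈ range u | a % d = z} ×ˢ {a ∈ range u | a % d = y} |
        (q.1 : ZMod u) * q.2 = ε} := by
    ext q
    simp only [hyp, mem_filter, mem_product]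
    tauto
  have hτ : (1 : ℝ) ≤ #u.divisors := by
    exact_mod_cast Finset.card_pos.2 ⟨1, Nat.one_mem_divisors.2 (NeZero.ne u)⟩
  have hl : (1 : ℝ) ≤ 1 + Real.log u := by linarith [Real.log_nonneg hu]
  have hc : ∀ z, #{a ∈ range u | a % d = z} ≤ u := fun z =>
    (card_filter_le _ _).trans (card_range u).le
  have h1 := count_err ε {a ∈ range u | a % d = z} {a ∈ range u | a % d = y} hS0 hS
    (W := u * (#u.divisors * (1 + Real.log u)))
    (le_mul_of_one_le_right (by linarith) (one_le_mul_of_one_le_of_one_le hτ hl))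
    (hc z) (hc y) (sum_FT_ap d z hz hdu) (sum_FT_ap d y hy hdu)
  rw [← e] at h1
  have h2 := card_ap u d z hz
  have h3 := card_ap u d y hy
  set N := (#{q ∈ hyp u ε.val | q.1 % d = z ∧ q.2 % d = y} : ℝ)
  set α := (#{a ∈ range u | a % d = z} : ℝ)
  set β := (#{a ∈ range u | a % d = y} : ℝ)
  have hφ : (u.totient : ℝ) ≤ u := by exact_mod_cast Nat.totient_le u
  have hφ0 : (0 : ℝ) ≤ u.totient := Nat.cast_nonneg _
  have hud : (u : ℝ) / d ≤ u := div_le_self (by linarith) hd
  have hud0 : (0 : ℝ) ≤ u / d := by positivity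
  have h4 : |α * β - (u / d) ^ 2| ≤ 3 * u := by
    have : α * β - (u / d) ^ 2 = (α - u / d) * (β - u / d) + u / d * ((α - u / d) + (β - u / d)) := by
      ring
    rw [this]
    refine (abs_add_le _ _).trans ?_
    rw [abs_mul, abs_mul, abs_of_nonneg hud0]
    have h5 := abs_add_le (α - u / d) (β - u / d)
    have h6 : |α - u / d| * |β - u / d| ≤ 1 * 1 := by gcongr
    have h7 : (u : ℝ) / d * |α - u / d + (β - u / d)| ≤ u * 2 := by gcongr; linarith
    linarith
  have hu2 : (0 : ℝ) < (u : ℝ) ^ 2 := by positivity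
  have e2 : N - u.totient / d ^ 2 = ((u : ℝ) ^ 2 * N - α * β * u.totient) / u ^ 2 +
      (α * β - (u / d) ^ 2) * u.totient / u ^ 2 := by
    field_simp; ring
  rw [e2, add_comm]
  refine (abs_add_le _ _).trans (add_le_add ?_ ?_)
  · rw [abs_div, abs_mul, abs_of_nonneg hφ0, abs_of_pos hu2, div_le_iff₀ hu2]
    calc _ ≤ 3 * u * (u : ℝ) := by gcongr
      _ = _ := by ring
  · rw [abs_div, abs_of_pos hu2, div_le_iff₀ hu2]
    refine h1.trans (le_of_eq (by ring))

end Pool.Agent.P.MP_a1177c_nt.Sign
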