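import Pool.Agent.Lib.PNT.Main
import Pool.Agent.Lib.Mertens.Second

/-!
# Prime number estimates, the divisor bound and the scale parameters
-/

namespace Pool.Agent.P.MP_a1177c_nt.Sign

open Finset Filter Topology

theorem mertensAP {q : ℕ} [NeZero q] {a : ZMod q} (ha : IsUnit a) : ∃ C : ℝ, ∀ r : ℕ,
    (q.totient : ℝ)⁻¹ / 4 * Real.log r - C ≤
      ∑ p ∈ (Icc 1 (2 ^ r)).filter (fun p : ℕ => p.Prime ∧ (p : ZMod q) = a), (1 : ℝ) / p := by
  set κ : ℝ := (q.totient : ℝ)⁻¹ with hκ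
  have hκ0 : 0 < κ := by
    have := Nat.totient_pos.2 (NeZero.pos q)
    positivity
  have h1 : Tendsto (fun i : ℕ => Lib.PNT.thetaAP a ((2 ^ i : ℕ) : ℝ) / ((2 ^ i : ℕ) : ℝ)) atTop
      (𝓝 κ) := (Lib.PNT.thetaAP_tendsto ha).comp (tendsto_natCast_atTop_atTop.comp
        (tendsto_pow_atTop_atTop_of_one_lt (by norm_num)))
  obtain ⟨i0, hi0⟩ := eventually_atTop.1 ((h1.eventually (lt_mem_nhds (show 7 / 8 * κ < κ by
    linarith))).and (h1.eventually (gt_mem_nhds (show κ < 5 / 4 * κ by linarith))))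
  set P : ℕ → Finset ℕ := fun r => {p ∈ Icc 1 (2 ^ r) | p.Prime ∧ (p : ZMod q) = a} with hP
  have hth : ∀ i, Lib.PNT.thetaAP a ((2 ^ i : ℕ) : ℝ) = ∑ p ∈ P i, Real.log p := by
    intro i; rw [Lib.PNT.thetaAP, Nat.floor_natCast]
  have hsub : ∀ i, P i ⊆ P (i + 1) := fun i => filter_subset_filter _
    (Icc_subset_Icc_right (Nat.pow_le_pow_right (by norm_num) (Nat.le_succ i)))
  have step : ∀ i, i0 ≤ i → ∑ p ∈ P i, (1 : ℝ) / p + κ / 4 * (1 / (i + 1)) ≤
      ∑ p ∈ P (i + 1), (1 : ℝ) / p := by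
    intro i hi
    have a1 := (hi0 (i + 1) (by omega)).1
    have a2 := (hi0 i hi).2
    rw [hth, lt_div_iff₀ (by positivity)] at a1
    rw [hth, div_lt_iff₀ (by positivity)] at a2
    rw [← Finset.sum_sdiff (hsub i)] at a1 ⊢
    push_cast at a1 a2
    have a3 : ∑ p ∈ P (i + 1) \ P i, Real.log p ≤
        2 ^ (i + 1) * (i + 1) * ∑ p ∈ P (i + 1) \ P i, (1 : ℝ) / p := by
      rw [Finset.mul_sum]
      refine Finset.sum_le_sum fun p hp => ?_
      have hp' := (mem_sdiff.1 hp).1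
      simp only [hP, mem_filter, mem_Icc] at hp'
      have b1 : (0 : ℝ) < p := by exact_mod_cast hp'.1.1
      have b2 : (p : ℝ) ≤ 2 ^ (i + 1) := by exact_mod_cast hp'.1.2
      have b3 : Real.log p ≤ i + 1 := by
        refine (Real.log_le_log b1 b2).trans ?_
        rw [Real.log_pow]
        have := Real.log_two_lt_d9
        push_cast
        have : (0 : ℝ) ≤ i + 1 := by positivity
        nlinarith
      rw [mul_one_div, le_div_iff₀ b1, mul_comm]
      gcongr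
    have a4 : κ / 4 * (1 / (i + 1)) ≤ ∑ p ∈ P (i + 1) \ P i, (1 : ℝ) / p := by
      rw [mul_one_div, div_le_iff₀ (by positivity)]
      have h2 : (0 : ℝ) < 2 ^ (i + 1) := by positivity
      refine le_of_mul_le_mul_left ?_ h2
      rw [pow_succ] at a1 a3 ⊢
      nlinarith
    linarith
  have main : ∀ r : ℕ, κ / 4 * (∑ i ∈ range r, (1 : ℝ) / (i + 1) - i0) ≤
      ∑ p ∈ P r, (1 : ℝ) / p := by
    intro r
    induction r with
    | zero =>
      refine le_trans ?_ (Finset.sum_nonneg fun p _ => by positivity)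
      simp only [range_zero, sum_empty, zero_sub]
      exact mul_nonpos_of_nonneg_of_nonpos (by positivity) (by simp)
    | succ r ih =>
      by_cases hr : i0 ≤ r
      · rw [Finset.sum_range_succ]
        linarith [step r hr]
      · refine le_trans ?_ (Finset.sum_nonneg fun p _ => by positivity)
        refine mul_nonpos_of_nonneg_of_nonpos (by positivity) (sub_nonpos.2 ?_)
        calc ∑ i ∈ range (r + 1), (1 : ℝ) / (i + 1) ≤ ∑ _i ∈ range (r + 1), (1 : ℝ) :=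
              Finset.sum_le_sum fun i _ => by
                rw [div_le_one (by positivity)]; linarith [Nat.cast_nonneg (α := ℝ) i]
          _ = ((r + 1 : ℕ) : ℝ) := by simp
          _ ≤ i0 := by exact_mod_cast (by omega)
  refine ⟨κ / 4 * i0, fun r => le_trans ?_ (main r)⟩
  have h2 : Real.log r ≤ ∑ i ∈ range r, (1 : ℝ) / (i + 1) := by
    have h3 := log_add_one_le_harmonic r
    simp only [harmonic] at h3
    push_cast at h3
    simp only [one_div]
    refine le_trans ?_ h3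
    rcases Nat.eq_zero_or_pos r with h | h
    · simp [h]
    · exact Real.log_le_log (by exact_mod_cast h) (by linarith)
  rw [← mul_sub]
  gcongr

theorem mertens_upper : ∃ C : ℝ, ∀ n : ℕ, 2 ≤ n → ∀ P : Finset ℕ, (∀ p ∈ P, p.Prime ∧ p ≤ n) →
    ∑ p ∈ P, (1 : ℝ) / p ≤ Real.log (Real.log n) + C := by
  obtain ⟨M, C, hC, h⟩ := Lib.Mertens.mertens_second
  refine ⟨M + C / Real.log 2, fun n hn P hP => ?_⟩
  have hn' : (2 : ℝ) ≤ n := by exact_mod_cast hn
  have h1 := (abs_le.1 (h n hn')).2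
  rw [Nat.floor_natCast] at h1
  have h2 : ∑ p ∈ P, (1 : ℝ) / p ≤ ∑ p ∈ (Ioc 0 n).filter Nat.Prime, (1 : ℝ) / p := by
    refine Finset.sum_le_sum_of_subset_of_nonneg (fun p hp => ?_) fun _ _ _ => by positivity
    exact mem_filter.2 ⟨mem_Ioc.2 ⟨(hP p hp).1.pos, (hP p hp).2⟩, (hP p hp).1⟩
  have h3 : C / Real.log n ≤ C / Real.log 2 := by
    gcongr
  linarith

theorem card_primeFactors_le (u : ℕ) (hu : u ≠ 0) : #u.primeFactors ≤ Nat.log 2 u := by
  refine Nat.le_log_of_pow_le (by norm_num) ?_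
  calc 2 ^ #u.primeFactors ≤ ∏ p ∈ u.primeFactors, p :=
        Finset.pow_card_le_prod _ _ _ fun p hp => (Nat.prime_of_mem_primeFactors hp).two_le
    _ ≤ u := Nat.le_of_dvd (Nat.pos_of_ne_zero hu) (Nat.prod_primeFactors_dvd u)

theorem divisor_bound (k : ℕ) : ∃ C : ℕ, ∀ n : ℕ, n ≠ 0 → (#n.divisors) ^ k ≤ C * n := by
  obtain ⟨C0, hC0⟩ : ∃ C0 : ℕ, ∀ e : ℕ, (e + 1) ^ k ≤ C0 * 2 ^ e := by
    have h := (tendsto_pow_const_div_const_pow_of_one_lt k (r := 2) (by norm_num)).bddAbove_range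
    obtain ⟨B, hB⟩ := h
    obtain ⟨C, hC⟩ := exists_nat_ge B
    refine ⟨C * 2, fun e => ?_⟩
    have h1 : (((e + 1 : ℕ) : ℝ)) ^ k / 2 ^ (e + 1) ≤ C := (hB ⟨e + 1, rfl⟩).trans hC
    rw [div_le_iff₀ (by positivity), pow_succ] at h1
    have h2 : (((e + 1 : ℕ) : ℝ)) ^ k ≤ C * 2 * 2 ^ e := by linarith
    exact_mod_cast h2
  have hC1 : 1 ≤ C0 := by simpa using hC0 0
  refine ⟨C0 ^ (2 ^ k), fun n hn => ?_⟩
  rw [Nat.card_divisors hn, ← Finset.prod_pow]
  calc ∏ p ∈ n.primeFactors, (n.factorization p + 1) ^ k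
      ≤ ∏ p ∈ n.primeFactors, ((if p < 2 ^ k then C0 else 1) * p ^ n.factorization p) := by
        refine Finset.prod_le_prod' fun p hp => ?_
        have hp2 := (Nat.prime_of_mem_primeFactors hp).two_le
        split_ifs with h
        · exact (hC0 _).trans (by gcongr)
        · rw [one_mul]
          calc (n.factorization p + 1) ^ k ≤ (2 ^ n.factorization p) ^ k := by
                gcongr; exact Nat.lt_two_pow_self
            _ = (2 ^ k) ^ n.factorization p := by rw [← pow_mul, ← pow_mul, mul_comm]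
            _ ≤ _ := by gcongr; omega
    _ = (∏ p ∈ n.primeFactors, if p < 2 ^ k then C0 else 1) * n := by
        rw [Finset.prod_mul_distrib]
        congr 1
        exact Nat.prod_factorization_pow_eq_self hn
    _ ≤ _ := by
        gcongr
        rw [← Finset.prod_filter, Finset.prod_const]
        refine Nat.pow_le_pow_right hC1 ?_
        calc _ ≤ #(range (2 ^ k)) :=
              Finset.card_le_card fun p hp => mem_range.2 (mem_filter.1 hp).2
          _ = _ := card_range _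

/-- The binary length of `u`. -/
def tt (u : ℕ) : ℕ := Nat.log 2 u + 1

/-- The fourth root of the binary length. -/
def rr (u : ℕ) : ℕ := (tt u).sqrt.sqrt

theorem lt_two_pow_tt (u : ℕ) : u < 2 ^ tt u := Nat.lt_pow_succ_log_self (by norm_num) u

theorem tt_pos (u : ℕ) : 0 < tt u := Nat.succ_pos _

theorem tt_mono {u v : ℕ} (h : u ≤ v) : tt u ≤ tt v := Nat.succ_le_succ (Nat.log_mono_right h)

theorem rr_pos (u : ℕ) : 0 < rr u := Nat.sqrt_pos.2 (Nat.sqrt_pos.2 (tt_pos u))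

theorem tt_le (u : ℕ) : tt u ≤ (rr u + 1) ^ 4 := by
  have h1 := Nat.lt_succ_sqrt' (tt u)
  have h2 := Nat.lt_succ_sqrt' (tt u).sqrt
  calc tt u ≤ ((tt u).sqrt + 1) ^ 2 := h1.le
    _ ≤ ((rr u + 1) ^ 2) ^ 2 := by gcongr; exact h2
    _ = _ := by ring

theorem tt_le_two_pow (u : ℕ) : tt u ≤ 2 ^ (4 * rr u ^ 2) := by
  calc tt u ≤ (rr u + 1) ^ 4 := tt_le u
    _ ≤ (2 ^ rr u) ^ 4 := by gcongr; exact Nat.lt_two_pow_self
    _ = 2 ^ (4 * rr u) := by rw [← pow_mul, mul_comm]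
    _ ≤ _ := by
        gcongr
        · norm_num
        · exact Nat.le_self_pow (by norm_num) _

theorem tendsto_sqrt : Tendsto Nat.sqrt atTop atTop :=
  tendsto_atTop_atTop.2 fun b => ⟨b * b, fun _ h => Nat.le_sqrt.2 h⟩

theorem tendsto_tt : Tendsto tt atTop atTop :=
  tendsto_atTop_atTop.2 fun b => ⟨2 ^ b, fun _ h =>
    (Nat.le_log_of_pow_le (by norm_num) h).trans (Nat.le_succ _)⟩

theorem tendsto_rr : Tendsto rr atTop atTop := tendsto_sqrt.comp (tendsto_sqrt.comp tendsto_tt)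

theorem small_le (C : ℕ) : ∀ᶠ u : ℕ in atTop, 2 ^ (C * rr u ^ 2) ≤ u := by
  filter_upwards [(tendsto_sqrt.comp tendsto_tt).eventually_ge_atTop (C + 1),
    eventually_ge_atTop 1] with u h hu
  have h1 : rr u ^ 2 ≤ (tt u).sqrt := Nat.sqrt_le' _
  have h2 : (tt u).sqrt ^ 2 ≤ Nat.log 2 u + 1 := Nat.sqrt_le' _
  simp only [Function.comp] at h
  refine le_trans (Nat.pow_le_pow_right (by norm_num) ?_) (Nat.pow_log_le_self 2 (by omega))
  nlinarith

theorem const_le (C : ℕ) : ∀ᶠ u : ℕ in atTop, C ≤ 2 ^ (rr u ^ 2) := by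
  filter_upwards [tendsto_rr.eventually_ge_atTop C] with u h
  exact (h.trans (Nat.le_self_pow (by norm_num) _)).trans Nat.lt_two_pow_self.le

/-- The error term of the sieve is negligible. -/
theorem err_le : ∀ᶠ u : ℕ in atTop, ∃ S : ℝ, 0 ≤ S ∧
    2 * (u : ℝ) ^ 3 * (#u.divisors : ℝ) ^ 3 ≤ S ^ 4 ∧
    ((2 ^ rr u : ℕ) : ℝ) ^ (6 * rr u) * (3 + 3 * S * (#u.divisors * (1 + Real.log u)) ^ 2) ≤
      u / (tt u : ℝ) ^ 4 := by
  obtain ⟨C, hC⟩ := divisor_bound 40
  filter_upwards [small_le (36 * 40), eventually_ge_atTop C, eventually_ge_atTop 1] with u h1 h2 h3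
  have hu : (1 : ℝ) ≤ u := by exact_mod_cast h3
  set w : ℝ := (u : ℝ) ^ ((40 : ℕ)⁻¹ : ℝ) with hw
  have hw40 : w ^ 40 = u := Real.rpow_inv_natCast_pow (by linarith) (by norm_num)
  have hw1 : 1 ≤ w := Real.one_le_rpow hu (by positivity)
  have hτ1 : (1 : ℝ) ≤ #u.divisors := by
    exact_mod_cast Finset.card_pos.2 ⟨1, Nat.one_mem_divisors.2 (by omega)⟩
  set τ : ℝ := (#u.divisors : ℝ) with hτ
  have hτw : τ ≤ w ^ 2 := by
    refine le_of_pow_le_pow_left₀ (n := 40) (by norm_num) (by positivity) ?_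
    rw [← pow_mul, mul_comm, pow_mul, hw40, hτ]
    have := (hC u (by omega)).trans (Nat.mul_le_mul_right u h2)
    rw [sq]; exact_mod_cast this
  have ht : (1 : ℝ) ≤ tt u := by exact_mod_cast tt_pos u
  have hL : 1 + Real.log u ≤ 2 * tt u := by
    have a1 : (u : ℝ) ≤ 2 ^ tt u := by exact_mod_cast (lt_two_pow_tt u).le
    have a2 := Real.log_le_log (by linarith) a1
    rw [Real.log_pow] at a2
    have := Real.log_two_lt_d9
    nlinarith
  have hL0 : 0 ≤ 1 + Real.log u := by linarith [Real.log_nonneg hu]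
  have hG : (((2 ^ rr u) ^ (6 * rr u) * 36 * tt u ^ 6 : ℕ) : ℝ) ≤ w := by
    refine le_of_pow_le_pow_left₀ (n := 40) (by norm_num) (by positivity) ?_
    rw [hw40]
    have a1 : (2 ^ rr u) ^ (6 * rr u) * 36 * tt u ^ 6 ≤ 2 ^ (36 * rr u ^ 2) := by
      have a2 : 1 ≤ rr u ^ 2 := Nat.one_le_pow _ _ (rr_pos u)
      calc (2 ^ rr u) ^ (6 * rr u) * 36 * tt u ^ 6
          ≤ (2 ^ rr u) ^ (6 * rr u) * 2 ^ (6 * rr u ^ 2) * (2 ^ (4 * rr u ^ 2)) ^ 6 := by
            gcongr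
            · exact le_trans (by norm_num) (Nat.pow_le_pow_right (by norm_num)
                (show 6 ≤ 6 * rr u ^ 2 by omega))
            · exact tt_le_two_pow u
        _ = _ := by rw [← pow_mul, ← pow_mul, ← pow_add, ← pow_add]; congr 1; ring
    have a3 : ((2 ^ rr u) ^ (6 * rr u) * 36 * tt u ^ 6) ^ 40 ≤ u := by
      refine le_trans ?_ h1
      calc _ ≤ (2 ^ (36 * rr u ^ 2)) ^ 40 := by gcongr
        _ = _ := by rw [← pow_mul]; congr 1; ring
    exact_mod_cast a3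
  refine ⟨2 * w ^ 30 * τ, by positivity, ?_, ?_⟩
  · rw [← hw40]
    calc 2 * (w ^ 40) ^ 3 * τ ^ 3 = 2 * w ^ 120 * τ ^ 3 * 1 := by ring
      _ ≤ 16 * w ^ 120 * τ ^ 3 * τ := by gcongr; norm_num
      _ = _ := by ring
  · rw [le_div_iff₀ (by positivity)]
    push_cast at hG ⊢
    have a4 : (1 : ℝ) ≤ w ^ 36 * (2 * tt u) ^ 2 :=
      one_le_mul_of_one_le_of_one_le (one_le_pow₀ hw1) (one_le_pow₀ (by linarith))
    calc _ ≤ ((2 : ℝ) ^ rr u) ^ (6 * rr u) *
          (3 * (w ^ 36 * (2 * tt u) ^ 2) + 3 * (2 * w ^ 30 * w ^ 2) * (w ^ 2 * (2 * tt u)) ^ 2) *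
          (tt u : ℝ) ^ 4 := by
          gcongr
          linarith
      _ = (((2 : ℝ) ^ rr u) ^ (6 * rr u) * 36 * (tt u : ℝ) ^ 6) * w ^ 36 := by ring
      _ ≤ w * w ^ 36 := by gcongr
      _ = w ^ 37 := by ring
      _ ≤ w ^ 40 := pow_le_pow_right₀ hw1 (by norm_num)
      _ = u := hw40

end Pool.Agent.P.MP_a1177c_nt.Sign
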