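import Pool.Agent.P.MP_a1177c_nt.Sign.Hyper

/-!
# Brun's pure sieve on the modular hyperbola
-/

namespace Pool.Agent.P.MP_a1177c_nt.Sign

open Finset

section Bonf
variable {ι : Type*} [DecidableEq ι]

/-- Truncated inclusion-exclusion. -/
noncomputable def Sg (t : ι → ℝ) (m : ℕ) (P : Finset ι) : ℝ :=
  ∑ D ∈ P.powerset, if #D ≤ m then (-1) ^ #D * ∏ p ∈ D, t p else 0

omit [DecidableEq ι] in
theorem Sg_zero (t : ι → ℝ) (P : Finset ι) : Sg t 0 P = 1 := by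
  unfold Sg
  rw [Finset.sum_eq_single ∅]
  · simp
  · intro D _ hD
    rw [if_neg]
    simpa using hD
  · simp

theorem Sg_insert (t : ι → ℝ) (m : ℕ) (P : Finset ι) (a : ι) (ha : a ∉ P) :
    Sg t (m + 1) (insert a P) = Sg t (m + 1) P - t a * Sg t m P := by
  unfold Sg
  rw [Finset.sum_powerset_insert ha, Finset.mul_sum, sub_eq_add_neg, ← Finset.sum_neg_distrib]
  congr 1
  refine Finset.sum_congr rfl fun D hD => ?_
  have : a ∉ D := fun h => ha (mem_powerset.1 hD h)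
  rw [card_insert_of_notMem this, Finset.prod_insert this]
  simp only [Nat.add_le_add_iff_right]
  split_ifs
  · ring
  · simp

theorem bonf (t : ι → ℝ) (P : Finset ι) (h0 : ∀ p ∈ P, 0 ≤ t p) (h1 : ∀ p ∈ P, t p ≤ 1) (m : ℕ) :
    0 ≤ (-1) ^ m * (Sg t m P - ∏ p ∈ P, (1 - t p)) := by
  induction P using Finset.induction_on generalizing m with
  | empty => simp [Sg]
  | insert a P ha ih =>
    have h0' : ∀ p ∈ P, 0 ≤ t p := fun p hp => h0 p (mem_insert_of_mem hp)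
    have h1' : ∀ p ∈ P, t p ≤ 1 := fun p hp => h1 p (mem_insert_of_mem hp)
    cases m with
    | zero =>
      rw [Sg_zero, pow_zero, one_mul, sub_nonneg]
      exact Finset.prod_le_one (fun p hp => sub_nonneg.2 (h1 p hp))
        (fun p hp => sub_le_self _ (h0 p hp))
    | succ m =>
      rw [Sg_insert t m P a ha, Finset.prod_insert ha]
      have e : (-1 : ℝ) ^ (m + 1) * (Sg t (m + 1) P - t a * Sg t m P -
          (1 - t a) * ∏ p ∈ P, (1 - t p)) =
          (-1) ^ (m + 1) * (Sg t (m + 1) P - ∏ p ∈ P, (1 - t p)) +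
            t a * ((-1) ^ m * (Sg t m P - ∏ p ∈ P, (1 - t p))) := by ring
      rw [e]
      exact add_nonneg (ih h0' h1' _) (mul_nonneg (h0 a (mem_insert_self _ _)) (ih h0' h1' _))

omit [DecidableEq ι] in
theorem Sg_le (g : ι → ℝ) (P : Finset ι) (h0 : ∀ p ∈ P, 0 ≤ g p) (h1 : ∀ p ∈ P, g p ≤ 1) (m : ℕ) :
    Sg g m P ≤ Real.exp (-∑ p ∈ P, g p) + Real.exp (2 * ∑ p ∈ P, g p) / 2 ^ m := by
  have e1 : ∏ p ∈ P, (1 - g p) = ∑ D ∈ P.powerset, (-1) ^ #D * ∏ p ∈ D, g p := by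
    simp only [sub_eq_add_neg]
    rw [Finset.prod_one_add]
    exact Finset.sum_congr rfl fun D _ => Finset.prod_neg _
  have e2 : ∏ p ∈ P, (1 + 2 * g p) = ∑ D ∈ P.powerset, 2 ^ #D * ∏ p ∈ D, g p := by
    rw [Finset.prod_one_add]
    refine Finset.sum_congr rfl fun D _ => ?_
    rw [Finset.prod_mul_distrib, Finset.prod_const]
  have h2 : ∏ p ∈ P, (1 - g p) ≤ Real.exp (-∑ p ∈ P, g p) := by
    rw [← Finset.sum_neg_distrib, Real.exp_sum]
    refine Finset.prod_le_prod (fun p hp => sub_nonneg.2 (h1 p hp)) fun p _ => ?_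
    linarith [Real.add_one_le_exp (-g p)]
  have h3 : ∏ p ∈ P, (1 + 2 * g p) ≤ Real.exp (2 * ∑ p ∈ P, g p) := by
    rw [Finset.mul_sum, Real.exp_sum]
    refine Finset.prod_le_prod (fun p hp => by linarith [h0 p hp]) fun p _ => ?_
    linarith [Real.add_one_le_exp (2 * g p)]
  have h4 : Sg g m P ≤ ∏ p ∈ P, (1 - g p) + (∏ p ∈ P, (1 + 2 * g p)) / 2 ^ m := by
    rw [e1, e2, Finset.sum_div, ← Finset.sum_add_distrib]
    refine Finset.sum_le_sum fun D hD => ?_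
    have hp : 0 ≤ ∏ p ∈ D, g p := Finset.prod_nonneg fun p hp => h0 p (mem_powerset.1 hD hp)
    split_ifs with h
    · exact le_add_of_nonneg_right (by positivity)
    · have h5 : (2 : ℝ) ^ m ≤ 2 ^ #D := pow_le_pow_right₀ (by norm_num) (by omega)
      have h6 : ∏ p ∈ D, g p ≤ (2 ^ #D * ∏ p ∈ D, g p) / 2 ^ m := by
        rw [le_div_iff₀ (by positivity), mul_comm]; gcongr
      have h7 : -(∏ p ∈ D, g p) ≤ (-1) ^ #D * ∏ p ∈ D, g p := by
        rcases neg_one_pow_eq_or ℝ #D with h | h <;> rw [h] <;> linarith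
      linarith
  refine h4.trans (add_le_add h2 ?_)
  gcongr

theorem sieve_bound {α : Type*} (Ω : Finset α) (P : Finset ι) (X : ι → α → ℝ) (g : ι → ℝ)
    (N : ℝ) (R : Finset ι → ℝ) (k : ℕ) (hX0 : ∀ p ω, 0 ≤ X p ω) (hX1 : ∀ p ω, X p ω ≤ 1)
    (h0 : ∀ p ∈ P, 0 ≤ g p) (h1 : ∀ p ∈ P, g p ≤ 1) (hN : 0 ≤ N)
    (hD : ∀ D ⊆ P, #D ≤ 2 * k → |∑ ω ∈ Ω, ∏ p ∈ D, X p ω - N * ∏ p ∈ D, g p| ≤ R D) :
    ∑ ω ∈ Ω, ∏ p ∈ P, (1 - X p ω) ≤
      N * (Real.exp (-∑ p ∈ P, g p) + Real.exp (2 * ∑ p ∈ P, g p) / 2 ^ (2 * k)) +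
        ∑ D ∈ P.powerset with #D ≤ 2 * k, R D := by
  calc ∑ ω ∈ Ω, ∏ p ∈ P, (1 - X p ω) ≤ ∑ ω ∈ Ω, Sg (fun p => X p ω) (2 * k) P := by
        refine Finset.sum_le_sum fun ω _ => ?_
        have := bonf (fun p => X p ω) P (fun p _ => hX0 p ω) (fun p _ => hX1 p ω) (2 * k)
        rw [pow_mul] at this
        norm_num at this
        exact this
    _ ≤ N * Sg g (2 * k) P + ∑ D ∈ P.powerset with #D ≤ 2 * k, R D := by
        unfold Sg
        rw [Finset.sum_comm, Finset.mul_sum, Finset.sum_filter, ← Finset.sum_add_distrib]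
        refine Finset.sum_le_sum fun D hDP => ?_
        split_ifs with h
        · have h2 := abs_le.1 (hD D (mem_powerset.1 hDP) h)
          rw [← Finset.mul_sum]
          rcases neg_one_pow_eq_or ℝ #D with h | h <;> rw [h] <;> linarith [h2.1, h2.2]
        · simp
    _ ≤ _ := by
        gcongr
        exact Sg_le g P h0 h1 _

end Bonf

theorem crt_sum (m n : ℕ) (hm : m ≠ 0) (hn : n ≠ 0) (h : m.Coprime n) (φ : ℕ → ℕ → ℝ) :
    ∑ z ∈ range (m * n), φ (z % m) (z % n) = ∑ a ∈ range m, ∑ b ∈ range n, φ a b := by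
  rw [← Finset.sum_product']
  refine Finset.sum_nbij' (fun z => (z % m, z % n))
    (fun q => (Nat.chineseRemainder h q.1 q.2 : ℕ)) ?_ ?_ ?_ ?_ ?_
  · intro z _
    simp only [mem_product, mem_range]
    exact ⟨Nat.mod_lt _ (by omega), Nat.mod_lt _ (by omega)⟩
  · intro q _
    exact mem_range.2 (Nat.chineseRemainder_lt_mul h _ _ hm hn)
  · intro z hz
    have h1 := (Nat.chineseRemainder h (z % m) (z % n)).2
    have h2 : (Nat.chineseRemainder h (z % m) (z % n) : ℕ) ≡ z [MOD m * n] :=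
      (Nat.modEq_and_modEq_iff_modEq_mul h).1
        ⟨h1.1.trans (Nat.mod_modEq _ _), h1.2.trans (Nat.mod_modEq _ _)⟩
    exact Nat.ModEq.eq_of_lt_of_lt h2 (Nat.chineseRemainder_lt_mul h _ _ hm hn) (mem_range.1 hz)
  · intro q hq
    simp only [mem_product, mem_range] at hq
    have h1 := (Nat.chineseRemainder h q.1 q.2).2
    ext
    · exact Eq.trans h1.1 (Nat.mod_eq_of_lt hq.1)
    · exact Eq.trans h1.2 (Nat.mod_eq_of_lt hq.2)
  · intro z _; rfl

/-- Periodicity modulo `m` in both variables. -/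
def Per (m : ℕ) (F : ℕ × ℕ → ℝ) : Prop := ∀ q : ℕ × ℕ, F q = F (q.1 % m, q.2 % m)

theorem crt_sum2 (m n : ℕ) (hm : m ≠ 0) (hn : n ≠ 0) (h : m.Coprime n) (F G : ℕ × ℕ → ℝ)
    (hF : Per m F) (hG : Per n G) :
    ∑ q ∈ range (m * n) ×ˢ range (m * n), F q * G q =
      (∑ q ∈ range m ×ˢ range m, F q) * ∑ q ∈ range n ×ˢ range n, G q := by
  rw [Finset.sum_product]
  calc ∑ z ∈ range (m * n), ∑ y ∈ range (m * n), F (z, y) * G (z, y)
      = ∑ z ∈ range (m * n), ∑ a ∈ range m, ∑ b ∈ range n, F (z % m, a) * G (z % n, b) := by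
        refine Finset.sum_congr rfl fun z _ => ?_
        rw [← crt_sum m n hm hn h (fun a b => F (z % m, a) * G (z % n, b))]
        exact Finset.sum_congr rfl fun y _ => by rw [hF (z, y), hG (z, y)]
    _ = ∑ c ∈ range m, ∑ e ∈ range n, ∑ a ∈ range m, ∑ b ∈ range n, F (c, a) * G (e, b) :=
        crt_sum m n hm hn h (fun c e => ∑ a ∈ range m, ∑ b ∈ range n, F (c, a) * G (e, b))
    _ = _ := by
        rw [Finset.sum_product, Finset.sum_product, Finset.sum_mul_sum]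
        refine Finset.sum_congr rfl fun c _ => Finset.sum_congr rfl fun e _ => ?_
        rw [Finset.sum_mul_sum]

theorem Per.of_dvd {m n : ℕ} {F : ℕ × ℕ → ℝ} (hF : Per m F) (h : m ∣ n) : Per n F := by
  intro q
  rw [hF q, hF (q.1 % n, q.2 % n)]
  simp only [Nat.mod_mod_of_dvd _ h]

theorem crt_prod (D : Finset ℕ) (hD : ∀ p ∈ D, p.Prime) (X : ℕ → ℕ × ℕ → ℝ)
    (hX : ∀ p ∈ D, Per p (X p)) :
    Per (∏ p ∈ D, p) (fun q => ∏ p ∈ D, X p q) ∧
    ∑ q ∈ range (∏ p ∈ D, p) ×ˢ range (∏ p ∈ D, p), ∏ p ∈ D, X p q =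
      ∏ p ∈ D, ∑ q ∈ range p ×ˢ range p, X p q := by
  constructor
  · intro q
    exact Finset.prod_congr rfl fun p hp => (hX p hp).of_dvd (dvd_prod_of_mem _ hp) q
  induction D using Finset.induction_on with
  | empty => simp
  | insert a D ha ih =>
    have hD' : ∀ p ∈ D, p.Prime := fun p hp => hD p (mem_insert_of_mem hp)
    have hX' : ∀ p ∈ D, Per p (X p) := fun p hp => hX p (mem_insert_of_mem hp)
    have hap := hD a (mem_insert_self _ _)
    simp only [Finset.prod_insert ha]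
    rw [crt_sum2 a (∏ p ∈ D, p) hap.ne_zero
      (Finset.prod_ne_zero_iff.2 fun p hp => (hD' p hp).ne_zero)
      (Nat.Coprime.prod_right fun p hp => (Nat.coprime_primes hap (hD' p hp)).2
        fun h => ha (h ▸ hp)) (X a) (fun q => ∏ p ∈ D, X p q) (hX a (mem_insert_self _ _))
      (fun q => Finset.prod_congr rfl fun p hp => (hX' p hp).of_dvd (dvd_prod_of_mem _ hp) q),
      ih hD' hX']

theorem equi_sum (Ω : Finset (ℕ × ℕ)) (d : ℕ) (hd : 0 < d) (F : ℕ × ℕ → ℝ) (hF : Per d F)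
    (h0 : ∀ q, 0 ≤ F q) (h1 : ∀ q, F q ≤ 1) (N E : ℝ)
    (hE : ∀ z < d, ∀ y < d, |(#{q ∈ Ω | q.1 % d = z ∧ q.2 % d = y} : ℝ) - N / d ^ 2| ≤ E) :
    |∑ q ∈ Ω, F q - N * ((∑ q ∈ range d ×ˢ range d, F q) / d ^ 2)| ≤ d ^ 2 * E := by
  have e1 : ∑ q ∈ Ω, F q = ∑ r ∈ range d ×ˢ range d,
      F r * #{q ∈ Ω | q.1 % d = r.1 ∧ q.2 % d = r.2} := by
    rw [← Finset.sum_fiberwise_of_maps_to (t := range d ×ˢ range d)
      (g := fun q : ℕ × ℕ => (q.1 % d, q.2 % d))]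
    · refine Finset.sum_congr rfl fun r _ => ?_
      rw [Finset.sum_congr (s₂ := {q ∈ Ω | q.1 % d = r.1 ∧ q.2 % d = r.2}) (g := fun _ => F r),
        Finset.sum_const, nsmul_eq_mul, mul_comm]
      · simp only [Prod.ext_iff]
      · intro q hq
        simp only [mem_filter] at hq
        rw [hF q, hq.2.1, hq.2.2]
    · intro q _
      simp only [mem_product, mem_range]
      exact ⟨Nat.mod_lt _ hd, Nat.mod_lt _ hd⟩
  rw [e1, Finset.sum_div, Finset.mul_sum, ← Finset.sum_sub_distrib]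
  refine (Finset.abs_sum_le_sum_abs _ _).trans ?_
  calc _ ≤ ∑ _r ∈ range d ×ˢ range d, E := by
        refine Finset.sum_le_sum fun r hr => ?_
        simp only [mem_product, mem_range] at hr
        have h2 := hE _ hr.1 _ hr.2
        rw [show F r * #{q ∈ Ω | q.1 % d = r.1 ∧ q.2 % d = r.2} - N * (F r / d ^ 2) =
          F r * (#{q ∈ Ω | q.1 % d = r.1 ∧ q.2 % d = r.2} - N / d ^ 2) by ring, abs_mul,
          abs_of_nonneg (h0 r)]
        calc _ ≤ 1 * E := by gcongr; exact h1 r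
          _ = E := one_mul E
    _ = _ := by
        rw [Finset.sum_const, card_product, card_range, nsmul_eq_mul]; push_cast; ring

/-- Local density. -/
noncomputable def dens (X : ℕ → ℕ × ℕ → ℝ) (p : ℕ) : ℝ :=
  (∑ q ∈ range p ×ˢ range p, X p q) / p ^ 2

theorem hyp_sieve (u : ℕ) [NeZero u] (ε : (ZMod u)ˣ) (P : Finset ℕ) (Y k : ℕ) (hY : 1 ≤ Y)
    (hP : ∀ p ∈ P, p.Prime ∧ p.Coprime u ∧ p ≤ Y) (X : ℕ → ℕ × ℕ → ℝ)
    (hX : ∀ p ∈ P, Per p (X p)) (hX0 : ∀ p ω, 0 ≤ X p ω) (hX1 : ∀ p ω, X p ω ≤ 1)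
    {S : ℝ} (hS0 : 0 ≤ S) (hS : 2 * (u : ℝ) ^ 3 * (#u.divisors : ℝ) ^ 3 ≤ S ^ 4) :
    ∑ ω ∈ hyp u ε.val, ∏ p ∈ P, (1 - X p ω) ≤
      u * (Real.exp (-∑ p ∈ P, dens X p) + Real.exp (2 * ∑ p ∈ P, dens X p) / 2 ^ (2 * k)) +
        (Y : ℝ) ^ (6 * k) * (3 + 3 * S * (#u.divisors * (1 + Real.log u)) ^ 2) := by
  set E := 3 + 3 * S * (#u.divisors * (1 + Real.log u)) ^ 2 with hE
  have hE0 : 0 ≤ E := by positivity
  have hle : ∀ D ⊆ P, #D ≤ 2 * k → ∏ p ∈ D, p ≤ Y ^ (2 * k) := fun D hD hk =>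
    (Finset.prod_le_pow_card D (fun p => p) Y fun p hp => (hP p (hD hp)).2.2).trans
      (Nat.pow_le_pow_right hY hk)
  have h := sieve_bound (hyp u ε.val) P X (dens X) u.totient (fun _ => (Y : ℝ) ^ (4 * k) * E) k
    hX0 hX1 (fun p _ => div_nonneg (Finset.sum_nonneg fun q _ => hX0 p q) (by positivity))
    (fun p hp => by
      have hp0 : (0 : ℝ) < p := by exact_mod_cast (hP p hp).1.pos
      rw [dens, div_le_one (by positivity)]
      refine (Finset.sum_le_sum fun q _ => hX1 p q).trans (le_of_eq ?_)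
      rw [Finset.sum_const, card_product, card_range, nsmul_eq_mul]; push_cast; ring)
    (Nat.cast_nonneg _) (fun D hD hk => by
      have hD' : ∀ p ∈ D, p.Prime := fun p hp => (hP p (hD hp)).1
      obtain ⟨h1, h2⟩ := crt_prod D hD' X fun p hp => hX p (hD hp)
      have hd : 0 < ∏ p ∈ D, p := Finset.prod_pos fun p hp => (hD' p hp).pos
      have h3 := equi_sum (hyp u ε.val) _ hd _ h1
        (fun q => Finset.prod_nonneg fun p _ => hX0 p q)
        (fun q => Finset.prod_le_one (fun p _ => hX0 p q) fun p _ => hX1 p q) u.totient E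
        (fun z hz y hy => hyp_count ε _ z y hz hy
          (Nat.Coprime.prod_left fun p hp => (hP p (hD hp)).2.1) hS0 hS)
      rw [h2] at h3
      have e : ∏ p ∈ D, dens X p = (∏ p ∈ D, ∑ q ∈ range p ×ˢ range p, X p q) /
          ((∏ p ∈ D, p : ℕ) : ℝ) ^ 2 := by
        simp only [dens]
        rw [Finset.prod_div_distrib, Finset.prod_pow]; push_cast; rfl
      rw [e]
      refine h3.trans ?_
      have h4 : ((∏ p ∈ D, p : ℕ) : ℝ) ≤ (Y : ℝ) ^ (2 * k) := by exact_mod_cast hle D hD hk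
      calc _ ≤ ((Y : ℝ) ^ (2 * k)) ^ 2 * E := by gcongr
        _ = _ := by rw [← pow_mul]; congr 2; ring)
  refine h.trans (add_le_add ?_ ?_)
  · gcongr
    exact_mod_cast Nat.totient_le u
  · rw [Finset.sum_const, nsmul_eq_mul]
    have h5 : #{D ∈ P.powerset | #D ≤ 2 * k} ≤ Y ^ (2 * k) := by
      have : Y ^ (2 * k) = #(Icc 1 (Y ^ (2 * k))) := by simp
      rw [this]
      refine Finset.card_le_card_of_injOn (fun D => ∏ p ∈ D, p) ?_ ?_
      · intro D hD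
        simp only [coe_filter, mem_powerset, Set.mem_ofPred_eq] at hD
        simp only [coe_Icc, Set.mem_Icc]
        exact ⟨Finset.prod_pos fun p hp => (hP p (hD.1 hp)).1.pos, hle D hD.1 hD.2⟩
      · intro D hD D' hD' h
        simp only [coe_filter, mem_powerset, Set.mem_ofPred_eq] at hD hD'
        rw [← Nat.primeFactors_prod (s := D) fun p hp => (hP p (hD.1 hp)).1,
          ← Nat.primeFactors_prod (s := D') fun p hp => (hP p (hD'.1 hp)).1]
        exact congrArg _ h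
    have h6 : (#{D ∈ P.powerset | #D ≤ 2 * k} : ℝ) ≤ (Y : ℝ) ^ (2 * k) := by exact_mod_cast h5
    calc _ ≤ (Y : ℝ) ^ (2 * k) * ((Y : ℝ) ^ (4 * k) * E) := by gcongr
      _ = _ := by rw [← mul_assoc, ← pow_add]; congr 2; ring

end Pool.Agent.P.MP_a1177c_nt.Sign
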