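import Pool.Agent.P.MP_a1177c_nt.Sign.Rich
import Pool.Agent.P.MP_a1177c_nt.Sign.Sieve

/-!
# Many simultaneously poor candidates are rare
-/

namespace Pool.Agent.P.MP_a1177c_nt.Sign

open Finset Filter Topology

/-- The local event at `p`. -/
def Ev (ν p u I j : ℕ) (e : ℤ) (q : ℕ × ℕ) : Prop :=
  ((q.1 : ZMod p) - ν * u) * (I * q.2 + j * u) = I * e

instance (ν p u I j : ℕ) (e : ℤ) (q : ℕ × ℕ) : Decidable (Ev ν p u I j e q) := by
  unfold Ev; infer_instance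

theorem card_Ev_lower {ν p u j : ℕ} (hp : p.Prime) (hu : ¬ p ∣ u) (hj : ¬ p ∣ j) (e : ℤˣ)
    (I : ℕ → ℕ) (S : Finset ℕ) (hI : ∀ s ∈ S, ¬ p ∣ I s)
    (hI' : ∀ s ∈ S, ∀ s' ∈ S, I s ≡ I s' [MOD p] → s = s') :
    #S * (p - 1) ≤ #{q ∈ range p ×ˢ range p | ∃ s ∈ S, Ev ν p u (I s) j e q} := by
  have := Fact.mk hp
  have hu' : (u : ZMod p) ≠ 0 := fun h => hu ((ZMod.natCast_eq_zero_iff _ _).1 h)
  have hj' : (j : ZMod p) ≠ 0 := fun h => hj ((ZMod.natCast_eq_zero_iff _ _).1 h)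
  have hI0 : ∀ s ∈ S, (I s : ZMod p) ≠ 0 := fun s hs h =>
    hI s hs ((ZMod.natCast_eq_zero_iff _ _).1 h)
  have e1 : #S * (p - 1) = #(S ×ˢ (univ : Finset (ZMod p)).erase 0) := by
    rw [card_product, card_erase_of_mem (mem_univ _), card_univ, ZMod.card]
  rw [e1]
  refine Finset.card_le_card_of_injOn (fun a => (((ν : ZMod p) * u + a.2).val,
    (((e : ℤ) : ZMod p) / a.2 - j * u / I a.1).val)) ?_ ?_
  · rintro ⟨s, ζ⟩ ha
    simp only [coe_product, Set.mem_prod, mem_coe, mem_erase] at ha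
    simp only [coe_filter, mem_product, mem_range, Set.mem_ofPred_eq]
    refine ⟨⟨ZMod.val_lt _, ZMod.val_lt _⟩, s, ha.1, ?_⟩
    have h1 := hI0 s ha.1
    have h2 := ha.2.1
    simp only [Ev, ZMod.natCast_zmod_val]
    field_simp
    ring
  · rintro ⟨s, ζ⟩ ha ⟨s', ζ'⟩ ha' h
    simp only [coe_product, Set.mem_prod, mem_coe, mem_erase] at ha ha'
    simp only [Prod.mk.injEq] at h ⊢
    have h1 : ζ = ζ' := add_left_cancel (ZMod.val_injective _ h.1)
    have h2 := ZMod.val_injective _ h.2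
    rw [h1, sub_right_inj, div_eq_div_iff (hI0 s ha.1) (hI0 s' ha'.1)] at h2
    have h3 := mul_left_cancel₀ (mul_ne_zero hj' hu') h2
    exact ⟨hI' s ha.1 s' ha'.1 ((ZMod.natCast_eq_natCast_iff _ _ _).1 h3.symm), h1⟩

theorem card_Ev_upper {ν p u j : ℕ} (hp : p.Prime) (e : ℤˣ)
    (I : ℕ → ℕ) (S : Finset ℕ) (hI : ∀ s ∈ S, ¬ p ∣ I s) :
    #{q ∈ range p ×ˢ range p | ∃ s ∈ S, Ev ν p u (I s) j e q} ≤ #S * p := by
  have := Fact.mk hp
  have he : (((e : ℤ)) : ZMod p) ≠ 0 := by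
    rcases Int.units_eq_one_or e with h | h <;> simp [h]
  calc _ ≤ #(S.biUnion fun s => {q ∈ range p ×ˢ range p | Ev ν p u (I s) j e q}) := by
        refine Finset.card_le_card fun q hq => ?_
        simp only [mem_filter, mem_biUnion] at hq ⊢
        obtain ⟨h1, s, hs, h2⟩ := hq
        exact ⟨s, hs, h1, h2⟩
    _ ≤ _ := by
        refine Finset.card_biUnion_le_card_mul _ _ _ fun s hs => ?_
        have hI0 : (I s : ZMod p) ≠ 0 := fun h => hI s hs ((ZMod.natCast_eq_zero_iff _ _).1 h)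
        conv_rhs => rw [← card_range p]
        refine Finset.card_le_card_of_injOn Prod.fst ?_ ?_
        · intro q hq
          simp only [coe_filter, mem_product, Set.mem_ofPred_eq] at hq
          exact hq.1.1
        · rintro ⟨z, y⟩ hq ⟨z', y'⟩ hq' h
          simp only [coe_filter, mem_product, mem_range, Set.mem_ofPred_eq, Ev] at hq hq'
          simp only at h
          subst h
          have h1 : (z : ZMod p) - ν * u ≠ 0 := fun h0 => by
            have := hq.2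
            rw [h0, zero_mul] at this
            exact mul_ne_zero hI0 he this.symm
          have h2 := mul_left_cancel₀ hI0 (add_right_cancel
            (mul_left_cancel₀ h1 (hq.2.trans hq'.2.symm)))
          rw [Nat.ModEq.eq_of_lt_of_lt ((ZMod.natCast_eq_natCast_iff _ _ _).1 h2) hq.1.2 hq'.1.2]

theorem main_term (C1 C2 : ℝ) : ∃ C : ℝ, ∀ᶠ u : ℕ in atTop, ∀ σ : ℝ,
    16 * Real.log (rr u) - C1 ≤ σ → σ ≤ 1024 * (Real.log (rr u) + C2) →
    Real.exp (-σ) + Real.exp (2 * σ) / 2 ^ (2 * rr u) ≤ C / (tt u : ℝ) ^ 4 := by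
  refine ⟨2 ^ 16 * (Real.exp C1 + Real.exp (2048 * C2)), ?_⟩
  have h1 := (tendsto_pow_const_div_const_pow_of_one_lt 2064 (r := 4) (by norm_num)).comp tendsto_rr
  filter_upwards [h1.eventually (gt_mem_nhds zero_lt_one)] with u hu σ h2 h3
  simp only [Function.comp] at hu
  have hr : (1 : ℝ) ≤ rr u := by exact_mod_cast rr_pos u
  have hr0 : (0 : ℝ) < rr u := by linarith
  have ht : (0 : ℝ) < tt u := by exact_mod_cast tt_pos u
  have h4 : (tt u : ℝ) ^ 4 ≤ 2 ^ 16 * (rr u : ℝ) ^ 16 := by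
    have : tt u ^ 4 ≤ (2 * rr u) ^ 16 := by
      have := rr_pos u
      calc tt u ^ 4 ≤ ((2 * rr u) ^ 4) ^ 4 := by
            gcongr; exact (tt_le u).trans (by gcongr; omega)
        _ = _ := by rw [← pow_mul]
    rw [← mul_pow]; exact_mod_cast this
  have h5 : Real.exp (-σ) * (rr u : ℝ) ^ 16 ≤ Real.exp C1 := by
    rw [← Real.exp_log hr0, ← Real.exp_nat_mul, ← Real.exp_add]
    exact Real.exp_le_exp.2 (by push_cast; linarith)
  have h6 : Real.exp (2 * σ) ≤ Real.exp (2048 * C2) * (rr u : ℝ) ^ 2048 := by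
    rw [← Real.exp_log hr0, ← Real.exp_nat_mul, ← Real.exp_add]
    exact Real.exp_le_exp.2 (by push_cast; linarith)
  have h7 : Real.exp (2 * σ) / 2 ^ (2 * rr u) * (rr u : ℝ) ^ 16 ≤ Real.exp (2048 * C2) := by
    calc _ ≤ Real.exp (2048 * C2) * (rr u : ℝ) ^ 2048 / 2 ^ (2 * rr u) * (rr u : ℝ) ^ 16 := by
          gcongr
      _ = Real.exp (2048 * C2) * ((rr u : ℝ) ^ 2064 / 4 ^ rr u) := by
          rw [pow_mul, show (2064 : ℕ) = 2048 + 16 from rfl, pow_add]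
          generalize (rr u : ℝ) ^ 2048 = a
          norm_num; ring
      _ ≤ Real.exp (2048 * C2) * 1 := by gcongr
      _ = _ := mul_one _
  rw [le_div_iff₀ (by positivity)]
  calc _ ≤ (Real.exp (-σ) + Real.exp (2 * σ) / 2 ^ (2 * rr u)) * (2 ^ 16 * (rr u : ℝ) ^ 16) := by
        gcongr
    _ = 2 ^ 16 * (Real.exp (-σ) * (rr u : ℝ) ^ 16 +
          Real.exp (2 * σ) / 2 ^ (2 * rr u) * (rr u : ℝ) ^ 16) := by ring
    _ ≤ _ := by gcongr

namespace Ctx

variable {F : Ctx}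

theorem poor_count (M : ℕ) [NeZero M] (hM : F.Q ∣ M) (n : ℕ) (hn : (n : ℝ) = 2048) :
    ∃ C : ℝ, ∀ᶠ u : ℕ in atTop,
    ∀ (e : ℤˣ) (I : ℕ → ℕ) (j : ℕ) (Z : ℕ → Finset (ZMod M)), (∀ s < n, F.Adm M (Z s)) →
    (∀ p : ℕ, p.Prime → p.Coprime M → (∀ s < n, ¬ p ∣ I s) ∧ ¬ p ∣ j ∧
      ∀ s < n, ∀ s' < n, I s ≡ I s' [MOD p] → s = s') →
    (#{ω ∈ hyp u ((e : ℤ) : ZMod u) | ∀ s ∈ range n, #((F.PP M u).filter fun p : ℕ =>
      (p : ZMod M) ∈ Z s ∧ Ev (F.nu p) p u (I s) j e ω) ≤ M} : ℝ) ≤ C * u / (tt u : ℝ) ^ 4 := by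
  obtain ⟨C1, hC1⟩ := PP_lower (F := F) M hM
  obtain ⟨C2, hC2⟩ := mertens_upper
  obtain ⟨C3, hC3⟩ := main_term (512 * C1) C2
  refine ⟨2 ^ (n * M) * (C3 + 1), ?_⟩
  filter_upwards [hC3, err_le, eventually_ge_atTop 2] with u h1 ⟨S, hS0, hS, h2⟩ hu e I j Z hZ hI
  have : NeZero u := ⟨by omega⟩
  let Sp : ℕ → Finset ℕ := fun p => (range n).filter fun s => (p : ZMod M) ∈ Z s
  let X : ℕ → ℕ × ℕ → ℝ := fun p ω =>
    if ∃ s ∈ Sp p, Ev (F.nu p) p u (I s) j e ω then 1 / 2 else 0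
  have hPP : ∀ p ∈ F.PP M u, p.Prime ∧ p.Coprime M ∧ ¬ p ∣ u ∧ p ≤ 2 ^ rr u := fun p hp => by
    simp only [PP, mem_filter, mem_Icc] at hp
    exact ⟨hp.2.1, hp.2.2.1, hp.2.2.2.2.2, hp.1.2⟩
  have h3 := hyp_sieve u (Units.map (Int.castRingHom (ZMod u)).toMonoidHom e) (F.PP M u)
    (2 ^ rr u) (rr u) Nat.one_le_two_pow
    (fun p hp => ⟨(hPP p hp).1, (Nat.Prime.coprime_iff_not_dvd (hPP p hp).1).2 (hPP p hp).2.2.1,
      (hPP p hp).2.2.2⟩) X
    (fun p _ q => if_congr (by simp only [Ev, ZMod.natCast_mod]) rfl rfl)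
    (fun p ω => by simp only [X]; split_ifs <;> norm_num)
    (fun p ω => by simp only [X]; split_ifs <;> norm_num) hS0 hS
  have hdens : ∀ p ∈ F.PP M u, (#(Sp p) : ℝ) * (1 / p) / 4 ≤ dens X p ∧
      dens X p ≤ 1024 * (1 / p) := by
    intro p hp
    obtain ⟨hp1, hp2, hp3, -⟩ := hPP p hp
    obtain ⟨a1, a2, a3⟩ := hI p hp1 hp2
    have hSp : ∀ s ∈ Sp p, s < n := fun s hs => mem_range.1 (mem_filter.1 hs).1
    have b1 := card_Ev_lower (ν := F.nu p) hp1 hp3 a2 e I (Sp p) (fun s hs => a1 s (hSp s hs))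
      fun s hs s' hs' => a3 s (hSp s hs) s' (hSp s' hs')
    have b2 := card_Ev_upper (ν := F.nu p) (u := u) (j := j) hp1 e I (Sp p)
      fun s hs => a1 s (hSp s hs)
    have b3 : #(Sp p) ≤ n := (card_filter_le _ _).trans (card_range _).le
    have hp0 : (2 : ℝ) ≤ p := by exact_mod_cast hp1.two_le
    have e1 : dens X p = #{q ∈ range p ×ˢ range p | ∃ s ∈ Sp p, Ev (F.nu p) p u (I s) j e q} *
        (1 / 2) / p ^ 2 := by
      simp only [dens, X]
      rw [← Finset.sum_filter, Finset.sum_const, nsmul_eq_mul]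
    rw [e1]
    set c := #{q ∈ range p ×ˢ range p | ∃ s ∈ Sp p, Ev (F.nu p) p u (I s) j e q}
    have b1' : (#(Sp p) : ℝ) * (p - 1) ≤ c := by
      have : ((#(Sp p) * (p - 1) : ℕ) : ℝ) ≤ c := by exact_mod_cast b1
      rwa [Nat.cast_mul, Nat.cast_sub hp1.one_le, Nat.cast_one] at this
    have b2' : (c : ℝ) ≤ 2048 * p := by
      rw [← hn]; exact_mod_cast b2.trans (Nat.mul_le_mul_right _ b3)
    have b4 : (0 : ℝ) ≤ #(Sp p) := Nat.cast_nonneg _
    constructor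
    · rw [le_div_iff₀ (by positivity)]
      have : (#(Sp p) : ℝ) * (1 / p) / 4 * p ^ 2 = #(Sp p) * p / 4 := by field_simp
      rw [this]; nlinarith
    · rw [div_le_iff₀ (by positivity)]
      have : (1024 : ℝ) * (1 / p) * p ^ 2 = 1024 * p := by field_simp
      rw [this]; linarith
  have hlow : 16 * Real.log (rr u) - 512 * C1 ≤ ∑ p ∈ F.PP M u, dens X p := by
    refine le_trans ?_ (Finset.sum_le_sum fun p hp => (hdens p hp).1)
    rw [← Finset.sum_div]
    have e1 : ∑ p ∈ F.PP M u, (#(Sp p) : ℝ) * (1 / p) = ∑ s ∈ range n,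
        ∑ p ∈ (F.PP M u).filter (fun p : ℕ => (p : ZMod M) ∈ Z s), (1 : ℝ) / p := by
      simp only [Sp, Finset.sum_filter, Finset.card_filter]
      rw [Finset.sum_comm]
      refine Finset.sum_congr rfl fun p _ => ?_
      push_cast
      rw [Finset.sum_mul]
      refine Finset.sum_congr rfl fun s _ => ?_
      split_ifs <;> simp
    rw [e1]
    have a1 := Finset.card_nsmul_le_sum (range n) _ _
      fun s hs => hC1 u hu (Z s) (hZ s (mem_range.1 hs))
    rw [card_range, nsmul_eq_mul, hn] at a1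
    linarith
  have hup : ∑ p ∈ F.PP M u, dens X p ≤ 1024 * (Real.log (rr u) + C2) := by
    refine (Finset.sum_le_sum fun p hp => (hdens p hp).2).trans ?_
    rw [← Finset.mul_sum]
    have hr := rr_pos u
    have a1 := hC2 (2 ^ rr u) (Nat.le_self_pow hr.ne' 2) (F.PP M u)
      fun p hp => ⟨(hPP p hp).1, (hPP p hp).2.2.2⟩
    have hr' : (0 : ℝ) < rr u := by exact_mod_cast hr
    have a2 : Real.log (Real.log ((2 ^ rr u : ℕ) : ℝ)) ≤ Real.log (rr u) := by
      push_cast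
      rw [Real.log_pow]
      have := Real.log_two_lt_d9
      have := Real.log_two_gt_d9
      exact Real.log_le_log (by positivity) (by nlinarith)
    gcongr
    linarith
  have h4 := h1 _ hlow hup
  have hu0 : (0 : ℝ) ≤ u := Nat.cast_nonneg u
  have h5 : ∑ ω ∈ hyp u ((e : ℤ) : ZMod u), ∏ p ∈ F.PP M u, (1 - X p ω) ≤
      (C3 + 1) * u / (tt u : ℝ) ^ 4 := by
    refine h3.trans ((add_le_add (mul_le_mul_of_nonneg_left h4 hu0) h2).trans (le_of_eq ?_))
    ring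
  rw [mul_assoc, mul_div_assoc]
  refine le_trans ?_ (mul_le_mul_of_nonneg_left h5 (by positivity))
  rw [Finset.mul_sum, Finset.card_filter]
  push_cast
  refine Finset.sum_le_sum fun ω _ => ?_
  have e2 : ∏ p ∈ F.PP M u, (1 - X p ω) =
      (1 / 2) ^ #{p ∈ F.PP M u | ∃ s ∈ Sp p, Ev (F.nu p) p u (I s) j e ω} := by
    rw [← Finset.prod_const, Finset.prod_filter]
    refine Finset.prod_congr rfl fun p _ => ?_
    simp only [X]
    split_ifs <;> norm_num
  rw [e2]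
  split_ifs with h
  · have a1 : #{p ∈ F.PP M u | ∃ s ∈ Sp p, Ev (F.nu p) p u (I s) j e ω} ≤ n * M := by
      calc _ ≤ #((range n).biUnion fun s => (F.PP M u).filter fun p : ℕ =>
            (p : ZMod M) ∈ Z s ∧ Ev (F.nu p) p u (I s) j e ω) := by
            refine Finset.card_le_card fun p hp => ?_
            simp only [Sp, mem_filter, mem_biUnion] at hp ⊢
            obtain ⟨b1, s, ⟨b2, b3⟩, b4⟩ := hp
            exact ⟨s, b2, b1, b3, b4⟩
        _ ≤ #(range n) * M :=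
            Finset.card_biUnion_le_card_mul _ _ _ fun s hs => h s hs
        _ = _ := by rw [card_range]
    rw [one_div, inv_pow, ← div_eq_mul_inv, le_div_iff₀ (by positivity), one_mul]
    exact pow_le_pow_right₀ (by norm_num) a1
  · positivity

end Ctx

end Pool.Agent.P.MP_a1177c_nt.Sign
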