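import Pool.Agent.P.MP_a1177c_nt.Sign.Chain
import Pool.Agent.P.MP_a1177c_nt.Sign.Poor

/-!
# Pairs without a rich candidate are rare
-/

namespace Pool.Agent.P.MP_a1177c_nt.Sign

open Finset Filter Topology

theorem Pr.wt_le {K0 : ℕ} {e : Pr} (he : e.Valid) (h : e.Bal K0) :
    e.wt ≤ K0 * (tt e.u : ℝ) ^ 2 / e.u ^ 2 := by
  have h1 : e.u ≤ K0 * e.y * tt e.u ^ 2 := h.le.trans (by gcongr; exact tt_mono he.2.1.le)
  have h2 : (e.u : ℝ) ≤ K0 * e.y * (tt e.u : ℝ) ^ 2 := by exact_mod_cast h1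
  have g2 : (0 : ℝ) < e.y := by exact_mod_cast he.1
  have g3 : (0 : ℝ) < e.u := by exact_mod_cast he.1.trans he.2.1.le
  unfold Pr.wt
  rw [div_le_div_iff₀ (by positivity) (by positivity)]
  nlinarith

namespace Ctx

variable (F : Ctx)

/-- Bound for the coefficients of the candidates. -/
def K2 : ℕ := F.Q ^ 2 * (2 + 2048 * F.Q)
/-- Bound for the determinants. -/
def KK : ℕ := F.K2 ^ 2
/-- The big modulus. -/
def MM : ℕ := F.Q * F.KK.factorial
/-- The bound for the divisors. -/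
def BB (u : ℕ) : ℕ := (2 ^ rr u) ^ (F.MM + 1)
/-- The bound for the exceptional arguments. -/
def Nb (u : ℕ) : ℕ := F.c2 F.KK * F.BB u * (2 * F.K2 * u) ^ 2

instance : NeZero F.MM := ⟨Nat.mul_ne_zero F.Q_pos.ne' (Nat.factorial_ne_zero _)⟩

/-- Each family of candidates has a rich member. -/
def GoodR (e : Pr) : Prop :=
  ∀ i j, 1 ≤ i → i ≤ F.Q ^ 2 → 1 ≤ j → j ≤ F.Q ^ 2 → ∃ s < 2048,
    F.Rich F.MM (tt e.u ^ 3) (F.BB e.u) (F.N (e.X (i + s * F.Q * j) j) (e.Y (i + s * F.Q * j) j))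

/-- The exceptional event for two vectors with bounded coefficients. -/
def ExcE (σ : ℤ) (e : Pr) : Prop :=
  ∃ i j i' j', i ≤ F.K2 ∧ j ≤ F.K2 ∧ i' ≤ F.K2 ∧ j' ≤ F.K2 ∧ 1 ≤ j' ∧
    F.Exc σ F.KK (F.Nb e.u) (e.X i j) (e.Y i j) (e.X i' j') (e.Y i' j')

theorem le_K2 : 2 * F.Q ^ 2 ≤ F.K2 := by unfold K2; nlinarith [Nat.zero_le (F.Q ^ 2 * F.Q)]

theorem K2_pos : 1 ≤ F.K2 := le_trans (by have := pow_pos F.Q_pos 2; omega) F.le_K2

theorem cand_le {i j s : ℕ} (hi : i ≤ F.Q ^ 2) (hj : j ≤ F.Q ^ 2) (hs : s < 2048) :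
    i + s * F.Q * j ≤ F.K2 := by
  calc i + s * F.Q * j ≤ 2 * F.Q ^ 2 + 2048 * F.Q * F.Q ^ 2 := by gcongr; omega
    _ = _ := by unfold K2; ring

variable {F}

theorem good_of {σ : ℤ} {e : Pr} (he : e.Valid) (hu : 2 * F.KK * F.c0 * F.K2 ≤ tt e.u ^ 3)
    (hR : F.GoodR e) (hE : ¬ F.ExcE σ e) : F.Good e := by
  intro s i j i' j' a1 a2 a3 a4 a5 a6 hV hV'
  obtain ⟨i0, j0, b1, b2, b3, b4, b5, b6⟩ := hV.exists_vertex he
  obtain ⟨r, hr, hrich⟩ := hR i0 j0 b1 b2 b3 b4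
  have hI := F.cand_le b2 b4 hr
  have hK := F.le_K2
  have hC : F.IsV s (e.X (i0 + r * F.Q * j0) j0) (e.Y (i0 + r * F.Q * j0) j0) := by
    have e1 : e.X i0 j0 ≡ e.X (i0 + r * F.Q * j0) j0 [MOD F.Q] := by
      have : e.X (i0 + r * F.Q * j0) j0 = e.X i0 j0 + F.Q * (r * j0 * e.x) := by
        unfold Pr.X; ring
      rw [this]
      exact (Nat.modEq_iff_dvd' (Nat.le_add_right _ _)).2 (by simp)
    refine ⟨he.coprime ((Nat.coprime_add_mul_right_left _ _ _).2 b5), ?_,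
      coprime_of_modEq e1 b6.2.2.1, (J_congr e1 b6.2.2.1).symm.trans b6.2.2.2⟩
    have : e.Y (i0 + r * F.Q * j0) j0 = e.Y i0 j0 + F.Q * (r * j0 * e.y) := by
      unfold Pr.Y; ring
    rw [this]
    exact dvd_add b6.2.1 (Dvd.intro _ rfl)
  have hY : ∀ i j, i ≤ F.K2 → j ≤ F.K2 → e.Y i j ≤ 2 * F.K2 * e.u := fun i j hi hj => by
    have := he.2.1.le
    calc e.Y i j ≤ F.K2 * e.u + F.K2 * e.u := by unfold Pr.Y; gcongr
      _ = _ := by ring
  have key : ∀ i j, i ≤ F.K2 → 1 ≤ j → j ≤ F.K2 → F.IsV s (e.X i j) (e.Y i j) →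
      lam (F.N (e.X i j) (e.Y i j)) =
        lam (F.N (e.X (i0 + r * F.Q * j0) j0) (e.Y (i0 + r * F.Q * j0) j0)) := by
    intro i j c1 c2 c3 c4
    obtain ⟨δ, hδ, hd⟩ := he.det
    have d1 := hd i j (i0 + r * F.Q * j0) j0
    generalize i0 + r * F.Q * j0 = I at *
    have d2 : i * j0 ≤ F.KK := by rw [KK, sq]; exact Nat.mul_le_mul c1 (by omega)
    have d3 : j * I ≤ F.KK := by rw [KK, sq]; exact Nat.mul_le_mul c3 hI
    have d4 : e.X i j * e.Y I j0 ≤ e.Y i j * e.X I j0 + F.KK ∧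
        e.Y i j * e.X I j0 ≤ e.X i j * e.Y I j0 + F.KK := by
      zify at d2 d3 ⊢
      have : (0 : ℤ) ≤ i * j0 := by positivity
      have : (0 : ℤ) ≤ j * I := by positivity
      rcases mul_self_eq_one_iff.1 ((sq δ).symm.trans hδ) with h | h <;> subst h <;>
        constructor <;> linarith
    rcases edge (σ := σ) c4 hC (he.le _ _) (he.le _ _) d4.1 d4.2 dvd_rfl (NeZero.ne F.MM)
      (hY i j c1 c3) (hY I j0 hI (by omega)) hrich (by
        calc F.KK * F.c0 * e.Y I j0 ≤ F.KK * F.c0 * (2 * F.K2 * e.u) := by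
              gcongr; exact hY I j0 hI (by omega)
          _ = 2 * F.KK * F.c0 * F.K2 * (0 + 1 * e.u) := by ring
          _ ≤ _ := by unfold Pr.Y; gcongr; exact Nat.zero_le _) with h | h | h
    · exact h
    · exact absurd ⟨i, j, I, j0, c1, c3, hI, by omega, b3, h⟩ hE
    · exact absurd ⟨I, j0, i, j, hI, by omega, c1, c3, c2, h⟩ hE
  rw [key i j (by omega) a2 (by omega) hV, key i' j' (by omega) a5 (by omega) hV']

theorem not_dvd_of_le {p m : ℕ} (hp : p.Prime) (hM : p.Coprime F.MM) (h0 : 1 ≤ m) (hm : m ≤ F.KK) :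
    ¬ p ∣ m := fun h => hp.one_lt.ne' (Nat.eq_one_of_dvd_coprimes hM dvd_rfl
      (h.trans ((Nat.dvd_factorial h0 hm).trans (Dvd.intro_left _ rfl))))

theorem notR_count : ∃ C : ℝ, ∀ᶠ u : ℕ in atTop, ∀ S : Finset Pr,
    (∀ e ∈ S, e.Valid ∧ e.u = u ∧ ¬ F.GoodR e) → (#S : ℝ) ≤ C * u / (tt u : ℝ) ^ 4 := by
  classical
  obtain ⟨n, hn⟩ : ∃ n : ℕ, n = 2048 := ⟨_, rfl⟩
  obtain ⟨C, hC⟩ := poor_count (F := F) F.MM (Dvd.intro _ rfl) n (by rw [hn]; norm_num)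
  let ι := ℤˣ × (Fin (F.Q ^ 2) × Fin (F.Q ^ 2)) × (Fin n → Finset (ZMod F.MM))
  refine ⟨Fintype.card ι * max C 0, ?_⟩
  filter_upwards [hC, eventually_ge_atTop 2] with u hu hu2 S hS
  let Zf : ι → ℕ → Finset (ZMod F.MM) := fun a s => if h : s < n then a.2.2 ⟨s, h⟩ else ∅
  let If : ι → ℕ → ℕ := fun a s => (a.2.1.1 + 1) + s * F.Q * (a.2.1.2 + 1)
  let R : Pr → ι → Prop := fun e a => e.u = u ∧ (e.y * e.z : ℤ) = e.x * e.u + a.1 ∧
    (∀ s < n, F.Adm F.MM (Zf a s)) ∧ (e.z, e.y) ∈ {ω ∈ hyp u ((a.1 : ℤ) : ZMod u) |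
      ∀ s ∈ range n, #((F.PP F.MM u).filter fun p : ℕ => (p : ZMod F.MM) ∈ Zf a s ∧
        Ev (F.nu p) p u (If a s) (a.2.1.2 + 1) a.1 ω) ≤ F.MM}
  have hK := F.le_K2
  have hKK : F.K2 ≤ F.KK := Nat.le_self_pow two_ne_zero _
  have hQ := F.Q_pos
  have hI : ∀ a : ι, ∀ p : ℕ, p.Prime → p.Coprime F.MM → (∀ s < n, ¬ p ∣ If a s) ∧
      ¬ p ∣ (a.2.1.2 + 1) ∧ ∀ s < n, ∀ s' < n, If a s ≡ If a s' [MOD p] → s = s' := by
    intro a p hp hM
    have a1 := a.2.1.1.2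
    have a2 := a.2.1.2.2
    have a3 : ¬ p ∣ (a.2.1.2 + 1) := not_dvd_of_le hp hM (by omega) (by omega)
    refine ⟨fun s hs => not_dvd_of_le hp hM (by simp only [If]; omega)
      ((F.cand_le a1 a2 (hn ▸ hs)).trans hKK), a3, ?_⟩
    have a4 : ∀ s s', s' < n → s ≤ s' → If a s ≡ If a s' [MOD p] → s = s' := by
      intro s s' hs' hss h
      obtain ⟨d, rfl⟩ := Nat.exists_eq_add_of_le hss
      have b1 : If a (s + d) = If a s + d * F.Q * (a.2.1.2 + 1) := by simp only [If]; ring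
      rw [b1] at h
      have b2 : p ∣ d * F.Q * (a.2.1.2 + 1) := by
        simpa using (Nat.modEq_iff_dvd' (Nat.le_add_right _ _)).1 h
      by_contra b3
      have b4 : F.Q ≤ F.Q ^ 2 := Nat.le_self_pow two_ne_zero _
      rcases (Nat.Prime.dvd_mul hp).1 b2 with b5 | b5
      · rcases (Nat.Prime.dvd_mul hp).1 b5 with b6 | b6
        · refine not_dvd_of_le hp hM (by omega) (le_trans ?_ hKK) b6
          calc d ≤ 1 * (0 + 2048 * 1) := by omega
            _ ≤ _ := by unfold K2; gcongr; exacts [by omega, by omega, hQ]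
        · exact not_dvd_of_le hp hM hQ (by omega) b6
      · exact a3 b5
    exact fun s hs s' hs' h => (le_total s s').elim (fun b => a4 s s' hs' b h)
      fun b => (a4 s' s hs b h.symm).symm
  have h1 : ∀ e ∈ S, ∃ a, R e a := by
    intro e he
    obtain ⟨hv, rfl, hR⟩ := hS e he
    simp only [GoodR, not_forall, not_exists, not_and] at hR
    obtain ⟨i, j, a1, a2, a3, a4, hR⟩ := hR
    obtain ⟨δ, hδ⟩ : ∃ δ : ℤˣ, (e.y * e.z : ℤ) = e.x * e.u + δ := by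
      rcases hv.2.2.2.2 with h | h
      · have h' : (e.x * e.u : ℤ) = e.y * e.z + 1 := by exact_mod_cast h
        exact ⟨-1, by simp only [Units.val_neg, Units.val_one]; linarith⟩
      · exact ⟨1, by rw [Units.val_one]; exact_mod_cast h⟩
    have h2 : ∀ s : Fin n, ∃ Z, F.Adm F.MM Z ∧ #((F.PP F.MM e.u).filter fun p : ℕ =>
        (p : ZMod F.MM) ∈ Z ∧ Ev (F.nu p) p e.u (i + s * F.Q * j) j δ (e.z, e.y)) ≤ F.MM := by
      intro s
      by_contra! h3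
      refine hR s (hn ▸ s.2) (rich_of F.MM (Dvd.intro _ rfl) _ _ _ ((F.PP F.MM e.u).filter
        fun p : ℕ => Ev (F.nu p) p e.u (i + s * F.Q * j) j δ (e.z, e.y)) (fun p hp => ?_)
        fun Z hZ => (h3 Z hZ).trans_le (le_of_eq ?_))
      · simp only [PP, mem_filter, mem_Icc] at hp
        obtain ⟨⟨⟨-, b1⟩, b2, b3, b4, b5, b6⟩, b7⟩ := hp
        refine ⟨b2, b3, b4, b5.le, b1, dvd_N_of_modEq (nu_spec b2
          (b3.coprime_dvd_right (Dvd.intro _ rfl)) b4) ?_⟩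
        have := Fact.mk b2
        have hu' : (e.u : ZMod p) ≠ 0 := fun h => b6 ((ZMod.natCast_eq_zero_iff _ _).1 h)
        rw [← ZMod.natCast_eq_natCast_iff]
        apply mul_left_cancel₀ hu'
        have b8 := congrArg (Int.cast : ℤ → ZMod p) hδ
        simp only [Ev] at b7
        simp only [Pr.X, Pr.Y]
        generalize i + s * F.Q * j = I at *
        push_cast at b8 ⊢
        linear_combination b7 - (I : ZMod p) * b8
      · rw [Finset.filter_filter]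
        exact congrArg _ (Finset.filter_congr fun p _ => and_comm)
    choose Z hZ1 hZ2 using h2
    obtain ⟨i, rfl⟩ := Nat.exists_eq_add_of_le' a1
    obtain ⟨j, rfl⟩ := Nat.exists_eq_add_of_le' a3
    refine ⟨(δ, (⟨i, a2⟩, ⟨j, a4⟩), Z), rfl, hδ, fun s hs => ?_, ?_⟩
    · simp only [Zf, dif_pos hs]; exact hZ1 _
    · simp only [mem_filter, hyp, mem_product, mem_range]
      refine ⟨⟨⟨hv.2.2.2.1, hv.2.1⟩, ?_⟩, fun s hs => ?_⟩
      · have b8 := congrArg (Int.cast : ℤ → ZMod e.u) hδ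
        push_cast at b8
        rw [ZMod.natCast_self] at b8
        linear_combination b8
      · simp only [Zf, dif_pos hs]; exact hZ2 ⟨s, hs⟩
  have h2 : ∀ (a : ι) (S' : Finset Pr), (∀ e ∈ S', R e a) →
      ∑ _e ∈ S', (1 : ℝ) ≤ max C 0 * u / (tt u : ℝ) ^ 4 := by
    intro a S' hS'
    rw [Finset.sum_const, nsmul_eq_mul, mul_one]
    rcases S'.eq_empty_or_nonempty with rfl | ⟨e0, h0⟩
    · simp only [card_empty, Nat.cast_zero]; positivity
    refine le_trans ?_ ((hu a.1 (If a) (a.2.1.2 + 1) (Zf a) (hS' e0 h0).2.2.1 (hI a)).trans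
      (by gcongr; exact le_max_left _ _))
    refine Nat.cast_le.2 (Finset.card_le_card_of_injOn (fun e => (e.z, e.y))
      (fun e he => (hS' e he).2.2.2) fun e he e' he' h => ?_)
    simp only [Prod.mk.injEq] at h
    obtain ⟨b1, b2, -⟩ := hS' e he
    obtain ⟨c1, c2, -⟩ := hS' e' he'
    rw [b1, h.1, h.2] at b2
    rw [c1] at c2
    have b3 : (e.x : ℤ) * u = e'.x * u := by linarith
    have b4 := mul_right_cancel₀ (by omega) b3
    exact Pr.ext' (by omega) h.2 h.1 (b1.trans c1.symm)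
  have : Nonempty ι := ⟨(1, (⟨0, by positivity⟩, ⟨0, by positivity⟩), fun _ => ∅)⟩
  have h3 := sum_le_tsum_rel (fun _ => (1 : ℝ)) _ R (hasSum_fintype _).summable
    (fun _ => by positivity) h2 S h1
  rw [Finset.sum_const, nsmul_eq_mul, mul_one, tsum_fintype, Finset.sum_const, nsmul_eq_mul,
    card_univ] at h3
  rw [mul_assoc, mul_div_assoc]
  exact h3

theorem summable_notR (K0 : ℕ) : ∃ U : ℕ, Summable fun e : Pr =>
    ind (e.Valid ∧ e.Bal K0 ∧ U ≤ e.u ∧ ¬ F.GoodR e) e.wt := by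
  obtain ⟨C, hC⟩ := notR_count (F := F)
  obtain ⟨U, hU⟩ := eventually_atTop.1 hC
  refine ⟨U, (summable_rel Pr.wt Pr.wt_nonneg _ _
    (fun e u => (e.Valid ∧ e.Bal K0 ∧ U ≤ e.u ∧ ¬ F.GoodR e) ∧ e.u = u)
    (summable_tt.mul_left (max C 0 * K0)) (fun u => by positivity) (fun u S hS => ?_)
    fun e he => ⟨e.u, he, rfl⟩).1⟩
  rcases S.eq_empty_or_nonempty with rfl | ⟨e0, h0⟩
  · simp only [sum_empty]; positivity
  have h1 := hU u ((hS e0 h0).2 ▸ (hS e0 h0).1.2.2.1) S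
    fun e he => ⟨(hS e he).1.1, (hS e he).2, (hS e he).1.2.2.2⟩
  have hu : (0 : ℝ) < u := by
    have := (hS e0 h0).1.1.2.1
    rw [(hS e0 h0).2] at this
    exact_mod_cast (by omega)
  have ht : (0 : ℝ) < tt u := by exact_mod_cast tt_pos u
  calc ∑ e ∈ S, e.wt ≤ #S • (K0 * (tt u : ℝ) ^ 2 / u ^ 2) :=
        Finset.sum_le_card_nsmul _ _ _ fun e he =>
          (hS e he).2 ▸ Pr.wt_le (hS e he).1.1 (hS e he).1.2.1
    _ ≤ (max C 0 * u / (tt u : ℝ) ^ 4) * (K0 * (tt u : ℝ) ^ 2 / u ^ 2) := by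
        rw [nsmul_eq_mul]
        gcongr
        exact h1.trans (by gcongr; exact le_max_left _ _)
    _ = _ := by field_simp

end Ctx

end Pool.Agent.P.MP_a1177c_nt.Sign
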