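import Pool.Agent.P.MP_a1177c_nt.Sign.Form

/-!
# A vertex with odd norm and arbitrarily small angle
-/

namespace Pool.Agent.P.MP_a1177c_nt.Sign

open Finset

theorem hensel (Q : ℕ) (n : ℤ) (h : (8 * Q : ℤ) ∣ 1 - n) (j : ℕ) :
    ∃ s : ℤ, (8 * Q ^ (j + 1) : ℤ) ∣ s ^ 2 - n ∧ (Q : ℤ) ∣ s - 1 := by
  induction j with
  | zero => exact ⟨1, by simpa using h, by simp⟩
  | succ j ih =>
    obtain ⟨s, ⟨t, ht⟩, ⟨w, hw⟩⟩ := ih
    refine ⟨s - 4 * Q ^ (j + 1) * t, ⟨-t * w + 2 * Q ^ j * t ^ 2, ?_⟩, ⟨w - 4 * Q ^ j * t, ?_⟩⟩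
    · have : s = 1 + Q * w := by linarith
      subst this
      linear_combination ht
    · linear_combination hw

theorem Qpart (A Q j : ℕ) (G B : ℤ) (hG : G ≠ 0) (hj : G.natAbs ≤ j) (hA : A ≠ 0)
    (h : (Q : ℤ) ^ j ∣ A * B - G) : ∃ A1 A2, A = A1 * A2 ∧ A1 ∣ Q ^ j ∧ A2.Coprime Q := by
  obtain ⟨A2, hA2⟩ := Nat.gcd_dvd_left A (Q ^ j)
  obtain ⟨E, hE⟩ := Nat.gcd_dvd_right A (Q ^ j)
  have h0 : 0 < Nat.gcd A (Q ^ j) := Nat.gcd_pos_of_pos_left _ (Nat.pos_of_ne_zero hA)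
  refine ⟨_, A2, hA2, Nat.gcd_dvd_right _ _, Nat.coprime_of_dvd fun q hq h1 h2 => ?_⟩
  have h3 : ¬ q ∣ E := by
    intro h3
    have h4 : Nat.gcd A (Q ^ j) * q ∣ Nat.gcd A (Q ^ j) * 1 := by
      rw [mul_one]
      refine Nat.dvd_gcd ?_ ?_
      · conv_rhs => rw [hA2]
        exact Nat.mul_dvd_mul_left _ h1
      · conv_rhs => rw [hE]
        exact Nat.mul_dvd_mul_left _ h3
    exact hq.one_lt.ne' (Nat.dvd_one.1 (Nat.dvd_of_mul_dvd_mul_left h0 h4))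
  have h5 : q ^ j ∣ Q ^ j := pow_dvd_pow_of_dvd h2 j
  have h6 : q ^ j ∣ Nat.gcd A (Q ^ j) :=
    (((Nat.Prime.coprime_iff_not_dvd hq).2 h3).pow_left j).dvd_of_dvd_mul_right (hE ▸ h5)
  have h7 : ((q ^ j : ℕ) : ℤ) ∣ A := Int.natCast_dvd_natCast.2 (h6.trans (Nat.gcd_dvd_left _ _))
  have h8 : ((q ^ j : ℕ) : ℤ) ∣ A * B - G :=
    (Int.natCast_dvd_natCast.2 h5).trans (by exact_mod_cast h)
  have h9 : ((q ^ j : ℕ) : ℤ) ∣ G := by
    have := dvd_sub (h7.mul_right B) h8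
    rwa [sub_sub_cancel] at this
  have h10 := Nat.le_of_dvd (Int.natAbs_pos.2 hG) (Int.natCast_dvd.1 h9)
  have h11 := Nat.lt_pow_self (n := j) hq.one_lt
  omega

theorem dvd_of_sq_dvd {g p B : ℕ} (hp : p.Prime) (hg : 0 < g) (h : g ^ 2 ∣ p * B ^ 2) : g ∣ B := by
  have h0 : 0 < Nat.gcd g B := Nat.gcd_pos_of_pos_left _ hg
  obtain ⟨g', hg'⟩ := Nat.gcd_dvd_left g B
  obtain ⟨B', hB'⟩ := Nat.gcd_dvd_right g B
  have hc := Nat.coprime_div_gcd_div_gcd h0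
  set d := Nat.gcd g B
  rw [show g / d = g' from Nat.div_eq_of_eq_mul_right h0 hg',
    show B / d = B' from Nat.div_eq_of_eq_mul_right h0 hB'] at hc
  have h1 : d ^ 2 * g' ^ 2 ∣ d ^ 2 * (p * B' ^ 2) := by
    rw [← mul_pow, ← hg', mul_left_comm, ← mul_pow, ← hB']; exact h
  have h2 := (hc.pow 2 2).dvd_of_dvd_mul_right
    (Nat.dvd_of_mul_dvd_mul_left (by positivity) h1)
  have h3 := Nat.isUnit_iff.1 (hp.squarefree g' (by rwa [← sq]))
  rw [hg', h3, mul_one, hB']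
  exact Dvd.intro _ rfl

namespace Ctx

variable (F : Ctx)

theorem aniso {X Y : ℤ} (h : X ^ 2 = F.D * Y ^ 2) : Y = 0 := by
  by_contra hY
  apply F.hD
  change IsSquare F.D
  rw [← Rat.isSquare_intCast_iff]
  have hY' : (Y : ℚ) ≠ 0 := by exact_mod_cast hY
  refine ⟨X / Y, ?_⟩
  have h' : (X : ℚ) ^ 2 = F.D * Y ^ 2 := by exact_mod_cast h
  field_simp
  linear_combination -h'

theorem legendre_step : ∃ p X Y m : ℕ, p.Prime ∧ p ≡ 1 [MOD 8 * F.Q] ∧ 0 < m ∧ 0 < Y ∧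
    (X : ℤ) ^ 2 - F.D * Y ^ 2 = p * m ^ 2 := by
  have hQ := F.Q_pos
  obtain ⟨p, hp, -, hp1⟩ := Nat.exists_prime_gt_modEq_one (k := 8 * F.Q) 0 (by omega)
  have := Fact.mk hp
  have hpQ : p ≡ 1 [MOD F.Q] := hp1.of_dvd (Dvd.intro_left _ rfl)
  have hpc : p.Coprime F.Q := coprime_of_modEq hpQ.symm (Nat.coprime_one_left _)
  have hJ : F.J p = 1 := (J_congr hpQ hpc).trans J_one
  obtain ⟨α, hα⟩ := ZMod.isSquare_of_jacobiSym_eq_one hJ
  set D0 := F.D.natAbs with hD0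
  have hD0p : 0 < D0 := Int.natAbs_pos.2 F.D_ne
  have : NeZero D0 := ⟨hD0p.ne'⟩
  have hpD : p.Coprime D0 := hpc.coprime_dvd_right F.D_dvd_Q
  -- pigeonhole
  obtain ⟨X, Y, Z, hne, hX, hY, hZ, h1, h2⟩ : ∃ X Y Z : ℤ, ¬ (X = 0 ∧ Y = 0 ∧ Z = 0) ∧
      X ^ 2 ≤ p * D0 ∧ Y ^ 2 ≤ p ∧ Z ^ 2 ≤ D0 ∧ (X : ZMod p) = α * Y ∧ (X : ZMod D0) = Z := by
    have hcard : #(univ : Finset (ZMod p × ZMod D0)) <
        #(range ((p * D0).sqrt + 1) ×ˢ range (p.sqrt + 1) ×ˢ range (D0.sqrt + 1)) := by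
      simp only [card_univ, Fintype.card_prod, ZMod.card, card_product, card_range]
      have a1 := Nat.lt_succ_sqrt' (p * D0)
      have a2 := Nat.lt_succ_sqrt' p
      have a3 := Nat.lt_succ_sqrt' D0
      refine lt_of_pow_lt_pow_left₀ 2 (Nat.zero_le _) ?_
      calc (p * D0) ^ 2 = (p * D0) * (p * D0) := sq _
        _ < ((p * D0).sqrt + 1) ^ 2 * ((p.sqrt + 1) ^ 2 * (D0.sqrt + 1) ^ 2) :=
          Nat.mul_lt_mul'' a1 (Nat.mul_lt_mul'' a2 a3)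
        _ = _ := by ring
    obtain ⟨⟨x, y, z⟩, hq, ⟨x', y', z'⟩, hq', hne, heq⟩ :=
      Finset.exists_ne_map_eq_of_card_lt_of_maps_to hcard
        (f := fun q => (((q.1 : ZMod p) - α * q.2.1, (q.1 : ZMod D0) - q.2.2) : ZMod p × ZMod D0))
        (fun _ _ => mem_coe.2 (mem_univ _))
    simp only [mem_product, mem_range] at hq hq'
    simp only [Prod.mk.injEq] at heq
    have key : ∀ n u v : ℕ, u < n.sqrt + 1 → v < n.sqrt + 1 → ((u : ℤ) - v) ^ 2 ≤ n := by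
      intro n u v hu hv
      have h1 : ((n.sqrt : ℤ)) ^ 2 ≤ n := by exact_mod_cast Nat.sqrt_le' n
      refine le_trans (sq_le_sq' ?_ ?_) h1 <;> omega
    refine ⟨x - x', y - y', z - z', ?_, ?_, key _ _ _ hq.2.1 hq'.2.1, key _ _ _ hq.2.2 hq'.2.2,
      ?_, ?_⟩
    · rintro ⟨a1, a2, a3⟩
      apply hne
      simp only [Prod.mk.injEq]
      omega
    · exact_mod_cast key _ _ _ hq.1 hq'.1
    · push_cast; linear_combination heq.1
    · push_cast; linear_combination heq.2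
  have hd1 : (p : ℤ) ∣ X ^ 2 - F.D * Y ^ 2 - p * Z ^ 2 := by
    rw [← ZMod.intCast_zmod_eq_zero_iff_dvd]
    push_cast
    rw [h1, hα, ZMod.natCast_self]; ring
  have hd2 : (D0 : ℤ) ∣ X ^ 2 - F.D * Y ^ 2 - p * Z ^ 2 := by
    rw [← ZMod.intCast_zmod_eq_zero_iff_dvd]
    have e1 : ((F.D : ℤ) : ZMod D0) = 0 :=
      (ZMod.intCast_zmod_eq_zero_iff_dvd _ _).2 (Int.natAbs_dvd.2 dvd_rfl)
    have e2 : (p : ZMod D0) = 1 := by
      have := (ZMod.natCast_eq_natCast_iff _ _ _).2 (hpQ.of_dvd F.D_dvd_Q)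
      simpa using this
    push_cast
    rw [h2, e1, e2]; ring
  obtain ⟨w, hw⟩ := (Nat.isCoprime_iff_coprime.2 hpD).mul_dvd hd1 hd2
  have hp0 : (0 : ℤ) < p := by exact_mod_cast hp.pos
  have hD0' : (0 : ℤ) < D0 := by exact_mod_cast hD0p
  have hYp : Y ^ 2 ≠ p := by
    intro h
    have h3 : Y.natAbs * Y.natAbs = p := by
      have := congrArg Int.natAbs h
      simpa [sq, Int.natAbs_mul] using this
    have h4 := Nat.isUnit_iff.1 (hp.squarefree _ h3.dvd)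
    rw [h4] at h3
    exact hp.one_lt.ne h3
  have hYp' : Y ^ 2 < p := lt_of_le_of_ne hY hYp
  have hXp : X ^ 2 ≠ p * D0 := by
    intro h
    have h3 : (p : ℤ) ∣ X := Int.Prime.dvd_pow' hp ⟨_, h⟩
    obtain ⟨x, rfl⟩ := h3
    have h4 : (p : ℤ) ∣ D0 := ⟨x ^ 2, by
      apply mul_left_cancel₀ hp0.ne'
      linear_combination -h⟩
    exact hp.one_lt.ne' (Nat.eq_one_of_dvd_coprimes hpD dvd_rfl (by exact_mod_cast h4))
  have hXp' : X ^ 2 < p * D0 := lt_of_le_of_ne hX hXp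
  have hX0 := sq_nonneg X
  have hY0 := sq_nonneg Y
  have hZ0 := sq_nonneg Z
  have hpD0 : (0 : ℤ) < p * D0 := by positivity
  have hcase : X ^ 2 - F.D * Y ^ 2 = p * Z ^ 2 ∨ X ^ 2 - F.D * Y ^ 2 = p * (Z ^ 2 - F.D) := by
    rcases Int.natAbs_eq F.D with hD | hD
    · rw [← hD0] at hD
      have a1 : p * D0 * w < p * D0 * 1 := by rw [← hw, hD]; nlinarith
      have a2 : p * D0 * (-2) < p * D0 * w := by rw [← hw, hD]; nlinarith
      have a3 := lt_of_mul_lt_mul_left a1 hpD0.le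
      have a4 := lt_of_mul_lt_mul_left a2 hpD0.le
      have : w = 0 ∨ w = -1 := by omega
      rcases this with rfl | rfl
      · left; linear_combination hw
      · right; rw [hD] at hw ⊢; linear_combination hw
    · rw [← hD0] at hD
      have a1 : p * D0 * w < p * D0 * 2 := by rw [← hw, hD]; nlinarith
      have a2 : p * D0 * (-1) ≤ p * D0 * w := by rw [← hw, hD]; nlinarith
      have a3 := lt_of_mul_lt_mul_left a1 hpD0.le
      have a4 := le_of_mul_le_mul_left a2 hpD0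
      have : w = 0 ∨ w = 1 ∨ w = -1 := by omega
      rcases this with rfl | rfl | rfl
      · left; linear_combination hw
      · right; rw [hD] at hw ⊢; linear_combination hw
      · exfalso
        rw [hD] at hw
        have b1 : X ^ 2 = 0 := by nlinarith
        have b2 : Z ^ 2 = D0 := by nlinarith
        have b3 : X = 0 := pow_eq_zero_iff (two_ne_zero) |>.1 b1
        have b4 : (D0 : ℤ) ∣ Z := by
          rw [← ZMod.intCast_zmod_eq_zero_iff_dvd, ← h2, b3]; simp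
        obtain ⟨z, rfl⟩ := b4
        have b5 : (D0 : ℤ) * z ^ 2 = 1 := by
          apply mul_left_cancel₀ hD0'.ne'
          linear_combination b2
        have b6 : (D0 : ℤ) = 1 := Int.eq_one_of_mul_eq_one_right hD0'.le b5
        have b7 : (F.b : ℤ) ^ 2 - 4 * F.a * F.c = -1 := by
          change F.D = -1; rw [hD, b6]
        have b8 : ((F.b : ℤ) ^ 2) % 4 = 0 ∨ ((F.b : ℤ) ^ 2) % 4 = 1 := by
          rcases Int.emod_two_eq_zero_or_one (F.b : ℤ) with h | h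
          · left
            obtain ⟨w, hw⟩ := Int.even_iff.2 h
            rw [hw, show (w + w) ^ 2 = 4 * w ^ 2 by ring, Int.mul_emod_right]
          · right; exact Int.sq_mod_four_eq_one_of_odd (Int.odd_iff.2 h)
        have b9 : (4 : ℤ) * F.a * F.c = 4 * (F.a * F.c) := by ring
        omega
  obtain ⟨X1, Y1, m, hm, hXY⟩ : ∃ X1 Y1 m : ℤ, m ≠ 0 ∧ X1 ^ 2 - F.D * Y1 ^ 2 = p * m ^ 2 := by
    rcases hcase with h | h
    · refine ⟨X, Y, Z, fun hZ0 => hne ?_, h⟩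
      rw [hZ0] at h
      have h3 := F.aniso (X := X) (Y := Y) (by linear_combination h)
      rw [h3] at h
      exact ⟨pow_eq_zero_iff (two_ne_zero) |>.1 (by linear_combination h), h3, hZ0⟩
    · refine ⟨X * Z + F.D * Y, X + Y * Z, Z ^ 2 - F.D, fun h0 => ?_, ?_⟩
      · exact one_ne_zero (F.aniso (X := Z) (Y := 1) (by linear_combination h0))
      · linear_combination (Z ^ 2 - F.D) * h
  refine ⟨p, X1.natAbs, Y1.natAbs, m.natAbs, hp, hp1, Int.natAbs_pos.2 hm,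
    Int.natAbs_pos.2 fun h0 => ?_, by simpa only [Int.natCast_natAbs, sq_abs] using hXY⟩
  rw [h0] at hXY
  have h3 : X1.natAbs ^ 2 = p * m.natAbs ^ 2 := by
    have : X1 ^ 2 = p * m ^ 2 := by linear_combination hXY
    have := congrArg Int.natAbs this
    simpa [Int.natAbs_mul, Int.natAbs_pow] using this
  have h4 : m.natAbs ≠ 0 := Int.natAbs_ne_zero.2 hm
  have h5 : X1.natAbs ≠ 0 := by
    intro h5
    rw [h5] at h3
    exact mul_ne_zero hp.ne_zero (pow_ne_zero 2 h4) (by simpa using h3.symm)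
  have h6 := lam_sq h5
  rw [h3, lam_mul hp.ne_zero (pow_ne_zero 2 h4), lam_sq h4, lam_prime hp] at h6
  norm_num at h6

theorem exists_beta (K1 : ℕ) :
    ∃ p0 q0 : ℕ, F.IsV 1 p0 q0 ∧ K1 * q0 ≤ p0 ∧ lam (F.N p0 q0) = -1 := by
  obtain ⟨p, X, Y, m, hp, hp1, hm, hY, hXY⟩ := F.legendre_step
  have hQ := F.Q_pos
  have hp0 := hp.pos
  set G : ℤ := p * m ^ 2 * F.D * (4 * Y ^ 2) with hG
  have hG0 : G ≠ 0 := by
    have := F.D_ne
    rw [hG]; positivity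
  set j := G.natAbs with hj
  obtain ⟨sp, hsp1, hsp2⟩ := hensel F.Q p (by exact_mod_cast hp1.dvd) j
  set R := 8 * F.Q ^ (j + 1) with hR
  have hR0 : 0 < R := by positivity
  have hsp1' : (R : ℤ) ∣ sp ^ 2 - p := by exact_mod_cast hsp1
  obtain ⟨l, hl⟩ : ∃ l, l = R * Y * (F.b + 2 * K1) := ⟨_, rfl⟩
  obtain ⟨q, hq⟩ : ∃ q, q = 1 + R * l := ⟨_, rfl⟩
  set S := (q ^ 2 * (p * m ^ 2)).sqrt with hS
  obtain ⟨s, hs1, hs2, h, hh⟩ : ∃ s : ℕ, S + 1 ≤ s ∧ s ≤ S + R ∧ ∃ h : ℤ, s = m * sp + R * h := by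
    have hR' : (0 : ℤ) < R := by exact_mod_cast hR0
    have a1 := Int.emod_nonneg (m * sp - S - 1) hR'.ne'
    have a2 := Int.emod_lt_of_pos (m * sp - S - 1) hR'
    have a3 := Int.emod_add_mul_ediv (m * sp - S - 1) R
    obtain ⟨r, hr⟩ := Int.eq_ofNat_of_zero_le a1
    rw [hr] at a2 a3
    refine ⟨S + 1 + r, by omega, by omega, -((m * sp - S - 1) / R), ?_⟩
    push_cast; linear_combination a3
  have hS1 : S ^ 2 ≤ q ^ 2 * (p * m ^ 2) := Nat.sqrt_le' _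
  have hS2 : q ^ 2 * (p * m ^ 2) < (S + 1) ^ 2 := Nat.lt_succ_sqrt' _
  obtain ⟨δ, hδ⟩ : ∃ δ, s ^ 2 = q ^ 2 * (p * m ^ 2) + δ :=
    Nat.exists_eq_add_of_le (hS2.le.trans (by gcongr))
  have hδ1 : δ ≤ 2 * R ^ 2 * (S + 1) := by
    have a1 : s ^ 2 ≤ (S + R) ^ 2 := by gcongr
    have a2 : R ≤ R ^ 2 := Nat.le_self_pow (by norm_num) R
    nlinarith
  have hδ' : (δ : ℤ) = s ^ 2 - q ^ 2 * (p * m ^ 2) := by
    have : (s : ℤ) ^ 2 = q ^ 2 * (p * m ^ 2) + δ := by exact_mod_cast hδ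
    linarith
  have hq' : (q : ℤ) = 1 + R * l := by exact_mod_cast hq
  obtain ⟨t, ht⟩ := hsp1'
  have hRδ : R ∣ δ := by
    rw [← Int.natCast_dvd_natCast, hδ', hh, hq']
    exact ⟨m ^ 2 * t + 2 * m * sp * h + R * h ^ 2 - (2 * l + R * l ^ 2) * (p * m ^ 2), by
      linear_combination m ^ 2 * ht⟩
  obtain ⟨W, hW⟩ : ∃ W, W = 2 * q * X + 2 * s := ⟨_, rfl⟩
  obtain ⟨A, hA⟩ : ∃ A, A = q * p * (m ^ 2 * W) := ⟨_, rfl⟩
  have hq0 : 0 < q := by omega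
  have hW0 : 2 * (S + 1) ≤ W := by omega
  have hA1 : 2 * q * (S + 1) ≤ A := by
    calc 2 * q * (S + 1) = q * 1 * (1 * (2 * (S + 1))) := by ring
      _ ≤ q * p * (m ^ 2 * W) := by
        gcongr
        · exact hp0
        · exact Nat.one_le_pow _ _ hm
      _ = A := hA.symm
  have hA0 : A ≠ 0 := by
    have : 0 < 2 * q * (S + 1) := by positivity
    omega
  obtain ⟨δ0, hδ0⟩ := hRδ
  have hδ0' : (δ : ℤ) = R * δ0 := by exact_mod_cast hδ0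
  obtain ⟨A1, A2, hA12, hA1d, hA2⟩ := Qpart A F.Q j G (2 * q * X - 2 * s) hG0 le_rfl hA0 (by
    have h1 : (F.Q : ℤ) ^ j ∣ R := ⟨8 * F.Q, by rw [hR]; push_cast; ring⟩
    refine h1.trans ⟨(3 * l + 3 * R * l ^ 2 + R ^ 2 * l ^ 3) * G - 4 * q * p * m ^ 2 * δ0, ?_⟩
    have h2 : (A : ℤ) * (2 * q * X - 2 * s) = q ^ 3 * G - 4 * q * p * m ^ 2 * δ := by
      rw [hA, hW, hδ', hG]; push_cast
      linear_combination (4 * q ^ 3 * p * m ^ 2 : ℤ) * hXY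
    rw [h2, hδ0']
    have h3 : (q : ℤ) ^ 3 = (1 + R * l) ^ 3 := by rw [hq']
    rw [h3]; ring)
  have hA10 : 0 < A1 := Nat.pos_of_ne_zero (left_ne_zero_of_mul (hA12 ▸ hA0))
  obtain ⟨E, hE⟩ : A1 * F.Q ∣ R := by
    rw [hR, pow_succ]
    exact Dvd.dvd.mul_left (Nat.mul_dvd_mul_right hA1d _) _
  have hbig : δ * Y * (F.b + 2 * K1) ≤ A := by
    calc δ * Y * (F.b + 2 * K1) ≤ 2 * R ^ 2 * (S + 1) * Y * (F.b + 2 * K1) := by gcongr
      _ = 2 * (R * l) * (S + 1) := by rw [hl]; ring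
      _ ≤ 2 * q * (S + 1) := by gcongr; omega
      _ ≤ A := hA1
  have hbig2 : F.Q * E * δ0 * Y * (F.b + 2 * K1) ≤ A2 := by
    refine Nat.le_of_mul_le_mul_left ?_ hA10
    rw [← hA12]
    refine le_trans (le_of_eq ?_) hbig
    rw [hδ0, hE]; ring
  obtain ⟨y, hy⟩ : ∃ y, y = F.Q * E * δ0 * (2 * Y) := ⟨_, rfl⟩
  have hbig3 : F.Q * E * δ0 * F.b * Y + K1 * y ≤ A2 :=
    le_trans (le_of_eq (by rw [hy]; ring)) hbig2
  obtain ⟨x, hx⟩ : ∃ x, A2 + F.Q * E * δ0 * X = F.Q * E * δ0 * F.b * Y + x :=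
    Nat.exists_eq_add_of_le (by omega)
  have hxy : K1 * y ≤ x := by omega
  have hxQ : A2 ≡ x [MOD F.Q] := by
    have h1 : A2 + F.Q * (E * δ0 * X) = x + F.Q * (E * δ0 * F.b * Y) := by linarith
    have h2 : (A2 + F.Q * (E * δ0 * X)) % F.Q = (x + F.Q * (E * δ0 * F.b * Y)) % F.Q := by rw [h1]
    simp only [Nat.add_mul_mod_self_left] at h2
    exact h2
  have hxc : x.Coprime F.Q := coprime_of_modEq hxQ hA2
  obtain ⟨Nγ, hNγ⟩ : ∃ Nγ, Nγ = q ^ 2 * (p * m ^ 2) + 2 * q * s * X + s ^ 2 := ⟨_, rfl⟩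
  have hqp : q * p ≡ 1 [MOD F.Q] := by
    have h1 : q ≡ 1 [MOD F.Q] := by
      rw [hq, hE]
      exact ((Nat.modEq_iff_dvd' (Nat.le_add_right _ _)).2 ⟨A1 * E * l, by
        rw [Nat.add_sub_cancel_left]; ring⟩).symm
    simpa using h1.mul (hp1.of_dvd (Dvd.intro_left _ rfl))
  obtain ⟨V, hV⟩ : A1 ∣ m ^ 2 * W := by
    have h1 : (q * p).Coprime A1 := ((coprime_of_modEq hqp.symm
      (Nat.coprime_one_left _)).pow_right j).coprime_dvd_right hA1d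
    exact h1.symm.dvd_of_dvd_mul_left ⟨A2, by rw [← hA, hA12]⟩
  obtain ⟨z, hz⟩ : ∃ z : ℤ, (m * Nγ : ℤ) = A1 * (A2 + F.Q * z) := by
    obtain ⟨w1, hw1⟩ := hsp2
    obtain ⟨w2, hw2⟩ := hqp.dvd
    refine ⟨V * (w1 + w2) + E * h * m * W - m * E * δ0, ?_⟩
    have e1 : (m * Nγ : ℤ) = m * s * W - m * δ := by rw [hNγ, hW, hδ']; push_cast; ring
    have e2 : (A1 * A2 : ℤ) = q * p * (m ^ 2 * W) := by exact_mod_cast hA12.symm.trans hA
    have e3 : (m ^ 2 * W : ℤ) = A1 * V := by exact_mod_cast hV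
    have e4 : (R : ℤ) = A1 * F.Q * E := by exact_mod_cast hE
    push_cast at hw2
    rw [e1, hδ0', hh, mul_add (A1 : ℤ), e2, e4]
    linear_combination (sp - q * p : ℤ) * e3 + (A1 * V : ℤ) * hw1 + (A1 * V : ℤ) * hw2
  obtain ⟨B, hB⟩ : A1 ∣ m * Nγ := by
    rw [← Int.natCast_dvd_natCast]; push_cast; exact ⟨_, hz⟩
  have hB' : (B : ℤ) = A2 + F.Q * z := by
    have h1 : (A1 : ℤ) ≠ 0 := by exact_mod_cast hA10.ne'
    apply mul_left_cancel₀ h1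
    rw [← hz]; exact_mod_cast hB.symm
  have hBQ : A2 ≡ B [MOD F.Q] := (Nat.modEq_iff_dvd).2 ⟨z, by rw [hB']; ring⟩
  have hN : F.N x y = p * B ^ 2 := by
    apply Nat.eq_of_mul_eq_mul_left (pow_pos hA10 2)
    have e1 : A1 ^ 2 * F.N x y = F.N (A1 * x) (A1 * y) := by unfold N; ring
    have e2 : A1 ^ 2 * (p * B ^ 2) = p * m ^ 2 * Nγ ^ 2 := by
      calc _ = p * (A1 * B) ^ 2 := by ring
        _ = _ := by rw [← hB]; ring
    have e3 : ((A1 * x : ℕ) : ℤ) = q * (p * m ^ 2) * W + δ * (X - F.b * Y) := by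
      have a1 : (A2 : ℤ) + F.Q * E * δ0 * X = F.Q * E * δ0 * F.b * Y + x := by exact_mod_cast hx
      have a2 : (A1 * A2 : ℤ) = q * p * (m ^ 2 * W) := by exact_mod_cast hA12.symm.trans hA
      have a3 : (R : ℤ) = A1 * F.Q * E := by exact_mod_cast hE
      rw [hδ0', a3]; push_cast
      linear_combination (-A1 : ℤ) * a1 + a2
    have e4 : ((A1 * y : ℕ) : ℤ) = δ * (2 * Y) := by
      rw [hy, hδ0, hE]; push_cast; ring
    rw [e1, e2]
    zify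
    unfold N
    push_cast at e3 e4 ⊢
    rw [e3, e4, hδ', hW, hNγ]
    push_cast
    rw [← hXY]
    unfold D
    ring
  have hg : 0 < Nat.gcd x y :=
    Nat.gcd_pos_of_pos_left _ (Nat.pos_of_ne_zero (ne_zero_of_coprime hxc))
  obtain ⟨p0, hp0'⟩ := Nat.gcd_dvd_left x y
  obtain ⟨q0, hq0'⟩ := Nat.gcd_dvd_right x y
  have hc := Nat.coprime_div_gcd_div_gcd hg
  have hgQ : (Nat.gcd x y).Coprime F.Q := hxc.coprime_dvd_left (Nat.gcd_dvd_left _ _)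
  set g := Nat.gcd x y
  rw [show x / g = p0 from Nat.div_eq_of_eq_mul_right hg hp0',
    show y / g = q0 from Nat.div_eq_of_eq_mul_right hg hq0'] at hc
  have hNg : g ^ 2 * F.N p0 q0 = p * B ^ 2 := by rw [← hN, hp0', hq0']; unfold N; ring
  obtain ⟨m', hm'⟩ := dvd_of_sq_dvd hp hg ⟨_, hNg.symm⟩
  have hN0 : F.N p0 q0 = p * m' ^ 2 := by
    apply Nat.eq_of_mul_eq_mul_left (pow_pos hg 2)
    rw [hNg, hm']; ring
  have hp0Q : p0.Coprime F.Q := hxc.coprime_dvd_left ⟨g, by rw [hp0', mul_comm]⟩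
  have hq0Q : F.Q ∣ q0 := hgQ.symm.dvd_of_dvd_mul_left ⟨E * δ0 * (2 * Y), by
    rw [← hq0', hy]; ring⟩
  have hpm : p0 ≡ m' [MOD F.Q] := by
    refine Nat.ModEq.cancel_left_of_coprime hgQ.symm ?_
    rw [← hp0', ← hm']
    exact hxQ.symm.trans hBQ
  have hm'Q : m'.Coprime F.Q := coprime_of_modEq hpm hp0Q
  have hm'0 : m' ≠ 0 := ne_zero_of_coprime hm'Q
  refine ⟨p0, q0, ⟨hc, hq0Q, hp0Q, ?_⟩, ?_, ?_⟩
  · rw [J_congr hpm hp0Q]
    refine J_of_primes hm'0 fun r hr hrm => J_prime hr (hm'Q.coprime_dvd_left hrm) hc ?_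
    rw [hN0]
    exact Dvd.dvd.mul_left (hrm.trans (dvd_pow_self _ two_ne_zero)) _
  · refine Nat.le_of_mul_le_mul_left ?_ hg
    rw [← hp0', mul_left_comm, ← hq0']; exact hxy
  · rw [hN0, lam_mul hp.ne_zero (pow_ne_zero 2 hm'0), lam_sq hm'0, lam_prime hp]; rfl

end Ctx

end Pool.Agent.P.MP_a1177c_nt.Sign
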