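import Pool.Agent.P.MP_a1177c_nt.Sign.Pair

/-!
# Summation lemmas, the descent and the chain
-/

namespace Pool.Agent.P.MP_a1177c_nt.Sign

open Finset Filter Topology

open Classical in
/-- `r` if `P` holds, and `0` otherwise. -/
noncomputable def ind (P : Prop) (r : ℝ) : ℝ := if P then r else 0

theorem ind_pos {P : Prop} (h : P) (r : ℝ) : ind P r = r := if_pos h
theorem ind_neg {P : Prop} (h : ¬ P) (r : ℝ) : ind P r = 0 := if_neg h

theorem ind_nonneg (P : Prop) {r : ℝ} (h : 0 ≤ r) : 0 ≤ ind P r := by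
  by_cases hP : P
  · rwa [ind_pos hP]
  · rw [ind_neg hP]

theorem ind_le (P : Prop) {r : ℝ} (h : 0 ≤ r) : ind P r ≤ r := by
  by_cases hP : P
  · rw [ind_pos hP]
  · rwa [ind_neg hP]

theorem summable_ind {α : Type*} {h : α → ℝ} (hs : Summable h) (h0 : ∀ e, 0 ≤ h e) (P : α → Prop) :
    Summable fun e => ind (P e) (h e) :=
  Summable.of_nonneg_of_le (fun e => ind_nonneg _ (h0 e)) (fun e => ind_le _ (h0 e)) hs

theorem sum_le_tsum_rel {α β : Type*} [Nonempty β] (h : α → ℝ) (g : β → ℝ) (R : α → β → Prop)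
    (hg : Summable g) (hg0 : ∀ n, 0 ≤ g n)
    (hR : ∀ n (S : Finset α), (∀ e ∈ S, R e n) → ∑ e ∈ S, h e ≤ g n) (S : Finset α)
    (hS : ∀ e ∈ S, ∃ n, R e n) : ∑ e ∈ S, h e ≤ ∑' n, g n := by
  classical
  choose! φ hφ using hS
  rw [← Finset.sum_fiberwise_of_maps_to (g := φ) (t := S.image φ)
    fun e he => mem_image_of_mem φ he]
  refine le_trans (Finset.sum_le_sum fun n _ => hR n _ fun e he => ?_)
    (hg.sum_le_tsum _ fun n _ => hg0 n)
  rw [mem_filter] at he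
  exact he.2 ▸ hφ e he.1

theorem summable_rel {α β : Type*} [Nonempty β] (h : α → ℝ) (h0 : ∀ e, 0 ≤ h e) (g : β → ℝ)
    (P : α → Prop) (R : α → β → Prop) (hg : Summable g) (hg0 : ∀ n, 0 ≤ g n)
    (hR : ∀ n (S : Finset α), (∀ e ∈ S, R e n) → ∑ e ∈ S, h e ≤ g n)
    (hP : ∀ e, P e → ∃ n, R e n) :
    Summable (fun e => ind (P e) (h e)) ∧ ∑' e, ind (P e) (h e) ≤ ∑' n, g n := by
  classical
  have h1 : ∀ S : Finset α, ∑ e ∈ S, ind (P e) (h e) ≤ ∑' n, g n := fun S => by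
    unfold ind
    rw [← Finset.sum_filter]
    exact sum_le_tsum_rel h g R hg hg0 hR _ fun e he => hP e (mem_filter.1 he).2
  have h2 : 0 ≤ fun e => ind (P e) (h e) := fun e => ind_nonneg _ (h0 e)
  exact ⟨summable_of_sum_le h2 h1, Real.tsum_le_of_sum_le h2 h1⟩

theorem summable_tt : Summable fun y : ℕ => 1 / ((y : ℝ) * (tt y : ℝ) ^ 2) := by
  refine (summable_condensed_iff_of_nonneg (fun n => by positivity) fun m n hm hmn => ?_).1 ?_
  · have := tt_pos m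
    have := tt_mono hmn
    gcongr
  · have h := (summable_nat_add_iff 1).2 (Real.summable_one_div_nat_pow.2 one_lt_two)
    refine h.congr fun k => ?_
    simp only [tt, Nat.log_pow one_lt_two]
    push_cast
    field_simp

theorem card_le_of_diam (T : Finset ℕ) {D : ℝ} (hD : 0 ≤ D)
    (h : ∀ a ∈ T, ∀ b ∈ T, (b : ℝ) ≤ a + D) : (#T : ℝ) ≤ D + 1 := by
  rcases T.eq_empty_or_nonempty with rfl | hT
  · simp; linarith
  · have h1 : T ⊆ Icc (T.min' hT) (T.min' hT + ⌊D⌋₊) := fun b hb => by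
      refine mem_Icc.2 ⟨T.min'_le b hb, ?_⟩
      rw [add_comm, ← Nat.floor_add_natCast hD]
      exact Nat.le_floor (by linarith [h _ (T.min'_mem hT) b hb])
    have h2 := Finset.card_le_card h1
    rw [Nat.card_Icc] at h2
    have h3 : (#T : ℝ) ≤ (⌊D⌋₊ + 1 : ℕ) := by exact_mod_cast (by omega)
    push_cast at h3
    linarith [Nat.floor_le hD]

namespace Pr

/-- Balanced pairs. -/
def Bal (K0 : ℕ) (e : Pr) : Prop := e.u < K0 * e.y * tt e.y ^ 2

/-- Pairs which have just become unbalanced. -/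
def FU (K0 : ℕ) (e : Pr) : Prop :=
  K0 * e.y * tt e.y ^ 2 ≤ e.u ∧ e.u < K0 * e.y * tt e.y ^ 2 + e.y

theorem bal_child {K0 : ℕ} (hK : 2 ≤ K0) {e : Pr} (hv : e.Valid) (h : e.Bal K0) :
    (¬ e.cL.FU K0 → e.cL.Bal K0) ∧ e.cR.Bal K0 := by
  constructor
  · unfold FU Bal at *
    simp only [cL]
    omega
  · unfold Bal
    simp only [cR]
    have h1 := hv.2.1
    have h2 : 2 * e.u * 1 ^ 2 ≤ K0 * e.u * tt e.u ^ 2 := by gcongr; exact tt_pos _
    omega

theorem sum_FU {K0 : ℕ} (hK : 1 ≤ K0) (y : ℕ) (S : Finset Pr)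
    (h : ∀ e ∈ S, e.Valid ∧ e.FU K0 ∧ e.y = y) :
    ∑ e ∈ S, e.wt ≤ 2 / K0 * (1 / ((y : ℝ) * (tt y : ℝ) ^ 2)) := by
  rcases S.eq_empty_or_nonempty with rfl | ⟨e0, he0⟩
  · simp only [sum_empty]; positivity
  have hy : 1 ≤ y := (h e0 he0).2.2 ▸ (h e0 he0).1.1
  have h1 : #S ≤ #(range y ×ˢ ({1, -1} : Finset ℤ)) := by
    refine Finset.card_le_card_of_forall_subsingleton
      (fun e q => e.x = q.1 ∧ (e.x * e.u : ℤ) = e.y * e.z + q.2) (fun e he => ?_) ?_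
    · obtain ⟨a1, -, a2⟩ := h e he
      have a3 : e.x ∈ range y := mem_range.2 (a2 ▸ a1.2.2.1)
      rcases a1.2.2.2.2 with b | b
      · exact ⟨(e.x, 1), by simp [mem_range.1 a3], rfl, by dsimp only; exact_mod_cast b⟩
      · refine ⟨(e.x, -1), by simp [mem_range.1 a3], rfl, ?_⟩
        have : (e.y * e.z : ℤ) = e.x * e.u + 1 := by exact_mod_cast b
        linarith
    · rintro ⟨x, δ⟩ _ e ⟨he, a1, a2⟩ e' ⟨he', b1, b2⟩
      obtain ⟨c1, c2, c3⟩ := h e he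
      obtain ⟨d1, d2, d3⟩ := h e' he'
      simp only at a1 a2 b1 b2
      have hc : IsCoprime (y : ℤ) (x : ℤ) := by
        have := c1.coprime (i := 1) (j := 0) (by simp)
        simp only [X, Y, one_mul, zero_mul, add_zero, a1, c3] at this
        exact Nat.isCoprime_iff_coprime.2 this.symm
      rw [a1, c3] at a2
      rw [b1, d3] at b2
      have h2 : (y : ℤ) ∣ e.u - e'.u :=
        hc.dvd_of_dvd_mul_left ⟨e.z - e'.z, by linear_combination a2 - b2⟩
      unfold FU at c2 d2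
      rw [c3] at c2
      rw [d3] at d2
      have h3 : (e.u : ℤ) - e'.u = 0 := Int.eq_zero_of_abs_lt_dvd h2 (abs_lt.2 ⟨by omega, by omega⟩)
      have h4 : e.u = e'.u := by omega
      rw [h4] at a2
      have h5 : (y : ℤ) * e.z = y * e'.z := by linarith
      have h6 := mul_left_cancel₀ (by omega) h5
      exact ext' (a1.trans b1.symm) (c3.trans d3.symm) (by omega) h4
  rw [card_product, card_range] at h1
  have h2 : (#S : ℝ) ≤ y * 2 := by exact_mod_cast h1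
  have ht : (0 : ℝ) < tt y := by exact_mod_cast tt_pos y
  have hy' : (0 : ℝ) < y := by exact_mod_cast hy
  have hK' : (0 : ℝ) < K0 := by exact_mod_cast hK
  calc ∑ e ∈ S, e.wt ≤ #S • (1 / ((y : ℝ) * (K0 * y * (tt y : ℝ) ^ 2))) := by
        refine Finset.sum_le_card_nsmul _ _ _ fun e he => ?_
        obtain ⟨-, ⟨a1, -⟩, a2⟩ := h e he
        unfold wt
        rw [a2] at a1 ⊢
        have : (K0 * y * (tt y : ℝ) ^ 2) ≤ e.u := by exact_mod_cast a1
        gcongr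
    _ ≤ (y * 2) * (1 / ((y : ℝ) * (K0 * y * (tt y : ℝ) ^ 2))) := by
        rw [nsmul_eq_mul]; gcongr
    _ = _ := by field_simp

theorem descent (h : Pr → ℝ) (hs : Summable h) (h0 : ∀ e, 0 ≤ h e)
    (hv : ∀ e, ¬ e.Valid → h e = 0) (P : Pr → Prop) (ε : ℝ) (hε : ε < 1)
    (hP : ∀ e, e.Valid → P e → (h e.cL < e.cL.wt → P e.cL) ∧ (h e.cR < e.cR.wt → P e.cR))
    (hroot : P ⟨0, 1, 1, 2⟩) (hr : ∑' e, h e ≤ ε / 2) (U : ℕ) :
    ∃ e : Pr, e.Valid ∧ P e ∧ U ≤ e.u ∧ ∑' e', ind (e.Sub e') (h e') ≤ ε * e.wt := by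
  have hle : ∀ e e' : Pr, ind (e.Sub e') (h e') ≤ h e' := fun e e' => ind_le _ (h0 e')
  have hnn : ∀ e e' : Pr, 0 ≤ ind (e.Sub e') (h e') := fun e e' => ind_nonneg _ (h0 e')
  have hsum : ∀ e : Pr, Summable fun e' => ind (e.Sub e') (h e') := fun e =>
    Summable.of_nonneg_of_le (hnn e) (hle e) hs
  have hself : ∀ e : Pr, e.Valid → ∑' e', ind (e.Sub e') (h e') ≤ ε * e.wt →
      h e < e.wt := fun e he h1 => by
    have h2 := (hsum e).le_tsum e fun j _ => hnn e j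
    rw [ind_pos (sub_refl e)] at h2
    have h3 : 0 < e.wt := by
      have a1 : (0 : ℝ) < e.y := by exact_mod_cast he.1
      have a2 : (0 : ℝ) < e.u := by exact_mod_cast he.1.trans he.2.1.le
      unfold wt; positivity
    nlinarith
  induction U with
  | zero =>
    refine ⟨⟨0, 1, 1, 2⟩, by simp [Valid], hroot, Nat.zero_le _, ?_⟩
    refine ((hsum _).tsum_le_tsum (hle _) hs).trans (hr.trans (le_of_eq ?_))
    simp [wt]; ring
  | succ U ih =>
    obtain ⟨e, h1, h2, h3, h4⟩ := ih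
    have h5 : ∑' e', ind (e.cL.Sub e') (h e') + ∑' e', ind (e.cR.Sub e') (h e')
        ≤ ∑' e', ind (e.Sub e') (h e') := by
      rw [← (hsum _).tsum_add (hsum _)]
      refine ((hsum _).add (hsum _)).tsum_le_tsum (fun e' => ?_) (hsum _)
      by_cases a1 : e'.Valid
      · by_cases a2 : e.cL.Sub e'
        · rw [ind_pos a2, ind_neg (h1.not_both a1 a2), ind_pos a2.cL, add_zero]
        · rw [ind_neg a2, zero_add]
          by_cases a3 : e.cR.Sub e'
          · rw [ind_pos a3, ind_pos a3.cR]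
          · rw [ind_neg a3]; exact hnn e e'
      · simp [hv e' a1, ind]
    have h6 : e.cL.wt + e.cR.wt = e.wt := by
      have a1 : (0 : ℝ) < e.y := by exact_mod_cast h1.1
      have a2 : (0 : ℝ) < e.u := by exact_mod_cast h1.1.trans h1.2.1.le
      simp only [wt, cL, cR]
      push_cast
      field_simp
      ring
    have hy := h1.1
    by_cases h7 : ∑' e', ind (e.cL.Sub e') (h e') ≤ ε * e.cL.wt
    · exact ⟨e.cL, h1.cL, (hP e h1 h2).1 (hself _ h1.cL h7), by simp only [cL]; omega, h7⟩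
    · have h8 : ∑' e', ind (e.cR.Sub e') (h e') ≤ ε * e.cR.wt := by
        rw [← h6, mul_add] at h4
        linarith
      exact ⟨e.cR, h1.cR, (hP e h1 h2).2 (hself _ h1.cR h8), by simp only [cR]; omega, h8⟩

end Pr

namespace Ctx

variable {F : Ctx}

variable (F) in
/-- All vertices with bounded coefficients in the same class have the same sign. -/
def Good (e : Pr) : Prop :=
  ∀ (s : ℤ) (i j i' j' : ℕ), i ≤ 2 * F.Q ^ 2 → 1 ≤ j → j ≤ 2 * F.Q ^ 2 → i' ≤ 2 * F.Q ^ 2 →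
    1 ≤ j' → j' ≤ 2 * F.Q ^ 2 → F.IsV s (e.X i j) (e.Y i j) → F.IsV s (e.X i' j') (e.Y i' j') →
    lam (F.N (e.X i j) (e.Y i j)) = lam (F.N (e.X i' j') (e.Y i' j'))

theorem IsV.exists_vertex {σ : ℤ} {a b : ℕ} (h : F.IsV σ a b) {e : Pr} (he : e.Valid) :
    ∃ i j, 1 ≤ i ∧ i ≤ F.Q ^ 2 ∧ 1 ≤ j ∧ j ≤ F.Q ^ 2 ∧ i.Coprime j ∧
      F.IsV σ (e.X i j) (e.Y i j) := by
  obtain ⟨i, j, a1, a2, a3, a4, a5, a6, a7⟩ := he.exists_vertex F.Q_pos h.2.2.1
  exact ⟨i, j, a1, a2, a3, a4.trans (Nat.le_self_pow two_ne_zero _), a5, he.coprime a5, a7,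
    coprime_of_modEq a6.symm h.2.2.1, (J_congr a6.symm h.2.2.1).symm.trans h.2.2.2⟩

theorem chain (Bal Bad : Pr → Prop) (U : ℕ)
    (h1 : ∀ e : Pr, e.Valid → Bal e → U ≤ e.u → ¬ Bad e → F.Good e)
    (h2 : ∀ e : Pr, e.Valid → Bal e → (¬ Bad e.cL → Bal e.cL) ∧ (¬ Bad e.cR → Bal e.cR))
    {σ : ℤ} {a b : ℕ} (hV : F.IsV σ a b) (n : ℕ) : ∀ (e : Pr) (s t : ℕ), s + t = n → e.Valid →
    Bal e → U ≤ e.u → 1 ≤ t → a = e.X s t → b = e.Y s t →
    (∀ e' : Pr, e'.Valid → e.Sub e' → e'.InC a b → e'.u ≤ b → ¬ Bad e') →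
    ∀ i j, i ≤ F.Q ^ 2 → 1 ≤ j → j ≤ F.Q ^ 2 → F.IsV σ (e.X i j) (e.Y i j) →
      lam (F.N a b) = lam (F.N (e.X i j) (e.Y i j)) := by
  have hu : ∀ (e : Pr) (s t : ℕ), 1 ≤ t → b = e.Y s t → e.u ≤ b := fun e s t ht hb => by
    rw [hb, Pr.Y]; nlinarith [Nat.zero_le (s * e.y)]
  induction n using Nat.strong_induction_on with
  | _ n ih =>
    intro e s t hn he hB hU ht ha hb hbad i j hi hj1 hj2 hm
    have hG := h1 e he hB hU (hbad e he (Pr.sub_refl e) ⟨s, t, ha, hb⟩ (hu e s t ht hb))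
    have hQ : 1 ≤ F.Q ^ 2 := Nat.one_le_pow _ _ F.Q_pos
    have hy := he.1
    rcases Nat.eq_zero_or_pos s with rfl | hs
    · have hc : Nat.Coprime 0 t := Pr.coprime_of_coprime (e := e) (ha ▸ hb ▸ hV.1)
      have ht1 : t = 1 := by simpa using hc
      subst ht1
      rw [ha, hb] at hV ⊢
      exact hG σ 0 1 i j (by omega) le_rfl (by omega) (by omega) hj1 (by omega) hV hm
    · rcases le_or_gt t s with hts | hts
      · obtain ⟨s', rfl⟩ := Nat.exists_eq_add_of_le' hts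
        obtain ⟨i', j', a1, a2, a3, a4, -, a5⟩ := hV.exists_vertex he.cL
        rw [← Pr.cL_X] at ha
        rw [← Pr.cL_Y] at hb
        rw [ih (s' + t) (by omega) e.cL s' t rfl he.cL ((h2 e he hB).1 (hbad _ he.cL
          (Pr.sub_refl _).cL ⟨s', t, ha, hb⟩ (hu _ s' t ht hb))) (by simp only [Pr.cL]; omega)
          ht ha hb (fun e' b1 b2 => hbad e' b1 b2.cL) i' j' a2 a3 a4 a5]
        rw [Pr.cL_X, Pr.cL_Y] at a5 ⊢
        exact hG σ _ _ i j (by omega) a3 (by omega) (by omega) hj1 (by omega) a5 hm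
      · obtain ⟨t', rfl⟩ := Nat.exists_eq_add_of_le' hts.le
        obtain ⟨i', j', a1, a2, a3, a4, -, a5⟩ := hV.exists_vertex he.cR
        rw [← Pr.cR_X] at ha
        rw [← Pr.cR_Y] at hb
        rw [ih (t' + s) (by omega) e.cR t' s rfl he.cR ((h2 e he hB).2 (hbad _ he.cR
          (Pr.sub_refl _).cR ⟨t', s, ha, hb⟩ (hu _ t' s hs hb))) (by simp only [Pr.cR]; omega)
          hs ha hb (fun e' b1 b2 => hbad e' b1 b2.cR) i' j' a2 a3 a4 a5]
        rw [Pr.cR_X, Pr.cR_Y] at a5 ⊢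
        exact hG σ _ _ i j (by omega) (by omega) (by omega) (by omega) hj1 (by omega) a5 hm

end Ctx

end Pool.Agent.P.MP_a1177c_nt.Sign
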