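import Pool.Agent.P.MP_a1177c_nt.Sign.Chain
import Pool.Agent.P.MP_a1177c_nt.Sign.Beta

/-!
# The endgame: rotation by an element of sign `-1`
-/

namespace Pool.Agent.P.MP_a1177c_nt.Sign

open Finset Filter Topology

namespace Ctx

variable {F : Ctx}

variable (F) in
/-- `(p + q ω)(a + b ω) = a' + b' ω`. -/
def Mul (p q a b a' b' : ℕ) : Prop :=
  a' + F.a * F.c * q * b = p * a ∧ b' = p * b + q * a + F.b * q * b

theorem Mul.int {p q a b a' b' : ℕ} (h : F.Mul p q a b a' b') :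
    (a' : ℤ) = p * a - F.a * F.c * q * b ∧ (b' : ℤ) = p * b + q * a + F.b * q * b := by
  obtain ⟨h1, h2⟩ := h
  have h1' : (a' + F.a * F.c * q * b : ℤ) = p * a := by exact_mod_cast h1
  exact ⟨by linarith, by exact_mod_cast h2⟩

theorem Mul.N {p q a b a' b' : ℕ} (h : F.Mul p q a b a' b') : F.N a' b' = F.N p q * F.N a b := by
  obtain ⟨h1, h2⟩ := h.int
  zify
  unfold Ctx.N
  push_cast
  rw [h1, h2]; ring

theorem Mul.conj {p q a b a' b' : ℕ} (h : F.Mul p q a b a' b') :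
    F.N p q * a = (p + F.b * q) * a' + F.a * F.c * q * b' ∧ F.N p q * b + q * a' = p * b' := by
  obtain ⟨h1, h2⟩ := h.int
  zify
  unfold Ctx.N
  push_cast
  rw [h1, h2]
  constructor <;> ring

theorem Mul.le {p q a b a' b' : ℕ} (h : F.Mul p q a b a' b') (hq : (1 + F.b) * q ≤ p)
    (hab : a ≤ b) : b' ≤ 2 * p * b := by
  rw [h.2]
  have h1 : q * a ≤ q * b := by gcongr
  have h2 : (1 + F.b) * q * b ≤ p * b := by gcongr
  nlinarith

theorem Mul.smul {p q a b a' b' : ℕ} (h : F.Mul p q a b a' b') (g : ℕ) :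
    F.Mul p q (g * a) (g * b) (g * a') (g * b') := by
  obtain ⟨h1, h2⟩ := h
  exact ⟨by linear_combination g * h1, by rw [h2]; ring⟩

theorem sq_le_N (p q : ℕ) : p ^ 2 ≤ F.N p q := by unfold N; omega

theorem count1 {p q Z : ℕ} (hp : 0 < p) (hq : (1 + F.b) * q ≤ p) {e : Pr} (he : e.Valid)
    (S : Finset (ℕ × ℕ)) (hS : ∀ γ ∈ S, γ.1 ≤ γ.2 ∧ 1 ≤ γ.2 ∧ γ.2 ≤ Z ∧
      ∃ a' b', F.Mul p q γ.1 γ.2 a' b' ∧ e.InC a' b') :
    (#S : ℝ) ≤ 4 * Z ^ 2 * e.wt + Z := by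
  have hw := e.wt_nonneg
  rw [Finset.card_eq_sum_card_fiberwise (f := Prod.snd) (t := Icc 1 Z)
    fun γ hγ => by simpa using ⟨(hS γ hγ).2.1, (hS γ hγ).2.2.1⟩]
  push_cast
  have key : ∀ b ∈ Icc 1 Z, (#{γ ∈ S | γ.2 = b} : ℝ) ≤ 4 * Z * e.wt + 1 := by
    intro b _
    rw [← Finset.card_image_of_injOn (f := Prod.fst) (fun γ h γ' h' h1 => Prod.ext h1 (by
      simp only [coe_filter, Set.mem_ofPred_eq] at h h'; rw [h.2, h'.2]))]
    refine card_le_of_diam _ (by positivity) fun a1 h1 a2 h2 => ?_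
    simp only [mem_image, mem_filter] at h1 h2
    obtain ⟨⟨_, _⟩, ⟨h1, rfl⟩, rfl⟩ := h1
    obtain ⟨⟨_, b⟩, ⟨h2, rfl⟩, rfl⟩ := h2
    rename_i a1 a2 _
    obtain ⟨c1, c2, c3, x1, y1, c4, s1, t1, c5, c6⟩ := hS _ h1
    obtain ⟨d1, -, -, x2, y2, d4, s2, t2, d5, d6⟩ := hS _ h2
    dsimp only at c1 c2 c3 c4 d1 d4 ⊢
    obtain ⟨δ, hδ, hd⟩ := he.det
    have e1 := hd s2 t2 s1 t1
    rw [← c5, ← c6, ← d5, ← d6] at e1
    have e2 : (F.N p q : ℤ) * (a2 - a1) * b = x2 * y1 - y2 * x1 := by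
      rw [c4.int.1, c4.int.2, d4.int.1, d4.int.2]
      unfold N; push_cast; ring
    have e3 : δ * (s2 * t1 - t2 * s1) ≤ s2 * t1 ∨ δ * (s2 * t1 - t2 * s1) ≤ s1 * t2 := by
      have : (0 : ℤ) ≤ s2 * t1 := by positivity
      have : (0 : ℤ) ≤ t2 * s1 := by positivity
      rcases mul_self_eq_one_iff.1 ((sq δ).symm.trans hδ) with h | h <;> subst h
      · left; linarith
      · right; linarith
    have f1 : s1 * e.y ≤ 2 * p * b ∧ t1 * e.u ≤ 2 * p * b := by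
      have := c4.le hq c1
      rw [c6, Pr.Y] at this
      omega
    have f2 : s2 * e.y ≤ 2 * p * b ∧ t2 * e.u ≤ 2 * p * b := by
      have := d4.le hq d1
      rw [d6, Pr.Y] at this
      omega
    have e4 : ((F.N p q : ℤ) * (a2 - a1) * b) * (e.y * e.u) ≤ (2 * p * b) ^ 2 := by
      rw [e2, e1]
      rcases e3 with h | h
      · refine (mul_le_mul_of_nonneg_right h (by positivity)).trans ?_
        have : s2 * t1 * (e.y * e.u) ≤ (2 * p * b) ^ 2 := by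
          nlinarith [Nat.mul_le_mul f2.1 f1.2]
        exact_mod_cast this
      · refine (mul_le_mul_of_nonneg_right h (by positivity)).trans ?_
        have : s1 * t2 * (e.y * e.u) ≤ (2 * p * b) ^ 2 := by
          nlinarith [Nat.mul_le_mul f1.1 f2.2]
        exact_mod_cast this
    have e5 : ((F.N p q : ℝ) * (a2 - a1) * b) * (e.y * e.u) ≤ (2 * p * b) ^ 2 := by
      exact_mod_cast e4
    have g1 : (p : ℝ) ^ 2 ≤ F.N p q := by exact_mod_cast sq_le_N p q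
    have g2 : (0 : ℝ) < e.y := by exact_mod_cast he.1
    have g3 : (0 : ℝ) < e.u := by exact_mod_cast he.1.trans he.2.1.le
    have g4 : (0 : ℝ) < b := by exact_mod_cast c2
    have g5 : (0 : ℝ) < p := by exact_mod_cast hp
    have g6 : (b : ℝ) ≤ Z := by exact_mod_cast c3
    rcases le_or_gt (a2 - a1 : ℝ) 0 with h | h
    · have : 0 ≤ 4 * Z * e.wt := by positivity
      linarith
    · have g7 : (p : ℝ) ^ 2 * b * ((a2 - a1) * (e.y * e.u)) ≤ p ^ 2 * b * (4 * Z) := by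
        calc _ = (p : ℝ) ^ 2 * (a2 - a1) * b * (e.y * e.u) := by ring
          _ ≤ (F.N p q : ℝ) * (a2 - a1) * b * (e.y * e.u) := by gcongr
          _ ≤ (2 * p * b) ^ 2 := e5
          _ = p ^ 2 * b * (4 * b) := by ring
          _ ≤ _ := by gcongr
      have g8 := le_of_mul_le_mul_left g7 (by positivity)
      rw [← le_div_iff₀ (by positivity)] at g8
      unfold Pr.wt
      rw [mul_one_div]
      linarith
  refine (Finset.sum_le_card_nsmul _ _ _ key).trans (le_of_eq ?_)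
  rw [Nat.card_Icc, nsmul_eq_mul]
  simp only [add_tsub_cancel_right]
  ring

theorem count2 {p q Z : ℕ} (hp : 0 < p) (hq : (1 + F.b) * q ≤ p) {e : Pr} (he : e.Valid)
    (S : Finset (ℕ × ℕ)) (hS : ∀ γ ∈ S, γ.1 ≤ γ.2 ∧ γ.2 ≤ Z ∧
      ∃ a' b', F.Mul p q γ.1 γ.2 a' b' ∧ e.InC a' b' ∧ e.u ≤ b') :
    (#S : ℝ) ≤ 16 * p ^ 2 * Z ^ 2 * e.wt := by
  have hw := e.wt_nonneg
  rcases S.eq_empty_or_nonempty with rfl | ⟨γ0, h0⟩
  · simp only [card_empty, Nat.cast_zero]; positivity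
  have hB : ∀ γ ∈ S, ∀ a' b', F.Mul p q γ.1 γ.2 a' b' → b' ≤ 2 * p * Z := fun γ hγ a' b' h =>
    (h.le hq (hS γ hγ).1).trans (Nat.mul_le_mul_left _ (hS γ hγ).2.1)
  have hu : e.u ≤ 2 * p * Z := by
    obtain ⟨-, -, a', b', h1, -, h2⟩ := hS γ0 h0
    exact h2.trans (hB γ0 h0 a' b' h1)
  have hy := he.1
  have hyu := he.2.1
  set B := 2 * p * Z with hBd
  have h1 : #S ≤ #(range (B / e.y + 1) ×ˢ range (B / e.u + 1)) := by
    refine Finset.card_le_card_of_forall_subsingleton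
      (fun γ st => F.Mul p q γ.1 γ.2 (e.X st.1 st.2) (e.Y st.1 st.2)) (fun γ hγ => ?_) ?_
    · obtain ⟨-, -, a', b', h1, ⟨s, t, rfl, rfl⟩, -⟩ := hS γ hγ
      have h2 := hB γ hγ _ _ h1
      refine ⟨(s, t), ?_, h1⟩
      simp only [mem_product, mem_range, Nat.lt_succ_iff]
      unfold Pr.Y at h2
      exact ⟨(Nat.le_div_iff_mul_le hy).2 (by omega), (Nat.le_div_iff_mul_le (by omega)).2 (by omega)⟩
    · rintro st - γ ⟨-, h1⟩ γ' ⟨-, h2⟩
      have hN : 0 < F.N p q := (pow_pos hp 2).trans_le (sq_le_N p q)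
      exact Prod.ext (Nat.eq_of_mul_eq_mul_left hN (h1.conj.1.trans h2.conj.1.symm))
        (Nat.eq_of_mul_eq_mul_left hN (Nat.add_right_cancel (h1.conj.2.trans h2.conj.2.symm)))
  rw [card_product, card_range, card_range] at h1
  have h2 : #S * (e.y * e.u) ≤ 4 * B ^ 2 := by
    have a1 := Nat.div_mul_le_self B e.y
    have a2 := Nat.div_mul_le_self B e.u
    calc #S * (e.y * e.u) ≤ (B / e.y + 1) * (B / e.u + 1) * (e.y * e.u) := by gcongr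
      _ = (B / e.y * e.y + e.y) * (B / e.u * e.u + e.u) := by ring
      _ ≤ (B + B) * (B + B) := by gcongr; omega
      _ = _ := by ring
  have g2 : (0 : ℝ) < e.y := by exact_mod_cast hy
  have g3 : (0 : ℝ) < e.u := by exact_mod_cast hy.trans hyu.le
  unfold Pr.wt
  rw [mul_one_div, le_div_iff₀ (by positivity)]
  have h3 : (#S * (e.y * e.u) : ℝ) ≤ 4 * (2 * p * Z) ^ 2 := by exact_mod_cast h2
  linarith

theorem exists_mul {p q s t : ℕ} {e : Pr} (he : e.Valid)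
    (h1 : q * F.c0 * e.u * e.Y s t ≤ p * s) (h2 : 2 * (q * F.c0 * e.y * e.Y s t) ≤ p * t)
    (h3 : 1 ≤ p * t) :
    ∃ s' t', 1 ≤ t' ∧ F.Mul p q (e.X s t) (e.Y s t) (e.X s' t') (e.Y s' t') := by
  have hab := he.le s t
  obtain ⟨-, -, hx, hz, hd⟩ := he
  set a := e.X s t with ha
  set b := e.Y s t with hb
  set A := F.a * F.c * b * e.u + (a + F.b * b) * e.z with hA
  set B := e.x * (a + F.b * b) + e.y * (F.a * F.c * b) with hB
  have hA' : q * A ≤ p * s := by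
    refine le_trans ?_ h1
    calc q * A ≤ q * (F.a * F.c * b * e.u + (b + F.b * b) * e.u) := by rw [hA]; gcongr
      _ = _ := by unfold c0; ring
  have hB' : 2 * (q * B) ≤ p * t := by
    refine le_trans ?_ h2
    calc 2 * (q * B) ≤ 2 * (q * (e.y * (b + F.b * b) + e.y * (F.a * F.c * b))) := by
          rw [hB]; gcongr
      _ = _ := by unfold c0; ring
  have ha' : (a : ℤ) = s * e.x + t * e.z := by rw [ha, Pr.X]; push_cast; ring
  have hb' : (b : ℤ) = s * e.y + t * e.u := by rw [hb, Pr.Y]; push_cast; ring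
  rcases hd with hd | hd
  · have hd' : (e.x * e.u : ℤ) = e.y * e.z + 1 := by exact_mod_cast hd
    obtain ⟨s', hs'⟩ := Nat.exists_eq_add_of_le' hA'
    have hs'' : (s' : ℤ) = p * s - q * (F.a * F.c * b * e.u + (a + F.b * b) * e.z) := by
      have : (p * s : ℤ) = s' + q * A := by exact_mod_cast hs'
      rw [this, hA]; push_cast; ring
    refine ⟨s', p * t + q * B, by omega, ?_, ?_⟩
    · zify
      rw [Pr.X, hB]; push_cast
      rw [hs'']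
      linear_combination (-(p : ℤ)) * ha' - (q * F.a * F.c * b : ℤ) * hd'
    · zify
      rw [Pr.Y, hB]; push_cast
      rw [hs'']
      linear_combination (-(p : ℤ)) * hb' + (q * (a + F.b * b) : ℤ) * hd'
  · have hd' : (e.y * e.z : ℤ) = e.x * e.u + 1 := by exact_mod_cast hd
    obtain ⟨t', ht'⟩ := Nat.exists_eq_add_of_le' (show q * B ≤ p * t by omega)
    have ht'' : (t' : ℤ) = p * t - q * (e.x * (a + F.b * b) + e.y * (F.a * F.c * b)) := by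
      have : (p * t : ℤ) = t' + q * B := by exact_mod_cast ht'
      rw [this, hB]; push_cast; ring
    refine ⟨p * s + q * A, t', by omega, ?_, ?_⟩
    · zify
      rw [Pr.X, hA]; push_cast
      rw [ht'']
      linear_combination (-(p : ℤ)) * ha' - (q * F.a * F.c * b : ℤ) * hd'
    · zify
      rw [Pr.Y, hA]; push_cast
      rw [ht'']
      linear_combination (-(p : ℤ)) * hb' + (q * (a + F.b * b) : ℤ) * hd'

theorem X_smul (e : Pr) (g s t : ℕ) : e.X (g * s) (g * t) = g * e.X s t := by unfold Pr.X; ring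
theorem Y_smul (e : Pr) (g s t : ℕ) : e.Y (g * s) (g * t) = g * e.Y s t := by unfold Pr.Y; ring

theorem exists_prim (s t : ℕ) (ht : 1 ≤ t) :
    ∃ g s' t', 1 ≤ g ∧ 1 ≤ t' ∧ s'.Coprime t' ∧ s = g * s' ∧ t = g * t' := by
  have h0 : 0 < Nat.gcd s t := Nat.gcd_pos_of_pos_right _ ht
  have h1 := (Nat.mul_div_cancel' (Nat.gcd_dvd_right s t)).symm
  exact ⟨Nat.gcd s t, s / Nat.gcd s t, t / Nat.gcd s t, h0,
    Nat.pos_of_mul_pos_left (h1 ▸ ht), Nat.coprime_div_gcd_div_gcd h0,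
    (Nat.mul_div_cancel' (Nat.gcd_dvd_left _ _)).symm, h1⟩

/-- Every suitable vector of the cone is hit, either itself or after rotation. -/
theorem hit (Bal Bad : Pr → Prop) (U : ℕ)
    (h1 : ∀ e : Pr, e.Valid → Bal e → U ≤ e.u → ¬ Bad e → F.Good e)
    (h2 : ∀ e : Pr, e.Valid → Bal e → (¬ Bad e.cL → Bal e.cL) ∧ (¬ Bad e.cR → Bal e.cR))
    {e : Pr} (he : e.Valid) (hB : Bal e) (hU : U ≤ e.u) {p q s t : ℕ} (hβ : F.IsV 1 p q)
    (hl : lam (F.N p q) = -1) (hX : (e.X s t).Coprime F.Q) (hY : F.Q ∣ e.Y s t)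
    (a1 : q * F.c0 * e.u * e.Y s t ≤ p * s) (a2 : 2 * (q * F.c0 * e.y * e.Y s t) ≤ p * t)
    (ht : 1 ≤ t) :
    (∃ e' : Pr, e'.Valid ∧ Bad e' ∧ e.Sub e' ∧
      ∃ a' b', F.Mul 1 0 (e.X s t) (e.Y s t) a' b' ∧ e'.InC a' b' ∧ e'.u ≤ b') ∨
    (∃ e' : Pr, e'.Valid ∧ Bad e' ∧ e.Sub e' ∧
      ∃ a' b', F.Mul p q (e.X s t) (e.Y s t) a' b' ∧ e'.InC a' b' ∧ e'.u ≤ b') := by
  by_contra hcon
  rw [not_or] at hcon
  obtain ⟨c1, c2⟩ := hcon
  obtain ⟨g, s2, t2, hg, ht2, hc2, rfl, rfl⟩ := exists_prim s t ht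
  rw [X_smul] at hX c1 c2
  rw [Y_smul] at hY c1 c2 a1 a2
  have hp : 1 ≤ p := Nat.pos_of_ne_zero (ne_zero_of_coprime hβ.2.2.1)
  have hV2 : F.IsV (F.J (e.X s2 t2)) (e.X s2 t2) (e.Y s2 t2) :=
    ⟨he.coprime hc2, (Nat.Coprime.coprime_mul_right hX).symm.dvd_of_dvd_mul_left hY,
      Nat.Coprime.coprime_mul_left hX, rfl⟩
  obtain ⟨s', t', ht', hM⟩ := exists_mul (F := F) (p := p) (q := q) (s := s2) (t := t2) he
    (Nat.le_of_mul_le_mul_left (by nlinarith) hg) (Nat.le_of_mul_le_mul_left (by nlinarith) hg)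
    (Nat.mul_pos hp ht2)
  obtain ⟨g', s3, t3, hg', ht3, hc3, rfl, rfl⟩ := exists_prim s' t' ht'
  rw [X_smul, Y_smul] at hM
  have hInC : ∀ (e' : Pr) (k a b : ℕ), e'.InC a b → e'.InC (k * a) (k * b) := by
    rintro e' k a b ⟨i, j, rfl, rfl⟩
    exact ⟨k * i, k * j, (X_smul _ _ _ _).symm, (Y_smul _ _ _ _).symm⟩
  have hcong : p * e.X s2 t2 ≡ g' * e.X s3 t3 [MOD F.Q] := by
    rw [← hM.1]
    exact ((Nat.modEq_iff_dvd' (Nat.le_add_right _ _)).2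
      (by simpa using (hβ.2.1.mul_left _).mul_right _)).symm
  have hcop := Nat.Coprime.mul_left hβ.2.2.1 hV2.2.2.1
  have hcop' := coprime_of_modEq hcong hcop
  have hJg : F.J g' = 1 := J_of_primes (by omega) fun l hl hd => hβ.J_prime hl (by
    have b1 : l ∣ F.N p q * e.X s2 t2 := by
      rw [hM.conj.1]
      exact dvd_add ((hd.mul_right _).mul_left _) ((hd.mul_right _).mul_left _)
    have b2 : l ∣ F.N p q * e.Y s2 t2 := by
      refine (Nat.dvd_add_left ((hd.mul_right (e.X s3 t3)).mul_left q)).1 ?_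
      rw [hM.conj.2]
      exact (hd.mul_right _).mul_left _
    by_contra b3
    exact hl.one_lt.ne' (Nat.eq_one_of_dvd_coprimes hV2.1
      (((Nat.Prime.dvd_mul hl).1 b1).resolve_left b3)
      (((Nat.Prime.dvd_mul hl).1 b2).resolve_left b3)))
  have hV3 : F.IsV (F.J (e.X s2 t2)) (e.X s3 t3) (e.Y s3 t3) := by
    refine ⟨he.coprime hc3, ?_, Nat.Coprime.coprime_mul_left hcop', ?_⟩
    · refine (Nat.Coprime.coprime_mul_right hcop').symm.dvd_of_dvd_mul_left ?_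
      rw [hM.2]
      exact dvd_add (dvd_add (hV2.2.1.mul_left _) (hβ.2.1.mul_right _)) (hV2.2.1.mul_left _)
    · have := J_congr hcong hcop
      rw [J_mul (by omega) (ne_zero_of_coprime hV2.2.2.1), J_mul (by omega)
        (ne_zero_of_coprime (Nat.Coprime.coprime_mul_left hcop')), hJg, hβ.2.2.2, one_mul,
        one_mul] at this
      exact this.symm
  obtain ⟨i, j, -, b2, b3, b4, -, b5⟩ := hV2.exists_vertex he
  have d1 := chain Bal Bad U h1 h2 hV2 _ e s2 t2 rfl he hB hU ht2 rfl rfl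
    (fun e' x1 x2 x3 x4 x5 => c1 ⟨e', x1, x5, x2, _, _, ⟨by simp, by simp⟩, hInC e' g _ _ x3,
      x4.trans (Nat.le_mul_of_pos_left _ hg)⟩) i j b2 b3 b4 b5
  have d2 := chain Bal Bad U h1 h2 hV3 _ e s3 t3 rfl he hB hU ht3 rfl rfl
    (fun e' x1 x2 x3 x4 x5 => c2 ⟨e', x1, x5, x2, _, _, hM.smul g,
      hInC e' g _ _ (hInC e' g' _ _ x3),
      x4.trans ((Nat.le_mul_of_pos_left _ hg').trans (Nat.le_mul_of_pos_left _ hg))⟩) i j b2 b3 b4 b5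
  have d3 := hM.N
  have d4 : F.N (g' * e.X s3 t3) (g' * e.Y s3 t3) = g' ^ 2 * F.N (e.X s3 t3) (e.Y s3 t3) := by
    unfold N; ring
  have d5 := congrArg lam (d4.symm.trans d3)
  rw [lam_mul (by positivity) (ne_zero_of_coprime hV3.N_coprime), lam_sq (by omega),
    lam_mul (ne_zero_of_coprime hβ.N_coprime) (ne_zero_of_coprime hV2.N_coprime), hl, d1, d2] at d5
  have d6 := lam_mul_self (F.N (e.X i j) (e.Y i j))
  have d7 : lam (F.N (e.X i j) (e.Y i j)) = 0 := by linarith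
  rw [d7] at d6
  simp at d6

theorem count_hits {p q Z : ℕ} (hp : 0 < p) (hq : (1 + F.b) * q ≤ p) (Bad : Pr → Prop)
    (hs : Summable fun e : Pr => ind (e.Valid ∧ Bad e) e.wt) (e : Pr) (T : Finset Pr)
    (S : Finset (ℕ × ℕ)) (hS : ∀ γ ∈ S, γ.1 ≤ γ.2 ∧ 1 ≤ γ.2 ∧ γ.2 ≤ Z ∧
      ∃ e' : Pr, e'.Valid ∧ Bad e' ∧ e.Sub e' ∧
      ∃ a' b', F.Mul p q γ.1 γ.2 a' b' ∧ e'.InC a' b' ∧ e'.u ≤ b') :
    (#S : ℝ) ≤ 4 * Z ^ 2 * ∑' e', ind (e.Sub e') (ind (e'.Valid ∧ Bad e') e'.wt)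
      + Z * #T + 16 * p ^ 2 * Z ^ 2 * ∑' e', ind (e' ∉ T) (ind (e'.Valid ∧ Bad e') e'.wt) := by
  have h0 : ∀ e' : Pr, 0 ≤ ind (e'.Valid ∧ Bad e') e'.wt := fun e' => ind_nonneg _ e'.wt_nonneg
  have hT : HasSum (fun e' => ind (e' ∈ T) 1) #T := by
    have := hasSum_sum_of_ne_finset_zero (f := fun e' => ind (e' ∈ T) 1) (s := T)
      (L := SummationFilter.unconditional Pr) fun b hb => ind_neg hb _
    rwa [Finset.sum_congr rfl fun b hb => ind_pos hb _, Finset.sum_const, nsmul_eq_mul,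
      mul_one] at this
  have hall := (((summable_ind hs h0 fun e' => e.Sub e').hasSum.mul_left (4 * (Z : ℝ) ^ 2)).add
    (hT.mul_left (Z : ℝ))).add
    ((summable_ind hs h0 fun e' => e' ∉ T).hasSum.mul_left (16 * (p : ℝ) ^ 2 * Z ^ 2))
  have : Nonempty Pr := ⟨e⟩
  have key := sum_le_tsum_rel (fun _ : ℕ × ℕ => (1 : ℝ)) _
    (fun γ e' => γ.1 ≤ γ.2 ∧ 1 ≤ γ.2 ∧ γ.2 ≤ Z ∧ e'.Valid ∧ Bad e' ∧ e.Sub e' ∧
      ∃ a' b', F.Mul p q γ.1 γ.2 a' b' ∧ e'.InC a' b' ∧ e'.u ≤ b') hall.summable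
    (fun e' => by
      have := ind_nonneg (e.Sub e') (h0 e')
      have := ind_nonneg (e' ∉ T) (h0 e')
      have := ind_nonneg (e' ∈ T) zero_le_one
      positivity) (fun e' S' hS' => by
      rw [Finset.sum_const, nsmul_eq_mul, mul_one]
      have a1 := ind_nonneg (e.Sub e') (h0 e')
      have a2 := ind_nonneg (e' ∉ T) (h0 e')
      rcases S'.eq_empty_or_nonempty with rfl | ⟨γ0, h1⟩
      · have := ind_nonneg (e' ∈ T) zero_le_one
        simp only [card_empty, Nat.cast_zero]; positivity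
      obtain ⟨-, -, -, b1, b2, b3, -⟩ := hS' γ0 h1
      have b4 : ind (e'.Valid ∧ Bad e') e'.wt = e'.wt := ind_pos ⟨b1, b2⟩ _
      have b5 := e'.wt_nonneg
      by_cases b6 : e' ∈ T
      · have := count1 (F := F) (Z := Z) hp hq b1 S' fun γ hγ => by
          obtain ⟨c1, c2, c3, -, -, -, a', b', c4, c5, -⟩ := hS' γ hγ
          exact ⟨c1, c2, c3, a', b', c4, c5⟩
        rw [ind_pos b3, ind_pos b6, ind_neg (not_not.2 b6), b4]
        linarith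
      · have := count2 (F := F) (Z := Z) hp hq b1 S' fun γ hγ => by
          obtain ⟨c1, c2, c3, -, -, -, c4⟩ := hS' γ hγ
          exact ⟨c1, c3, c4⟩
        rw [ind_pos b3, ind_neg b6, ind_pos b6, b4]
        have : 0 ≤ 4 * (Z : ℝ) ^ 2 * e'.wt := by positivity
        linarith) S (fun γ hγ => by
      obtain ⟨c1, c2, c3, e', c4⟩ := hS γ hγ
      exact ⟨e', c1, c2, c3, c4⟩)
  rw [Finset.sum_const, nsmul_eq_mul, mul_one, hall.tsum_eq] at key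
  exact key

theorem tail_small {α : Type*} (h : α → ℝ) {ε : ℝ} (hε : 0 < ε) :
    ∃ T : Finset α, ∑' e, ind (e ∉ T) (h e) ≤ ε := by
  obtain ⟨T, hT⟩ := ((tendsto_tsum_compl_atTop_zero h).eventually (gt_mem_nhds hε)).exists
  refine ⟨T, le_trans (le_of_eq ?_) hT.le⟩
  refine Eq.trans (tsum_congr fun e => ?_) (tsum_subtype {e | e ∉ T} h).symm
  by_cases h1 : e ∉ T
  · rw [ind_pos h1, Set.indicator_of_mem (by exact h1)]
  · rw [ind_neg h1, Set.indicator_of_notMem (by exact h1)]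

theorem endgame (H : ∀ K0 : ℕ, ∃ U : ℕ, Summable fun e : Pr =>
    ind (e.Valid ∧ e.Bal K0 ∧ U ≤ e.u ∧ ¬ F.Good e) e.wt) : False := by
  classical
  have hQ : (1 : ℝ) ≤ F.Q := by exact_mod_cast F.Q_pos
  set ε : ℝ := 1 / (512 * (F.Q : ℝ) ^ 4) with hε
  have hε0 : 0 < ε := by positivity
  have hε1 : ε < 1 := by
    rw [hε, div_lt_one (by positivity)]
    nlinarith [one_le_pow₀ (n := 4) hQ]
  obtain ⟨K0, hK3, hK0⟩ : ∃ K0 : ℕ, 3 ≤ K0 ∧
      2 / (K0 : ℝ) * ∑' y : ℕ, 1 / ((y : ℝ) * (tt y : ℝ) ^ 2) ≤ ε / 4 := by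
    have := (tendsto_const_div_atTop_nhds_zero_nat (2 : ℝ)).mul_const
      (∑' y : ℕ, 1 / ((y : ℝ) * (tt y : ℝ) ^ 2))
    rw [zero_mul] at this
    exact ((eventually_ge_atTop 3).and (this.eventually (ge_mem_nhds (by positivity)))).exists
  obtain ⟨U1, hU1⟩ := H K0
  obtain ⟨T1, hT1⟩ := tail_small (fun e : Pr =>
    ind (e.Valid ∧ e.Bal K0 ∧ U1 ≤ e.u ∧ ¬ F.Good e) e.wt) (show 0 < ε / 4 by positivity)
  obtain ⟨s1, s2⟩ := summable_rel Pr.wt Pr.wt_nonneg _ (fun e => e.Valid ∧ e.FU K0)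
    (fun e y => e.Valid ∧ e.FU K0 ∧ e.y = y) (summable_tt.mul_left (2 / (K0 : ℝ)))
    (fun y => by positivity) (Pr.sum_FU (by omega)) fun e he => ⟨e.y, he.1, he.2, rfl⟩
  rw [tsum_mul_left] at s2
  set U := max U1 (T1.sup Pr.u + 1) with hU
  set Bad : Pr → Prop := fun e => e.FU K0 ∨ (e.Bal K0 ∧ U ≤ e.u ∧ ¬ F.Good e) with hBad
  have hnn : ∀ (P : Prop) (e : Pr), 0 ≤ ind P e.wt := fun P e => ind_nonneg _ e.wt_nonneg
  have s3 := summable_ind hU1 (fun e => hnn _ e) fun e => e ∉ T1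
  have hle : ∀ e : Pr, ind (e.Valid ∧ Bad e) e.wt ≤ ind (e.Valid ∧ e.FU K0) e.wt +
      ind (e ∉ T1) (ind (e.Valid ∧ e.Bal K0 ∧ U1 ≤ e.u ∧ ¬ F.Good e) e.wt) := fun e => by
    have a1 := hnn (e.Valid ∧ e.FU K0) e
    have a2 := ind_nonneg (e ∉ T1) (hnn (e.Valid ∧ e.Bal K0 ∧ U1 ≤ e.u ∧ ¬ F.Good e) e)
    by_cases h : e.Valid ∧ Bad e
    · rw [ind_pos h]
      obtain ⟨h1, h2 | ⟨h2, h3, h4⟩⟩ := h
      · rw [ind_pos ⟨h1, h2⟩]; linarith
      · have h5 : e ∉ T1 := fun h6 => by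
          have := Finset.le_sup (f := Pr.u) h6
          omega
        rw [ind_pos h5, ind_pos (show e.Valid ∧ e.Bal K0 ∧ U1 ≤ e.u ∧ ¬ F.Good e from
          ⟨h1, h2, by omega, h4⟩)]
        linarith
    · rw [ind_neg h]; linarith
  have hs : Summable fun e : Pr => ind (e.Valid ∧ Bad e) e.wt :=
    Summable.of_nonneg_of_le (fun e => hnn _ e) hle (s1.add s3)
  have hnb : ∀ e : Pr, e.Valid → ind (e.Valid ∧ Bad e) e.wt < e.wt → ¬ Bad e :=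
    fun e h1 h2 h3 => by rw [ind_pos ⟨h1, h3⟩] at h2; exact lt_irrefl _ h2
  have h1 : ∀ e : Pr, e.Valid → e.Bal K0 → U ≤ e.u → ¬ Bad e → F.Good e :=
    fun e _ a2 a3 a4 => by_contra fun a5 => a4 (Or.inr ⟨a2, a3, a5⟩)
  have h2 : ∀ e : Pr, e.Valid → e.Bal K0 →
      (¬ Bad e.cL → e.cL.Bal K0) ∧ (¬ Bad e.cR → e.cR.Bal K0) := fun e h1 h2 =>
    ⟨fun h3 => (Pr.bal_child (by omega) h1 h2).1 fun h4 => h3 (Or.inl h4),
      fun _ => (Pr.bal_child (by omega) h1 h2).2⟩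
  obtain ⟨e, he, hB, hUe, hb⟩ := Pr.descent _ hs (fun e => hnn _ e)
    (fun e h => ind_neg (fun h' => h h'.1) _) (fun e => e.Bal K0) ε hε1 (fun e a1 a2 =>
      ⟨fun a3 => (h2 e a1 a2).1 (hnb _ a1.cL a3), fun a3 => (h2 e a1 a2).2 (hnb _ a1.cR a3)⟩)
    (by simp only [Pr.Bal, tt]; simp; omega) (by
      refine (hs.tsum_le_tsum hle (s1.add s3)).trans ?_
      rw [s1.tsum_add s3]
      linarith) U
  obtain ⟨p, q, hβ, hpq, hl⟩ := F.exists_beta (8 * F.c0 * F.Q ^ 2 * e.u * e.y)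
  have hp : 1 ≤ p := Nat.pos_of_ne_zero (ne_zero_of_coprime hβ.2.2.1)
  have hy := he.1
  have hu : 1 ≤ e.u := hy.trans he.2.1.le
  have hQ0 := F.Q_pos
  have hy' : (0 : ℝ) < e.y := by exact_mod_cast hy
  have hu' : (0 : ℝ) < e.u := by exact_mod_cast hu
  have hp' : (1 : ℝ) ≤ p := by exact_mod_cast hp
  have hq : (1 + F.b) * q ≤ p := by
    refine le_trans (Nat.mul_le_mul_right _ ?_) hpq
    calc 1 + F.b ≤ 1 * F.c0 * 1 ^ 2 * 1 * 1 := by unfold c0; omega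
      _ ≤ _ := by gcongr; exacts [by norm_num, hQ0]
  obtain ⟨T2, hT2⟩ := tail_small (fun e' : Pr => ind (e'.Valid ∧ Bad e') e'.wt)
    (show 0 < 1 / (2048 * (p : ℝ) ^ 2 * F.Q ^ 4 * e.u * e.y) by positivity)
  obtain ⟨s0, t0, -, c1, c2, c3, -, c4, c5⟩ := he.exists_vertex hQ0 (Nat.coprime_one_left F.Q)
  obtain ⟨Z, hZ1, hZ2⟩ : ∃ Z : ℕ, 1 ≤ Z ∧ 32 * F.Q ^ 2 * #T2 ≤ Z := ⟨32 * F.Q ^ 2 * #T2 + 1, by omega⟩
  set φ : ℕ × ℕ → ℕ × ℕ := fun r => (e.X (s0 + F.Q * r.1) (t0 + F.Q * r.2),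
    e.Y (s0 + F.Q * r.1) (t0 + F.Q * r.2)) with hφ
  set Γ := (Ico (Z * e.u) (2 * (Z * e.u)) ×ˢ Ico (Z * e.y) (2 * (Z * e.y))).image φ with hΓ
  have hcard : #Γ = Z * e.u * (Z * e.y) := by
    rw [Finset.card_image_of_injective, card_product, Nat.card_Ico, Nat.card_Ico]
    · congr 1 <;> omega
    · intro r r' h
      simp only [hφ, Prod.mk.injEq] at h
      obtain ⟨a1, a2⟩ := he.inj h.1 h.2
      exact Prod.ext (Nat.eq_of_mul_eq_mul_left hQ0 (by omega))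
        (Nat.eq_of_mul_eq_mul_left hQ0 (by omega))
  set Z1 := 4 * F.Q ^ 2 * Z * e.u * e.y with hZ1d
  set Hit : ℕ → ℕ → ℕ × ℕ → Prop := fun p q γ => ∃ e' : Pr, e'.Valid ∧ Bad e' ∧ e.Sub e' ∧
      ∃ a' b', F.Mul p q γ.1 γ.2 a' b' ∧ e'.InC a' b' ∧ e'.u ≤ b' with hHit
  have hΓ' : ∀ γ ∈ Γ, (γ.1 ≤ γ.2 ∧ 1 ≤ γ.2 ∧ γ.2 ≤ Z1) ∧ (Hit 1 0 γ ∨ Hit p q γ) := by
    intro γ hγ
    obtain ⟨⟨s1, t1⟩, hr, rfl⟩ := mem_image.1 hγ
    simp only [mem_product, mem_Ico] at hr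
    obtain ⟨⟨a1, a2⟩, a3, a4⟩ := hr
    have hQ2 : F.Q ≤ F.Q ^ 2 := Nat.le_self_pow two_ne_zero _
    have b1 : s0 + F.Q * s1 ≤ F.Q ^ 2 * (2 * (Z * e.u)) := by
      calc s0 + F.Q * s1 ≤ F.Q ^ 2 + F.Q ^ 2 * s1 := by gcongr
        _ = F.Q ^ 2 * (s1 + 1) := by ring
        _ ≤ _ := by gcongr; omega
    have b2 : t0 + F.Q * t1 ≤ F.Q ^ 2 * (2 * (Z * e.y)) := by
      calc t0 + F.Q * t1 ≤ F.Q ^ 2 + F.Q ^ 2 * t1 := by gcongr; omega
        _ = F.Q ^ 2 * (t1 + 1) := by ring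
        _ ≤ _ := by gcongr; omega
    have b3 : e.Y (s0 + F.Q * s1) (t0 + F.Q * t1) ≤ Z1 := by
      unfold Pr.Y
      calc _ ≤ F.Q ^ 2 * (2 * (Z * e.u)) * e.y + F.Q ^ 2 * (2 * (Z * e.y)) * e.u := by gcongr
        _ = _ := by rw [hZ1d]; ring
    have b4 : Z * e.u ≤ s0 + F.Q * s1 := by nlinarith
    have b5 : Z * e.y ≤ t0 + F.Q * t1 := by nlinarith
    have b6 : 1 ≤ t0 + F.Q * t1 := by omega
    refine ⟨⟨he.le _ _, (Nat.zero_le _).trans_lt (he.lt b6), b3⟩, ?_⟩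
    refine hit (Pr.Bal K0) Bad U h1 h2 he hB hUe hβ hl ?_ ?_ ?_ ?_ b6
    · refine coprime_of_modEq (c4.symm.trans ?_) (Nat.coprime_one_left _)
      have : e.X (s0 + F.Q * s1) (t0 + F.Q * t1) = e.X s0 t0 + F.Q * e.X s1 t1 := by
        unfold Pr.X; ring
      rw [this]
      exact (Nat.modEq_iff_dvd' (Nat.le_add_right _ _)).2 (by simp)
    · have : e.Y (s0 + F.Q * s1) (t0 + F.Q * t1) = e.Y s0 t0 + F.Q * e.Y s1 t1 := by
        unfold Pr.Y; ring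
      rw [this]
      exact dvd_add c5 (Dvd.intro _ rfl)
    · calc _ ≤ 2 * (q * F.c0 * e.u * Z1) := by
            have : q * F.c0 * e.u * e.Y (s0 + F.Q * s1) (t0 + F.Q * t1) ≤ q * F.c0 * e.u * Z1 := by
              gcongr
            exact this.trans (Nat.le_mul_of_pos_left _ two_pos)
        _ = 8 * F.c0 * F.Q ^ 2 * e.u * e.y * q * (Z * e.u) := by rw [hZ1d]; ring
        _ ≤ _ := by gcongr
    · calc _ ≤ 2 * (q * F.c0 * e.y * Z1) := by gcongr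
        _ = 8 * F.c0 * F.Q ^ 2 * e.u * e.y * q * (Z * e.y) := by rw [hZ1d]; ring
        _ ≤ _ := by gcongr
  have k1 := count_hits (F := F) (p := 1) (q := 0) (Z := Z1) one_pos (by simp) Bad hs e T2
    (Γ.filter (Hit 1 0)) fun γ hγ => by
      obtain ⟨a1, a2⟩ := mem_filter.1 hγ
      exact ⟨(hΓ' γ a1).1.1, (hΓ' γ a1).1.2.1, (hΓ' γ a1).1.2.2, a2⟩
  have k2 := count_hits (F := F) (Z := Z1) hp hq Bad hs e T2
    (Γ.filter (Hit p q)) fun γ hγ => by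
      obtain ⟨a1, a2⟩ := mem_filter.1 hγ
      exact ⟨(hΓ' γ a1).1.1, (hΓ' γ a1).1.2.1, (hΓ' γ a1).1.2.2, a2⟩
  have k3 : #Γ ≤ #(Γ.filter (Hit 1 0)) + #(Γ.filter (Hit p q)) := by
    refine le_trans (Finset.card_le_card fun γ hγ => ?_) (Finset.card_union_le _ _)
    rw [mem_union, mem_filter, mem_filter]
    exact (hΓ' γ hγ).2.imp (fun h => ⟨hγ, h⟩) fun h => ⟨hγ, h⟩
  rw [hcard] at k3
  have k4 : (Z * e.u * (Z * e.y) : ℝ) ≤ #(Γ.filter (Hit 1 0)) + #(Γ.filter (Hit p q)) := by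
    exact_mod_cast k3
  have hZ' : (1 : ℝ) ≤ Z := by exact_mod_cast hZ1
  have hZ2' : (32 * F.Q ^ 2 * #T2 : ℝ) ≤ Z := by exact_mod_cast hZ2
  have hZ1' : (Z1 : ℝ) = 4 * F.Q ^ 2 * Z * e.u * e.y := by rw [hZ1d]; push_cast; ring
  generalize ∑' e', ind (e.Sub e') (ind (e'.Valid ∧ Bad e') e'.wt) = β1 at hb k1 k2
  have hβ2 : 0 ≤ ∑' e' : Pr, ind (e' ∉ T2) (ind (e'.Valid ∧ Bad e') e'.wt) :=
    tsum_nonneg fun e' => ind_nonneg _ (hnn _ e')
  generalize ∑' e' : Pr, ind (e' ∉ T2) (ind (e'.Valid ∧ Bad e') e'.wt) = β2 at hT2 k1 k2 hβ2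
  have m1 : 4 * (Z1 : ℝ) ^ 2 * β1 ≤ Z * e.u * (Z * e.y) / 8 := by
    calc 4 * (Z1 : ℝ) ^ 2 * β1 ≤ 4 * (Z1 : ℝ) ^ 2 * (ε * e.wt) := by gcongr
      _ = _ := by rw [hZ1', hε, Pr.wt]; field_simp; ring
  have m2 : (Z1 : ℝ) * #T2 ≤ Z * e.u * (Z * e.y) / 8 := by
    calc (Z1 : ℝ) * #T2 = Z * e.u * ((32 * F.Q ^ 2 * #T2) * e.y) / 8 := by rw [hZ1']; ring
      _ ≤ _ := by gcongr
  have m3 : 16 * (p : ℝ) ^ 2 * Z1 ^ 2 * β2 ≤ Z * e.u * (Z * e.y) / 8 := by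
    calc _ ≤ 16 * (p : ℝ) ^ 2 * Z1 ^ 2 * (1 / (2048 * (p : ℝ) ^ 2 * F.Q ^ 4 * e.u * e.y)) := by
          gcongr
      _ = _ := by rw [hZ1']; field_simp; ring
  have m4 : 16 * ((1 : ℕ) : ℝ) ^ 2 * Z1 ^ 2 * β2 ≤ 16 * (p : ℝ) ^ 2 * Z1 ^ 2 * β2 := by gcongr
  have m5 : (0 : ℝ) < Z * e.u * (Z * e.y) := by positivity
  linarith

end Ctx

end Pool.Agent.P.MP_a1177c_nt.Sign
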