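import Pool.Agent.P.MP_a1177c_nt.Sign.Bad
import Pool.Agent.P.MP_a1177c_nt.Sign.End

/-!
# The exceptional events and the divergence theorem
-/

namespace Pool.Agent.P.MP_a1177c_nt.Sign

open Finset Filter Topology

theorem card_le_rel {α β : Type*} (I : Finset β) (R : α → β → Prop) {c : ℝ}
    (hR : ∀ a ∈ I, ∀ S : Finset α, (∀ e ∈ S, R e a) → (#S : ℝ) ≤ c) (S : Finset α)
    (hS : ∀ e ∈ S, ∃ a ∈ I, R e a) : (#S : ℝ) ≤ #I * c := by
  classical
  have h1 : S ⊆ I.biUnion fun a => S.filter fun e => R e a := fun e he => by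
    obtain ⟨a, h1, h2⟩ := hS e he
    exact mem_biUnion.2 ⟨a, h1, mem_filter.2 ⟨he, h2⟩⟩
  have h2 := (Finset.card_le_card h1).trans Finset.card_biUnion_le
  calc (#S : ℝ) ≤ ∑ a ∈ I, (#(S.filter fun e => R e a) : ℝ) := by exact_mod_cast h2
    _ ≤ #I • c := Finset.sum_le_card_nsmul _ _ _ fun a ha =>
        hR a ha _ fun e he => (mem_filter.1 he).2
    _ = _ := nsmul_eq_mul _ _

theorem tau_le (d C1 : ℕ) {θ : ℝ} (hθ : 0 < θ) : ∃ C : ℝ, 0 ≤ C ∧ ∀ n A : ℕ, A ≠ 0 →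
    A ≤ C1 * (n + 1) ^ d → (#A.divisors : ℝ) ≤ C * ((n : ℝ) + 1) ^ θ := by
  obtain ⟨m, hm⟩ := exists_nat_ge (d / θ)
  obtain ⟨C0, hC0⟩ := divisor_bound (m + 1)
  refine ⟨C0 * C1 + 1, by positivity, fun n A hA h => ?_⟩
  have hn : (1 : ℝ) ≤ n + 1 := by linarith [Nat.cast_nonneg (α := ℝ) n]
  refine le_of_pow_le_pow_left₀ (n := m + 1) (by omega) (by positivity) ?_
  have h1 : ((#A.divisors : ℝ)) ^ (m + 1) ≤ C0 * (C1 * (n + 1) ^ d) := by
    exact_mod_cast (hC0 A hA).trans (Nat.mul_le_mul_left _ h)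
  have h2 : ((n : ℝ) + 1) ^ d ≤ (((n : ℝ) + 1) ^ θ) ^ (m + 1) := by
    rw [← Real.rpow_natCast, ← Real.rpow_mul_natCast (by positivity)]
    refine Real.rpow_le_rpow_of_exponent_le hn ?_
    rw [div_le_iff₀ hθ] at hm
    push_cast; nlinarith
  have h3 : (C0 * C1 : ℝ) ≤ (C0 * C1 + 1) ^ (m + 1) :=
    le_trans (by linarith) (le_self_pow₀ (by linarith [show (0 : ℝ) ≤ C0 * C1 by positivity])
      (by omega))
  rw [mul_pow]
  refine h1.trans ?_
  rw [← mul_assoc]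
  gcongr

namespace Ctx

variable {F : Ctx}

theorem N_inj {x y x' y' : ℕ} (hx : x ≤ x') (hy : y ≤ y') (h : F.N x y = F.N x' y') :
    x = x' ∧ y = y' := by
  have := F.ac_pos
  unfold N at h
  have h1 : x ^ 2 ≤ x' ^ 2 := by gcongr
  have h2 : F.b * x * y ≤ F.b * x' * y' := by gcongr
  have h3 : F.a * F.c * y ^ 2 ≤ F.a * F.c * y' ^ 2 := by gcongr
  exact ⟨Nat.pow_left_injective two_ne_zero (show x ^ 2 = x' ^ 2 by omega),
    Nat.pow_left_injective two_ne_zero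
      (Nat.eq_of_mul_eq_mul_left this (show F.a * F.c * y ^ 2 = F.a * F.c * y' ^ 2 by omega))⟩

theorem card_reps {T k K A : ℕ} (hk : 0 < k) (hK : k ≤ K) (S : Finset (ℕ × ℕ))
    (hS : ∀ w ∈ S, w.1 ≤ w.2 ∧ 0 < w.2 ∧ F.N w.1 w.2 = A ∧ (A : ℤ) ∣ T * w.2 - k * w.1) :
    #S ≤ 2 * K + 1 := by
  rcases S.eq_empty_or_nonempty with rfl | ⟨⟨x, y⟩, h0⟩
  · simp
  obtain ⟨a1, a2, a3, a4⟩ := hS _ h0
  dsimp only at a1 a2 a3 a4
  have a5 : y ^ 2 ≤ A := a3 ▸ (N_bounds a1).1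
  have hA : (0 : ℤ) < A := by exact_mod_cast (pow_pos a2 2).trans_le a5
  have e1 : 2 * K + 1 = #(Icc (-(K : ℤ)) K) := by simp; omega
  rw [e1]
  refine Finset.card_le_card_of_forall_subsingleton
    (fun w j => (k : ℤ) * (x * w.2 - y * w.1) = A * j) (fun w hw => ?_) ?_
  · obtain ⟨b1, b2, b3, b4⟩ := hS w hw
    have b5 : w.2 ^ 2 ≤ A := b3 ▸ (N_bounds b1).1
    obtain ⟨j, hj⟩ : (A : ℤ) ∣ k * (x * w.2 - y * w.1) := by
      have : (k : ℤ) * (x * w.2 - y * w.1) = y * (T * w.2 - k * w.1) - w.2 * (T * y - k * x) := by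
        ring
      rw [this]
      exact dvd_sub (b4.mul_left _) (a4.mul_left _)
    refine ⟨j, ?_, hj⟩
    have b6 : y * w.2 ≤ A := by nlinarith [sq_nonneg ((y : ℤ) - w.2)]
    have b7 : k * (x * w.2) ≤ A * K := by
      calc k * (x * w.2) ≤ K * (y * w.2) := by gcongr
        _ ≤ K * A := by gcongr
        _ = _ := mul_comm _ _
    have b8 : k * (y * w.1) ≤ A * K := by
      calc k * (y * w.1) ≤ K * (y * w.2) := by gcongr
        _ ≤ K * A := by gcongr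
        _ = _ := mul_comm _ _
    zify at b7 b8
    have c1 : (0 : ℤ) ≤ k * (x * w.2) := by positivity
    have c2 : (0 : ℤ) ≤ k * (y * w.1) := by positivity
    rw [mem_Icc]
    constructor
    · exact le_of_mul_le_mul_left (by linarith) hA
    · exact le_of_mul_le_mul_left (by linarith) hA
  · have key : ∀ w ∈ S, ∀ w' ∈ S, (x * w.2 - y * w.1 : ℤ) = x * w'.2 - y * w'.1 → w.2 ≤ w'.2 →
        w = w' := by
      intro w hw w' hw' h1 h2
      have h3 : w.1 ≤ w'.1 := by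
        have h4 : (x * w.2 : ℤ) ≤ x * w'.2 := by gcongr
        have h5 : (y * w.1 : ℤ) ≤ y * w'.1 := by linarith
        exact_mod_cast le_of_mul_le_mul_left h5 (by exact_mod_cast a2)
      have := N_inj h3 h2 ((hS w hw).2.2.1.trans (hS w' hw').2.2.1.symm)
      exact Prod.ext this.1 this.2
    rintro j - w ⟨hw, h1⟩ w' ⟨hw', h2⟩
    have h3 := mul_left_cancel₀ (by omega) (h1.trans h2.symm)
    exact (le_total w.2 w'.2).elim (key w hw w' hw' h3) fun h => (key w' hw' w hw h3.symm h).symm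

theorem T_mul {x1 y1 x2 y2 k : ℕ} (h : x1 * y2 = y1 * x2 + k) :
    (F.T x1 y1 x2 y2 * y2 - k * x2 : ℤ) = F.N x2 y2 * y1 := by
  have h' : (x1 * y2 : ℤ) = y1 * x2 + k := by exact_mod_cast h
  unfold T N
  push_cast
  linear_combination (x2 : ℤ) * h'

theorem card_fix {T k K i j i' j' : ℕ} (hk : 0 < k) (hK : k ≤ K) (hj : 1 ≤ j') (S : Finset Pr)
    (hS : ∀ e ∈ S, e.Valid ∧ F.T (e.X i j) (e.Y i j) (e.X i' j') (e.Y i' j') = T ∧
      e.X i j * e.Y i' j' = e.Y i j * e.X i' j' + k) :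
    (#S : ℝ) ≤ #(F.N T k).divisors * (2 * K + 1) := by
  have hN : F.N T k ≠ 0 := by
    have := F.ac_pos
    have : 0 < F.a * F.c * k ^ 2 := by positivity
    unfold N; omega
  refine card_le_rel _ (fun e A => e ∈ S ∧ F.N (e.X i' j') (e.Y i' j') = A)
    (fun A _ S' hS' => ?_) S fun e he => ⟨_, Nat.mem_divisors.2 ⟨?_, hN⟩, he, rfl⟩
  · have hpos : ∀ e ∈ S', 0 < e.Y i' j' := fun e he =>
      (Nat.zero_le _).trans_lt ((hS e (hS' e he).1).1.lt hj)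
    have h1 : Set.InjOn (fun e : Pr => (e.X i' j', e.Y i' j')) S' := by
      intro e he e' he' h
      simp only [Prod.mk.injEq] at h
      obtain ⟨a1, a2, a3⟩ := hS e (hS' e he).1
      obtain ⟨b1, b2, b3⟩ := hS e' (hS' e' he').1
      have c1 := T_mul (F := F) a3
      have c2 := T_mul (F := F) b3
      rw [a2, h.1, h.2] at c1
      rw [b2] at c2
      have c3 := hpos e' he'
      have c4 : 0 < F.N (e'.X i' j') (e'.Y i' j') :=
        (pow_pos c3 2).trans_le (N_bounds (b1.le _ _)).1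
      have c5 : e.Y i j = e'.Y i j := by
        exact_mod_cast mul_left_cancel₀ (by omega) (c1.symm.trans c2)
      have c6 : e.X i j = e'.X i j := by
        rw [h.1, h.2, c5, ← b3] at a3
        exact Nat.eq_of_mul_eq_mul_right c3 a3
      obtain ⟨δ, -, hd⟩ := b1.det
      have c7 : (i * j' - j * i' : ℤ) ≠ 0 := fun h0 => by
        have := hd i j i' j'
        rw [h0] at this
        zify at b3
        omega
      obtain ⟨d1, d2⟩ := h
      simp only [Pr.X, Pr.Y] at c5 c6 d1 d2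
      zify at c5 c6 d1 d2
      refine Pr.ext' ?_ ?_ ?_ ?_ <;> zify <;> apply mul_left_cancel₀ c7
      · linear_combination (j' : ℤ) * c6 - j * d1
      · linear_combination (j' : ℤ) * c5 - j * d2
      · linear_combination (i : ℤ) * d1 - i' * c6
      · linear_combination (i : ℤ) * d2 - i' * c5
    rw [← Finset.card_image_of_injOn h1]
    exact_mod_cast card_reps (F := F) (T := T) (A := A) hk hK _ fun w hw => by
      obtain ⟨e, he, rfl⟩ := mem_image.1 hw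
      obtain ⟨a1, a2, a3⟩ := hS e (hS' e he).1
      refine ⟨a1.le _ _, hpos e he, (hS' e he).2, ?_⟩
      rw [← a2, T_mul a3, (hS' e he).2]
      exact Dvd.intro _ rfl
  · rw [← (hS e he).2.1, N_T (hS e he).2.2]
    exact Dvd.intro_left _ rfl

variable (F) in
/-- The possible values of `T` attached to the argument `n`. -/
def TT (K n : ℕ) : Finset ℕ :=
  (Icc 1 K ×ˢ (F.f n).divisors).image (fun r => r.2 + F.a * r.1 * n) ∪
  (Icc 1 K ×ˢ (F.f n).divisors).image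
    (fun r => F.f (n - r.1 * r.2) / r.2 + F.a * r.1 * (n - r.1 * r.2))

theorem card_TT (K n : ℕ) : #(F.TT K n) ≤ 2 * K * #(F.f n).divisors := by
  refine (Finset.card_union_le _ _).trans ((add_le_add card_image_le card_image_le).trans ?_)
  rw [card_product, Nat.card_Icc]
  simp only [add_tsub_cancel_right]
  exact le_of_eq (by ring)

theorem le_of_mem_TT {K n T : ℕ} (h : T ∈ F.TT K n) : T ≤ F.f n + F.a * K * n := by
  simp only [TT, mem_union, mem_image, mem_product, mem_Icc] at h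
  rcases h with ⟨r, ⟨⟨-, a1⟩, a2⟩, rfl⟩ | ⟨r, ⟨⟨-, a1⟩, -⟩, rfl⟩
  · have := Nat.divisor_le a2
    gcongr
  · have h1 : F.f (n - r.1 * r.2) ≤ F.f n := by unfold f; gcongr <;> omega
    have := (Nat.div_le_self (F.f (n - r.1 * r.2)) r.2).trans h1
    gcongr; omega

theorem Wit.mem {K n T k : ℕ} (h : F.Wit T k n) (h1 : 1 ≤ k) (h2 : k ≤ K) : T ∈ F.TT K n := by
  obtain ⟨C', n1, C, a1, a2, a3 | a3⟩ := h
  · subst a3
    refine mem_union_left _ (mem_image.2 ⟨(k, C'), ?_, a2.symm⟩)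
    simp only [mem_product, mem_Icc, Nat.mem_divisors]
    exact ⟨⟨h1, h2⟩, Dvd.intro _ a1, (F.f_pos _).ne'⟩
  · refine mem_union_right _ (mem_image.2 ⟨(k, C), ?_, ?_⟩)
    · simp only [mem_product, mem_Icc, Nat.mem_divisors]
      refine ⟨⟨h1, h2⟩, ⟨C' + k * (2 * F.a * n1 + F.b) + F.a * k ^ 2 * C, ?_⟩, (F.f_pos _).ne'⟩
      have : F.f (n1 + k * C) = F.f n1 + k * C * (2 * F.a * n1 + F.b) + F.a * (k * C) ^ 2 := by
        unfold f; ring
      rw [a3, this, ← a1]; ring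
    · have hC : 0 < C := Nat.pos_of_mul_pos_left (a1 ▸ F.f_pos n1)
      simp only [a3, add_tsub_cancel_right]
      rw [← a1, Nat.mul_div_cancel _ hC, a2]

theorem card_fiber {θ : ℝ} (hθ : 0 < θ) (K L : ℕ) : ∃ C : ℝ, 0 ≤ C ∧ ∀ (n : ℕ) (S : Finset Pr),
    (∀ e ∈ S, e.Valid ∧ ∃ i j i' j' g T' k', i ≤ L ∧ j ≤ L ∧ i' ≤ L ∧ j' ≤ L ∧ 1 ≤ j' ∧
      F.T (e.X i j) (e.Y i j) (e.X i' j') (e.Y i' j') = g * T' ∧
      e.X i j * e.Y i' j' = e.Y i j * e.X i' j' + g * k' ∧ 0 < g * k' ∧ g * k' ≤ K ∧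
      F.Wit T' k' n) → (#S : ℝ) ≤ C * ((n : ℝ) + 1) ^ θ * ((n : ℝ) + 1) ^ θ := by
  obtain ⟨C1, h1, hC1⟩ := tau_le 2 (F.a + F.b + F.c) hθ
  obtain ⟨C2, h2, hC2⟩ := tau_le 4 (F.c0 * (K * (F.a + F.b + F.c + F.a * K + 1)) ^ 2) hθ
  refine ⟨2 * K * C1 * (K * K) * (L + 1) ^ 4 * (C2 * (2 * K + 1)), by positivity, fun n S hS => ?_⟩
  have hf : F.f n ≤ (F.a + F.b + F.c) * (n + 1) ^ 2 := by
    unfold f
    nlinarith [Nat.zero_le (F.a * n), Nat.zero_le (F.b * n), Nat.zero_le (F.c * n),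
      Nat.zero_le (F.b * n ^ 2), Nat.zero_le (F.c * n ^ 2)]
  have h3 := card_le_rel (F.TT K n ×ˢ (Icc 1 K ×ˢ Icc 1 K) ×ˢ
      (range (L + 1) ×ˢ range (L + 1)) ×ˢ (range (L + 1) ×ˢ range (L + 1)))
    (fun (e : Pr) a => a.2.1.1 * a.2.1.2 ≤ K ∧ 1 ≤ a.2.2.2.2 ∧ e.Valid ∧
      F.T (e.X a.2.2.1.1 a.2.2.1.2) (e.Y a.2.2.1.1 a.2.2.1.2) (e.X a.2.2.2.1 a.2.2.2.2)
        (e.Y a.2.2.2.1 a.2.2.2.2) = a.2.1.1 * a.1 ∧
      e.X a.2.2.1.1 a.2.2.1.2 * e.Y a.2.2.2.1 a.2.2.2.2 =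
        e.Y a.2.2.1.1 a.2.2.1.2 * e.X a.2.2.2.1 a.2.2.2.2 + a.2.1.1 * a.2.1.2)
    (c := C2 * ((n : ℝ) + 1) ^ θ * (2 * K + 1)) (by
      rintro ⟨T', ⟨g, k'⟩, ⟨i, j⟩, i', j'⟩ ha S' hS'
      rcases S'.eq_empty_or_nonempty with rfl | ⟨e0, h0⟩
      · simp only [card_empty, Nat.cast_zero]; positivity
      simp only [mem_product, mem_Icc] at ha
      obtain ⟨a1, ⟨⟨a2, a3⟩, a4, a5⟩, -⟩ := ha
      dsimp only at hS'
      have a6 : 0 < g * k' := Nat.mul_pos a2 a4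
      refine (card_fix a6 (hS' e0 h0).1 (hS' e0 h0).2.1 S' fun e he => (hS' e he).2.2).trans ?_
      gcongr
      refine hC2 n _ ?_ ?_
      · have := F.ac_pos
        have : 0 < F.a * F.c * (g * k') ^ 2 := by positivity
        unfold N; omega
      · have b1 : g * T' + g * k' ≤ K * (F.a + F.b + F.c + F.a * K + 1) * (n + 1) ^ 2 := by
          have b2 : n ≤ (n + 1) ^ 2 := by nlinarith
          calc g * T' + g * k' ≤ K * ((F.a + F.b + F.c) * (n + 1) ^ 2 + F.a * K * (n + 1) ^ 2) +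
                K * (n + 1) ^ 2 := by
                refine add_le_add ?_ ((hS' e0 h0).1.trans (Nat.le_mul_of_pos_right _ (by positivity)))
                gcongr
                exact (le_of_mem_TT a1).trans (by gcongr)
            _ = _ := by ring
        generalize g * T' = T at b1 ⊢
        generalize g * k' = k at b1 ⊢
        calc F.N T k ≤ (T + k) ^ 2 + F.b * (T + k) * (T + k) + F.a * F.c * (T + k) ^ 2 := by
              unfold N; gcongr <;> omega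
          _ = F.c0 * (T + k) ^ 2 := by unfold c0; ring
          _ ≤ F.c0 * (K * (F.a + F.b + F.c + F.a * K + 1) * (n + 1) ^ 2) ^ 2 := by gcongr
          _ = _ := by ring) S (fun e he => by
      obtain ⟨hv, i, j, i', j', g, T', k', a1, a2, a3, a4, a5, a6, a7, a8, a9, a10⟩ := hS e he
      have b1 : 1 ≤ g := Nat.pos_of_mul_pos_right a8
      have b2 : 1 ≤ k' := Nat.pos_of_mul_pos_left a8
      have b3 : g ≤ K := (Nat.le_mul_of_pos_right _ b2).trans a9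
      have b4 : k' ≤ K := (Nat.le_mul_of_pos_left _ b1).trans a9
      refine ⟨(T', (g, k'), (i, j), i', j'), ?_, a9, a5, hv, a6, a7⟩
      simp only [mem_product, mem_Icc, mem_range]
      exact ⟨a10.mem b2 b4, ⟨⟨b1, b3⟩, b2, b4⟩, ⟨by omega, by omega⟩, by omega, by omega⟩)
  refine h3.trans ?_
  simp only [card_product, Nat.card_Icc, card_range, add_tsub_cancel_right]
  have h4 : (#(F.TT K n) : ℝ) ≤ 2 * K * (C1 * ((n : ℝ) + 1) ^ θ) := by
    have : (#(F.TT K n) : ℝ) ≤ 2 * K * #(F.f n).divisors := by exact_mod_cast card_TT K n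
    exact this.trans (by gcongr; exact hC1 n _ (F.f_pos n).ne' hf)
  push_cast
  calc _ ≤ 2 * K * (C1 * ((n : ℝ) + 1) ^ θ) * (K * K * ((L + 1) * (L + 1) * ((L + 1) * (L + 1)))) *
        (C2 * ((n : ℝ) + 1) ^ θ * (2 * K + 1)) := by gcongr
    _ = _ := by ring

theorem weight_le {θ : ℝ} (hθ : 0 < θ) (hθ1 : θ ≤ 1) (K0 : ℕ) : ∀ᶠ u : ℕ in atTop, ∀ n ≤ F.Nb u,
    K0 * (tt u : ℝ) ^ 2 / u ^ 2 ≤ ((n : ℝ) + 1) ^ (θ - 1) := by
  obtain ⟨m, hm⟩ := exists_nat_ge (1 / θ)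
  filter_upwards [small_le ((F.MM + 10) * m), const_le K0,
    const_le (F.c2 F.KK * (2 * F.K2) ^ 2 + 1), eventually_ge_atTop 1] with u h1 h2 h3 hu n hn
  set G := 2 ^ ((F.MM + 10) * rr u ^ 2) with hG
  have hr := rr_pos u
  have a1 : K0 * tt u ^ 2 ≤ G := by
    calc K0 * tt u ^ 2 ≤ 2 ^ (rr u ^ 2) * (2 ^ (4 * rr u ^ 2)) ^ 2 := by
          gcongr; exact tt_le_two_pow u
      _ = 2 ^ ((0 + 9) * rr u ^ 2) := by rw [← pow_mul, ← pow_add]; congr 1; ring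
      _ ≤ G := by rw [hG]; gcongr <;> omega
  have a2 : n + 1 ≤ u ^ 2 * G := by
    have b1 : 1 ≤ F.BB u * u ^ 2 := Nat.mul_pos (by unfold BB; positivity) (by positivity)
    calc n + 1 ≤ F.c2 F.KK * F.BB u * (2 * F.K2 * u) ^ 2 + F.BB u * u ^ 2 := add_le_add hn b1
      _ = u ^ 2 * ((F.c2 F.KK * (2 * F.K2) ^ 2 + 1) * F.BB u) := by ring
      _ ≤ u ^ 2 * (2 ^ (rr u ^ 2) * (2 ^ (rr u ^ 2)) ^ (F.MM + 1)) := by
          unfold BB
          gcongr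
          · norm_num
          · exact Nat.le_self_pow two_ne_zero _
      _ = u ^ 2 * 2 ^ ((F.MM + 2) * rr u ^ 2) := by
          rw [← pow_mul, ← pow_add]; congr 2; ring
      _ ≤ _ := by rw [hG]; gcongr <;> omega
  have a3 : G ^ m ≤ u := by rw [hG, ← pow_mul, mul_right_comm]; exact h1
  have hG1 : (1 : ℝ) ≤ G := by exact_mod_cast Nat.one_le_two_pow
  have hu' : (1 : ℝ) ≤ u := by exact_mod_cast hu
  have a4 : (G : ℝ) ≤ (u : ℝ) ^ θ := by
    calc (G : ℝ) = G ^ (1 : ℝ) := (Real.rpow_one _).symm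
      _ ≤ G ^ (m * θ) := Real.rpow_le_rpow_of_exponent_le hG1 (by rwa [div_le_iff₀ hθ] at hm)
      _ = ((G : ℝ) ^ m) ^ θ := Real.rpow_natCast_mul (by positivity) _ _
      _ ≤ _ := by gcongr; exact_mod_cast a3
  have a1' : K0 * (tt u : ℝ) ^ 2 ≤ G := by exact_mod_cast a1
  have a2' : (n : ℝ) + 1 ≤ u ^ 2 * G := by exact_mod_cast a2
  refine le_trans ?_ (Real.rpow_le_rpow_of_nonpos (by positivity) a2' (by linarith))
  rw [Real.rpow_sub_one (by positivity), div_le_div_iff₀ (by positivity) (by positivity)]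
  have a5 : (G : ℝ) ^ 2 ≤ ((u : ℝ) ^ 2 * G) ^ θ := by
    calc (G : ℝ) ^ 2 ≤ ((u : ℝ) ^ θ) ^ 2 := by gcongr
      _ = ((u : ℝ) ^ 2) ^ θ := by
          rw [← Real.rpow_mul_natCast (by positivity), mul_comm,
            Real.rpow_natCast_mul (by positivity)]
      _ ≤ _ := by gcongr; exact le_mul_of_one_le_right (by positivity) hG1
  calc _ ≤ G * ((u : ℝ) ^ 2 * G) := by gcongr
    _ = G ^ 2 * (u : ℝ) ^ 2 := by ring
    _ ≤ _ := by gcongr

theorem summable_exc {σ : ℤ} {θ : ℝ} (hθ : 0 < θ) (hθ1 : θ ≤ 1)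
    (H : Summable fun n : ℕ => ind (lam (F.f n) ≠ σ) (((n : ℝ) + 1) ^ (3 * θ - 1))) (K0 : ℕ) :
    ∃ U : ℕ, Summable fun e : Pr => ind (e.Valid ∧ e.Bal K0 ∧ U ≤ e.u ∧ F.ExcE σ e) e.wt := by
  obtain ⟨C, hC0, hC⟩ := card_fiber (F := F) hθ F.KK F.K2
  obtain ⟨U, hU⟩ := eventually_atTop.1 (weight_le (F := F) hθ hθ1 K0)
  refine ⟨U, (summable_rel Pr.wt Pr.wt_nonneg _ _
    (fun e n => e.Bal K0 ∧ U ≤ e.u ∧ lam (F.f n) ≠ σ ∧ n ≤ F.Nb e.u ∧ e.Valid ∧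
      ∃ i j i' j' g T' k', i ≤ F.K2 ∧ j ≤ F.K2 ∧ i' ≤ F.K2 ∧ j' ≤ F.K2 ∧ 1 ≤ j' ∧
      F.T (e.X i j) (e.Y i j) (e.X i' j') (e.Y i' j') = g * T' ∧
      e.X i j * e.Y i' j' = e.Y i j * e.X i' j' + g * k' ∧ 0 < g * k' ∧ g * k' ≤ F.KK ∧
      F.Wit T' k' n)
    (H.mul_left C) (fun n => mul_nonneg hC0 (ind_nonneg _ (by positivity))) (fun n S hS => ?_)
    ?_).1⟩
  · rcases S.eq_empty_or_nonempty with rfl | ⟨e0, h0⟩
    · exact mul_nonneg hC0 (ind_nonneg _ (by positivity))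
    rw [ind_pos (hS e0 h0).2.2.1]
    calc ∑ e ∈ S, e.wt ≤ #S • ((n : ℝ) + 1) ^ (θ - 1) :=
          Finset.sum_le_card_nsmul _ _ _ fun e he =>
            (Pr.wt_le (hS e he).2.2.2.2.1 (hS e he).1).trans
              (hU _ (hS e he).2.1 n (hS e he).2.2.2.1)
      _ ≤ C * ((n : ℝ) + 1) ^ θ * ((n : ℝ) + 1) ^ θ * ((n : ℝ) + 1) ^ (θ - 1) := by
          rw [nsmul_eq_mul]
          gcongr
          exact hC n S fun e he => (hS e he).2.2.2.2
      _ = _ := by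
          rw [mul_assoc, mul_assoc, ← Real.rpow_add (by positivity),
            ← Real.rpow_add (by positivity)]
          congr 2; ring
  · rintro e ⟨a1, a2, a3, i, j, i', j', b1, b2, b3, b4, b5, n, g, T', k', c1, c2, c3⟩
    exact ⟨n, a2, a3, c1, c2, a1, i, j, i', j', g, T', k', b1, b2, b3, b4, b5, c3⟩

/-- The divergence theorem. -/
theorem not_summable (σ : ℤ) {θ : ℝ} (hθ : 0 < θ) (hθ1 : θ ≤ 1) :
    ¬ Summable fun n : ℕ => ind (lam (F.f n) ≠ σ) (((n : ℝ) + 1) ^ (3 * θ - 1)) := by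
  intro H
  refine endgame (F := F) fun K0 => ?_
  obtain ⟨U1, h1⟩ := summable_exc hθ hθ1 H K0
  obtain ⟨U2, h2⟩ := summable_notR (F := F) K0
  obtain ⟨U3, h3⟩ := eventually_atTop.1 (tendsto_tt.eventually_ge_atTop (2 * F.KK * F.c0 * F.K2))
  refine ⟨max U1 (max U2 U3), Summable.of_nonneg_of_le (fun e => ind_nonneg _ e.wt_nonneg)
    (fun e => ?_) (h1.add h2)⟩
  have a1 := ind_nonneg (e.Valid ∧ e.Bal K0 ∧ U1 ≤ e.u ∧ F.ExcE σ e) e.wt_nonneg
  have a2 := ind_nonneg (e.Valid ∧ e.Bal K0 ∧ U2 ≤ e.u ∧ ¬ F.GoodR e) e.wt_nonneg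
  by_cases h : e.Valid ∧ e.Bal K0 ∧ max U1 (max U2 U3) ≤ e.u ∧ ¬ F.Good e
  · rw [ind_pos h]
    obtain ⟨b1, b2, b3, b4⟩ := h
    by_cases h4 : F.ExcE σ e
    · rw [ind_pos ⟨b1, b2, by omega, h4⟩]; linarith
    · rw [ind_pos (P := e.Valid ∧ e.Bal K0 ∧ U2 ≤ e.u ∧ ¬ F.GoodR e) ⟨b1, b2, by omega, fun h5 =>
        b4 (good_of b1 ((h3 _ (by omega)).trans (Nat.le_self_pow (by norm_num) _)) h5 h4)⟩]
      linarith
  · rw [ind_neg h]; linarith

end Ctx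

end Pool.Agent.P.MP_a1177c_nt.Sign
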