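import Mathlib

/-!
# The norm form, the Liouville function and the edge lemma
-/

namespace Pool.Agent.P.MP_a1177c_nt.Sign

open Finset

/-- The Liouville function. -/
def lam (n : ℕ) : ℤ := (-1) ^ ArithmeticFunction.cardFactors n

theorem lam_mul {m n : ℕ} (hm : m ≠ 0) (hn : n ≠ 0) : lam (m * n) = lam m * lam n := by
  unfold lam; rw [ArithmeticFunction.cardFactors_mul hm hn, pow_add]

theorem lam_mul_self (n : ℕ) : lam n * lam n = 1 := by
  unfold lam; rw [← pow_add, ← two_mul, pow_mul]; simp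

theorem lam_sq {n : ℕ} (hn : n ≠ 0) : lam (n ^ 2) = 1 := by rw [sq, lam_mul hn hn, lam_mul_self]

theorem lam_prime {p : ℕ} (hp : p.Prime) : lam p = -1 := by
  unfold lam; rw [ArithmeticFunction.cardFactors_apply_prime hp, pow_one]

theorem lam_eq_of_mul {m n : ℕ} (h : lam m * lam n = 1) : lam m = lam n := by
  calc lam m = lam m * (lam n * lam n) := by rw [lam_mul_self, mul_one]
    _ = lam n := by rw [← mul_assoc, h, one_mul]

theorem coprime_lift (i0 R j : ℕ) (hj : j ≠ 0) (h : Nat.Coprime i0 (Nat.gcd R j)) :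
    ∃ i, i ≡ i0 [MOD R] ∧ Nat.Coprime i j := by
  refine ⟨i0 + R * ∏ p ∈ j.primeFactors with ¬ p ∣ i0, p, ?_, ?_⟩
  · exact (Nat.modEq_iff_dvd' (Nat.le_add_right _ _)).2 (by simp) |>.symm
  · refine Nat.Coprime.symm (Nat.coprime_of_dvd fun p hp hpj hpi => ?_)
    by_cases h0 : p ∣ i0
    · have h1 := (Nat.dvd_add_right h0).1 hpi
      rcases (Nat.Prime.dvd_mul hp).1 h1 with h2 | h2
      · exact hp.one_lt.ne' (Nat.eq_one_of_dvd_coprimes h h0 (Nat.dvd_gcd h2 hpj))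
      · obtain ⟨q, hq, hpq⟩ := (Prime.dvd_finsetProd_iff hp.prime _).1 h2
        simp only [mem_filter, Nat.mem_primeFactors] at hq
        rw [(Nat.prime_dvd_prime_iff_eq hp hq.1.1).1 hpq] at h0
        exact hq.2 h0
    · apply h0
      refine (Nat.dvd_add_left (Dvd.dvd.mul_left ?_ R)).1 hpi
      exact dvd_prod_of_mem _ (mem_filter.2 ⟨Nat.mem_primeFactors.2 ⟨hp, hpj, hj⟩, h0⟩)

/-- A quadratic polynomial with positive coefficients and non-square discriminant. -/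
structure Ctx where
  a : ℕ
  b : ℕ
  c : ℕ
  ha : 0 < a
  hb : 0 < b
  hc : 0 < c
  hD : ¬ IsSquare ((b : ℤ) ^ 2 - 4 * a * c)

namespace Ctx

variable (F : Ctx)

/-- Discriminant. -/
def D : ℤ := (F.b : ℤ) ^ 2 - 4 * F.a * F.c
/-- The basic modulus. -/
def Q : ℕ := 4 * F.a * F.D.natAbs
/-- The norm form. -/
def N (x y : ℕ) : ℕ := x ^ 2 + F.b * x * y + F.a * F.c * y ^ 2
/-- The polynomial. -/
def f (n : ℕ) : ℕ := F.a * n ^ 2 + F.b * n + F.c
/-- The rational part of the product of the conjugate of one vector with another. -/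
def T (x1 y1 x2 y2 : ℕ) : ℕ := x1 * x2 + F.b * y1 * x2 + F.a * F.c * y1 * y2
/-- A constant. -/
def c0 : ℕ := 1 + F.b + F.a * F.c
/-- The Jacobi symbol of the discriminant. -/
def J (n : ℕ) : ℤ := jacobiSym F.D n

theorem D_ne : F.D ≠ 0 := fun h => F.hD (by rw [show (F.b : ℤ) ^ 2 - 4 * F.a * F.c = 0 from h]; simp)

theorem Q_pos : 0 < F.Q := by
  have := F.ha
  have := Int.natAbs_pos.2 F.D_ne
  unfold Q; positivity

theorem two_dvd_Q : 2 ∣ F.Q := ⟨2 * F.a * F.D.natAbs, by unfold Q; ring⟩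
theorem a_dvd_Q : F.a ∣ F.Q := ⟨4 * F.D.natAbs, by unfold Q; ring⟩
theorem D4_dvd_Q : 4 * F.D.natAbs ∣ F.Q := ⟨F.a, by unfold Q; ring⟩
theorem D_dvd_Q : F.D.natAbs ∣ F.Q := ⟨4 * F.a, by unfold Q; ring⟩

theorem f_pos (n : ℕ) : 0 < F.f n := by have := F.hc; unfold f; omega

theorem ac_pos : 0 < F.a * F.c := Nat.mul_pos F.ha F.hc

variable {F}

theorem odd_of_coprime {m : ℕ} (h : m.Coprime F.Q) : Odd m :=
  Nat.Coprime.odd_of_right (h.coprime_dvd_right F.two_dvd_Q)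

theorem ne_zero_of_coprime {m : ℕ} (h : m.Coprime F.Q) : m ≠ 0 := (odd_of_coprime h).pos.ne'

theorem J_mul {m n : ℕ} (hm : m ≠ 0) (hn : n ≠ 0) : F.J (m * n) = F.J m * F.J n :=
  jacobiSym.mul_right' _ hm hn

theorem J_one : F.J 1 = 1 := jacobiSym.one_right _

theorem coprime_of_modEq {m n R : ℕ} (h : m ≡ n [MOD R]) (hm : m.Coprime R) : n.Coprime R := by
  unfold Nat.Coprime at *
  rw [← h.gcd_eq]; exact hm

theorem J_congr {m n : ℕ} (h : m ≡ n [MOD F.Q]) (hm : m.Coprime F.Q) : F.J m = F.J n := by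
  unfold J
  rw [jacobiSym.mod_right _ (odd_of_coprime hm),
    jacobiSym.mod_right _ (odd_of_coprime (coprime_of_modEq h hm)), h.of_dvd F.D4_dvd_Q]

theorem J_sq {m : ℕ} (hm : m.Coprime F.Q) : F.J m * F.J m = 1 := by
  rw [← sq]
  exact jacobiSym.sq_one (by
    have := (hm.coprime_dvd_right F.D_dvd_Q).symm
    simpa [Int.gcd] using this)

theorem J_prime {p x y : ℕ} (hp : p.Prime) (hQ : p.Coprime F.Q) (hxy : x.Coprime y)
    (h : p ∣ F.N x y) : F.J p = 1 := by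
  have := Fact.mk hp
  have hg : F.D.gcd p = 1 := by
    have := (hQ.coprime_dvd_right F.D_dvd_Q).symm
    simpa [Int.gcd] using this
  rcases jacobiSym.eq_one_or_neg_one hg with h1 | h1
  · exact h1
  · exfalso
    have h2 : (p : ℤ) ∣ (2 * x + F.b * y) ^ 2 - F.D * y ^ 2 := by
      have : ((2 * x + F.b * y) ^ 2 - F.D * y ^ 2 : ℤ) = 4 * (F.N x y : ℕ) := by
        unfold D N; push_cast; ring
      rw [this]
      exact Dvd.dvd.mul_left (by exact_mod_cast h) _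
    obtain ⟨h3, h4⟩ := jacobiSym.prime_dvd_of_eq_neg_one h1 h2
    have h5 : p ∣ y := by exact_mod_cast h4
    have h6 : p ∣ x ^ 2 := by
      have : F.N x y = x ^ 2 + y * (F.b * x + F.a * F.c * y) := by unfold N; ring
      rw [this] at h
      exact (Nat.dvd_add_left (Dvd.dvd.mul_right h5 _)).1 h
    exact hp.one_lt.ne' (Nat.eq_one_of_dvd_coprimes hxy (hp.dvd_of_dvd_pow h6) h5)

theorem J_of_primes {g : ℕ} (hg : g ≠ 0) (h : ∀ p, p.Prime → p ∣ g → F.J p = 1) : F.J g = 1 := by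
  induction g using induction_on_primes with
  | zero => exact absurd rfl hg
  | one => exact J_one
  | prime_mul p n hp ih =>
    have hn : n ≠ 0 := fun h0 => hg (by rw [h0, mul_zero])
    rw [J_mul hp.ne_zero hn, h p hp (Dvd.intro _ rfl),
      ih hn fun q hq hqn => h q hq (Dvd.dvd.mul_left hqn _), one_mul]

variable (F) in
/-- The vertices used in the argument. -/
def IsV (s : ℤ) (x y : ℕ) : Prop := x.Coprime y ∧ F.Q ∣ y ∧ x.Coprime F.Q ∧ F.J x = s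

theorem IsV.N_coprime {s : ℤ} {x y : ℕ} (h : F.IsV s x y) : (F.N x y).Coprime F.Q := by
  obtain ⟨_, ⟨t, rfl⟩, h3, _⟩ := h
  have : F.N x (F.Q * t) = x ^ 2 + F.Q * (F.b * x * t + F.a * F.c * F.Q * t ^ 2) := by
    unfold N; ring
  rw [this, Nat.coprime_add_mul_left_left]
  exact h3.pow_left _

theorem IsV.J_prime {s : ℤ} {x y p : ℕ} (h : F.IsV s x y) (hp : p.Prime) (hd : p ∣ F.N x y) :
    F.J p = 1 :=
  Ctx.J_prime hp (h.N_coprime.coprime_dvd_left hd) h.1 hd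

variable (F) in
/-- `A` has divisors of controlled size in every admissible class modulo `M`. -/
def Rich (M W B A : ℕ) : Prop :=
  ∀ h : ℕ, h.Coprime M → F.J h = 1 → ∃ e : ℕ, e ∣ A ∧ e ≡ h [MOD M] ∧ W ≤ e ∧ e ≤ B

variable (F) in
/-- `n` is one of the two arguments of `f` used for the edge `T + k ω`. -/
def Wit (T k n : ℕ) : Prop :=
  ∃ C' n1 C : ℕ, C' * C = F.f n1 ∧ T = C' + F.a * k * n1 ∧ (n = n1 ∨ n = n1 + k * C)

theorem edge_core {T k C' n1 : ℕ} (hT : T = C' + F.a * k * n1) (hd : C' ∣ F.N T k)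
    (hc : C'.Coprime (F.a * k)) :
    ∃ C, C' * C = F.f n1 ∧ lam (F.N T k) = lam (F.f n1) * lam (F.f (n1 + k * C)) := by
  have e1 : F.N T k = C' * (C' + k * (2 * F.a * n1 + F.b)) + F.a * k * (k * F.f n1) := by
    rw [hT]; unfold N f; ring
  have h1 : C' ∣ F.f n1 := by
    rw [e1] at hd
    have h2 := hc.dvd_of_dvd_mul_left ((Nat.dvd_add_right (Dvd.intro _ rfl)).1 hd)
    exact (Nat.Coprime.coprime_mul_left_right hc).dvd_of_dvd_mul_left h2
  obtain ⟨C, hC⟩ := h1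
  refine ⟨C, hC.symm, ?_⟩
  set E := C' + k * (2 * F.a * n1 + F.b) + F.a * k ^ 2 * C with hE
  have e2 : F.N T k = C' * E := by rw [e1, hC, hE]; ring
  have e3 : F.f (n1 + k * C) = C * E := by
    have : F.f (n1 + k * C) = F.f n1 + k * C * (2 * F.a * n1 + F.b) + F.a * (k * C) ^ 2 := by
      unfold f; ring
    rw [this, hC, hE]; ring
  have h0 := (F.f_pos n1).ne'
  have h3 := (F.f_pos (n1 + k * C)).ne'
  rw [hC] at h0
  rw [e3] at h3
  have hC' : C' ≠ 0 := left_ne_zero_of_mul h0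
  have hC0 : C ≠ 0 := right_ne_zero_of_mul h0
  have hE0 : E ≠ 0 := right_ne_zero_of_mul h3
  rw [e2, e3, hC, lam_mul hC' hE0, lam_mul hC' hC0, lam_mul hC0 hE0]
  linear_combination (-(lam C' * lam E)) * lam_mul_self C

variable (F) in
/-- A constant. -/
def c2 (K : ℕ) : ℕ := F.c0 + K ^ 3 * (F.a + F.b + F.c) * F.c0 ^ 2

theorem edge_abs {σ : ℤ} {T k A1 A2 y1 y2 K M W B Ym : ℕ} (hk : 0 < k) (hkK : k ≤ K)
    (hM : F.Q * K.factorial ∣ M) (hM0 : M ≠ 0) (hN : F.N T k = A1 * A2)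
    (hT1 : y1 * y2 ≤ T) (hT2 : T ≤ F.c0 * y1 * y2) (hA1 : y2 ^ 2 ≤ A2) (hA2 : A2 ≤ F.c0 * y2 ^ 2)
    (hy1 : 0 < y1) (hy2 : 0 < y2) (hY1 : y1 ≤ Ym) (hY2 : y2 ≤ Ym)
    (hTQ : T.Coprime F.Q) (hJT : F.J T = 1)
    (hAQ : (A1 * A2).Coprime F.Q) (hJ : ∀ p, p.Prime → p ∣ A1 * A2 → F.J p = 1)
    (hR : F.Rich M W B A2) (hW : K * F.c0 * y2 ≤ W * y1) :
    lam A1 = lam A2 ∨ ∃ n g T' k', lam (F.f n) ≠ σ ∧ n ≤ F.c2 K * B * Ym ^ 2 ∧ T = g * T' ∧
      k = g * k' ∧ F.Wit T' k' n := by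
  have hA0 : A1 * A2 ≠ 0 := ne_zero_of_coprime hAQ
  have hA10 : A1 ≠ 0 := left_ne_zero_of_mul hA0
  have hA20 : A2 ≠ 0 := right_ne_zero_of_mul hA0
  have hJ' : ∀ g, g ∣ A1 * A2 → F.J g = 1 := fun g hg =>
    J_of_primes (ne_zero_of_dvd_ne_zero hA0 hg) fun p hp hpg => hJ p hp (hpg.trans hg)
  obtain ⟨g, T', k', hg, hcop, hT, hk'⟩ :
      ∃ g T' k', 0 < g ∧ T'.Coprime k' ∧ T = g * T' ∧ k = g * k' := by
    have h0 : 0 < Nat.gcd T k := Nat.gcd_pos_of_pos_right _ hk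
    exact ⟨Nat.gcd T k, T / Nat.gcd T k, k / Nat.gcd T k, h0, Nat.coprime_div_gcd_div_gcd h0,
      (Nat.mul_div_cancel' (Nat.gcd_dvd_left _ _)).symm,
      (Nat.mul_div_cancel' (Nat.gcd_dvd_right _ _)).symm⟩
  have hk'0 : 0 < k' := Nat.pos_of_mul_pos_left (hk' ▸ hk)
  have hgK : g ≤ K := (Nat.le_of_dvd hk ⟨k', hk'⟩).trans hkK
  have hk'K : k' ≤ K := (Nat.le_of_dvd hk ⟨g, by rw [hk', mul_comm]⟩).trans hkK
  have hNg : g ^ 2 * F.N T' k' = A1 * A2 := by rw [← hN, hT, hk']; unfold N; ring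
  have hT'Q : T'.Coprime F.Q := hTQ.coprime_dvd_left ⟨g, by rw [hT, mul_comm]⟩
  have hT'0 : T' ≠ 0 := ne_zero_of_coprime hT'Q
  have hJT' : F.J T' = 1 := by
    have h1 : F.J g = 1 := hJ' g ⟨g * F.N T' k', by rw [← hNg]; ring⟩
    rw [hT, J_mul hg.ne' hT'0, h1, one_mul] at hJT
    exact hJT
  -- the balanced divisor
  obtain ⟨h0, C0, hh0, hC0, hC0d⟩ : ∃ h0 C0, h0 ∣ g ^ 2 ∧ A2 = h0 * C0 ∧ C0 ∣ F.N T' k' := by
    have hg1 : 0 < Nat.gcd (g ^ 2) A1 := Nat.gcd_pos_of_pos_right _ (Nat.pos_of_ne_zero hA10)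
    obtain ⟨h0, hh0⟩ := Nat.gcd_dvd_left (g ^ 2) A1
    obtain ⟨A1', hA1'⟩ := Nat.gcd_dvd_right (g ^ 2) A1
    have hc := Nat.coprime_div_gcd_div_gcd hg1
    set g1 := Nat.gcd (g ^ 2) A1
    rw [show g ^ 2 / g1 = h0 from Nat.div_eq_of_eq_mul_right hg1 hh0,
      show A1 / g1 = A1' from Nat.div_eq_of_eq_mul_right hg1 hA1'] at hc
    have h1 : h0 * F.N T' k' = A1' * A2 := by
      apply Nat.eq_of_mul_eq_mul_left hg1
      rw [← mul_assoc, ← hh0, hNg, ← mul_assoc, ← hA1']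
    obtain ⟨C0, hC0⟩ : h0 ∣ A2 := hc.dvd_of_dvd_mul_left ⟨_, h1.symm⟩
    have hh00 : 0 < h0 := Nat.pos_of_ne_zero (left_ne_zero_of_mul (hC0 ▸ hA20))
    refine ⟨h0, C0, ⟨g1, by rw [hh0, mul_comm]⟩, hC0, A1', ?_⟩
    apply Nat.eq_of_mul_eq_mul_left hh00
    rw [h1, hC0]; ring
  have hh00 : 0 < h0 := Nat.pos_of_ne_zero (left_ne_zero_of_mul (hC0 ▸ hA20))
  have hC0A : C0 ∣ A1 * A2 := Dvd.dvd.mul_left ⟨h0, by rw [hC0, mul_comm]⟩ _
  have hC0k : C0.Coprime k' := by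
    refine Nat.Coprime.coprime_dvd_left hC0d ?_
    have : F.N T' k' = T' ^ 2 + k' * (F.b * T' + F.a * F.c * k') := by unfold N; ring
    rw [this, Nat.coprime_add_mul_left_left]
    exact hcop.pow_left _
  set R := F.Q * k' with hR'
  have hR0 : R ≠ 0 := Nat.mul_ne_zero F.Q_pos.ne' hk'0.ne'
  have hRM : R ∣ M := (Nat.mul_dvd_mul_left _ (Nat.dvd_factorial hk'0 hk'K)).trans hM
  have hQR : F.Q ∣ R := Dvd.intro _ rfl
  have hT'R : T'.Coprime R := Nat.Coprime.mul_right hT'Q hcop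
  have hC0Q : C0.Coprime F.Q := hAQ.coprime_dvd_left hC0A
  have hC0R : C0.Coprime R := Nat.Coprime.mul_right hC0Q hC0k
  obtain ⟨h, hh1, hh2⟩ : ∃ h, T' * h ≡ C0 [MOD R] ∧ h.Coprime M := by
    obtain ⟨m, _, hm⟩ := Nat.exists_mul_mod_eq_of_coprime C0 hT'R hR0
    have hm' : T' * m ≡ C0 [MOD R] := hm
    have h1 : m.Coprime R := (coprime_of_modEq hm'.symm hC0R).coprime_mul_left
    obtain ⟨i, hi1, hi2⟩ := coprime_lift m R M hM0 (h1.coprime_dvd_right (Nat.gcd_dvd_left _ _))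
    exact ⟨i, (hi1.mul_left _).trans hm', hi2⟩
  have hhQ : h.Coprime F.Q := hh2.coprime_dvd_right (hQR.trans hRM)
  have hJh : F.J h = 1 := by
    have h1 := J_congr (hh1.of_dvd hQR).symm hC0Q
    rw [hJ' C0 hC0A, J_mul hT'0 (ne_zero_of_coprime hhQ), hJT', one_mul] at h1
    exact h1.symm
  obtain ⟨e, he1, he2, he3, he4⟩ := hR h hh2 hJh
  have heM : e.Coprime M := coprime_of_modEq he2.symm hh2
  have hgM : g ∣ M := ((Nat.dvd_factorial hg hgK).trans (Dvd.intro_left _ rfl)).trans hM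
  have heh0 : e.Coprime h0 := ((heM.coprime_dvd_right hgM).pow_right 2).coprime_dvd_right hh0
  obtain ⟨C', hC'⟩ : e ∣ C0 := heh0.dvd_of_dvd_mul_left (hC0 ▸ he1)
  have he0 : 0 < e := Nat.pos_of_ne_zero
    (ne_zero_of_coprime (heM.coprime_dvd_right (hQR.trans hRM)))
  have hcong : C' ≡ T' [MOD R] := by
    have h1 : h * C' ≡ h * T' [MOD R] := by
      calc h * C' ≡ e * C' [MOD R] := ((he2.of_dvd hRM).mul_right _).symm
        _ = C0 := hC'.symm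
        _ ≡ T' * h [MOD R] := hh1.symm
        _ = h * T' := mul_comm _ _
    exact Nat.ModEq.cancel_left_of_coprime (hh2.coprime_dvd_right hRM).symm h1
  have hle : C' ≤ T' := by
    have h1 : C' * (K * F.c0 * y2) * y2 ≤ T' * (K * F.c0 * y2) * y2 := by
      calc C' * (K * F.c0 * y2) * y2 ≤ C' * (W * y1) * y2 := by gcongr
        _ ≤ C' * (e * y1) * y2 := by gcongr
        _ = (1 * (e * C')) * (y1 * y2) := by ring
        _ ≤ (h0 * (e * C')) * T := by gcongr; exact hh00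
        _ = A2 * (g * T') := by rw [← hC', ← hC0, ← hT]
        _ ≤ F.c0 * y2 ^ 2 * (K * T') := by gcongr
        _ = _ := by ring
    have hpos : 0 < K * F.c0 * y2 := by
      have : 0 < F.c0 := by unfold c0; omega
      have : 0 < K := by omega
      positivity
    exact Nat.le_of_mul_le_mul_right (Nat.le_of_mul_le_mul_right h1 hy2) hpos
  have hak : F.a * k' ∣ R := Nat.mul_dvd_mul_right F.a_dvd_Q _
  obtain ⟨n1, hn1⟩ := (Nat.modEq_iff_dvd' hle).1 (hcong.of_dvd hak)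
  have hTn : T' = C' + F.a * k' * n1 := by omega
  have hC'd : C' ∣ C0 := ⟨e, by rw [hC', mul_comm]⟩
  obtain ⟨C, hC, hlam⟩ := edge_core hTn (hC'd.trans hC0d)
    ((hC0R.coprime_dvd_left hC'd).coprime_dvd_right hak)
  have hB : 1 ≤ B := he0.trans_le he4
  have hn1T : n1 ≤ T := by
    have h1 : 1 * n1 ≤ F.a * k' * n1 := by
      gcongr; exact Nat.mul_pos F.ha hk'0
    have h2 : 1 * T' ≤ g * T' := by gcongr; exact hg
    omega
  have hb1 : n1 ≤ F.c0 * B * Ym ^ 2 := by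
    calc n1 ≤ F.c0 * y1 * y2 := hn1T.trans hT2
      _ = F.c0 * 1 * (y1 * y2) := by ring
      _ ≤ F.c0 * B * (Ym * Ym) := by gcongr
      _ = _ := by ring
  have hb2 : C ≤ K ^ 2 * (F.a + F.b + F.c) * F.c0 ^ 2 * B * Ym ^ 2 := by
    have hT0 : 1 ≤ T := (Nat.mul_pos hy1 hy2).trans_le hT1
    have h1 : F.f n1 ≤ (F.a + F.b + F.c) * T ^ 2 := by
      unfold f
      have h2 : n1 ≤ T ^ 2 := hn1T.trans (Nat.le_self_pow (by norm_num) T)
      have h3 : 1 ≤ T ^ 2 := Nat.one_le_pow _ _ hT0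
      calc F.a * n1 ^ 2 + F.b * n1 + F.c ≤ F.a * T ^ 2 + F.b * T ^ 2 + F.c * T ^ 2 := by
            gcongr
            exact Nat.le_mul_of_pos_right _ h3
        _ = _ := by ring
    have hh0K : h0 ≤ K ^ 2 := (Nat.le_of_dvd (by positivity) hh0).trans (by gcongr)
    refine Nat.le_of_mul_le_mul_right (c := y2 ^ 2) ?_ (by positivity)
    calc C * y2 ^ 2 ≤ C * (h0 * (e * C')) := by rw [← hC', ← hC0]; gcongr
      _ = h0 * e * F.f n1 := by rw [← hC]; ring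
      _ ≤ K ^ 2 * B * ((F.a + F.b + F.c) * (F.c0 * Ym * y2) ^ 2) := by
          gcongr
          refine h1.trans ?_
          gcongr
          exact hT2.trans (by gcongr)
      _ = _ := by ring
  by_cases h1 : lam (F.f n1) = σ
  · by_cases h2 : lam (F.f (n1 + k' * C)) = σ
    · left
      apply lam_eq_of_mul
      have hN0 : F.N T' k' ≠ 0 := right_ne_zero_of_mul (hNg ▸ hA0)
      rw [← lam_mul hA10 hA20, ← hNg, lam_mul (by positivity) hN0, lam_sq hg.ne', hlam, h2, ← h1,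
        one_mul, lam_mul_self]
    · refine Or.inr ⟨_, g, T', k', h2, ?_, hT, hk', C', n1, C, hC, hTn, Or.inr rfl⟩
      calc n1 + k' * C ≤ F.c0 * B * Ym ^ 2 +
            K * (K ^ 2 * (F.a + F.b + F.c) * F.c0 ^ 2 * B * Ym ^ 2) := by gcongr
        _ = _ := by unfold c2; ring
  · refine Or.inr ⟨_, g, T', k', h1, hb1.trans ?_, hT, hk', C', n1, C, hC, hTn, Or.inl rfl⟩
    unfold c2
    gcongr
    exact Nat.le_add_right _ _

variable (F) in
/-- The exceptional event for an ordered pair of vectors. -/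
def Exc (σ : ℤ) (K Nb x1 y1 x2 y2 : ℕ) : Prop :=
  ∃ n g T' k', lam (F.f n) ≠ σ ∧ n ≤ Nb ∧ F.T x1 y1 x2 y2 = g * T' ∧
    x1 * y2 = y1 * x2 + g * k' ∧ 0 < g * k' ∧ g * k' ≤ K ∧ F.Wit T' k' n

theorem N_T {x1 y1 x2 y2 k : ℕ} (h : x1 * y2 = y1 * x2 + k) :
    F.N (F.T x1 y1 x2 y2) k = F.N x1 y1 * F.N x2 y2 := by
  have h' : (k : ℤ) = x1 * y2 - y1 * x2 := by
    have : (x1 * y2 : ℤ) = y1 * x2 + k := by exact_mod_cast h
    linarith
  zify
  unfold N T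
  push_cast
  rw [h']; ring

theorem N_bounds {x y : ℕ} (h : x ≤ y) : y ^ 2 ≤ F.N x y ∧ F.N x y ≤ F.c0 * y ^ 2 := by
  have := F.ac_pos
  unfold N c0
  constructor
  · have : 1 * y ^ 2 ≤ F.a * F.c * y ^ 2 := by gcongr; omega
    omega
  · calc x ^ 2 + F.b * x * y + F.a * F.c * y ^ 2 ≤ y ^ 2 + F.b * y * y + F.a * F.c * y ^ 2 := by
          gcongr
      _ = _ := by ring

theorem T_bounds {x1 y1 x2 y2 : ℕ} (h1 : x1 ≤ y1) (h2 : x2 ≤ y2) :
    y1 * y2 ≤ F.T x1 y1 x2 y2 ∧ F.T x1 y1 x2 y2 ≤ F.c0 * y1 * y2 := by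
  have := F.ac_pos
  unfold T c0
  constructor
  · have : 1 * y1 * y2 ≤ F.a * F.c * y1 * y2 := by gcongr; omega
    nlinarith [Nat.zero_le (x1 * x2), Nat.zero_le (F.b * y1 * x2)]
  · calc x1 * x2 + F.b * y1 * x2 + F.a * F.c * y1 * y2 ≤
          y1 * y2 + F.b * y1 * y2 + F.a * F.c * y1 * y2 := by gcongr
      _ = _ := by ring

theorem T_V {s : ℤ} {x1 y1 x2 y2 : ℕ} (h1 : F.IsV s x1 y1) (h2 : F.IsV s x2 y2) :
    (F.T x1 y1 x2 y2).Coprime F.Q ∧ F.J (F.T x1 y1 x2 y2) = 1 := by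
  obtain ⟨t, ht⟩ := h1.2.1
  have e : x1 * x2 ≡ F.T x1 y1 x2 y2 [MOD F.Q] := by
    have : F.T x1 y1 x2 y2 = x1 * x2 + F.Q * (F.b * t * x2 + F.a * F.c * t * y2) := by
      unfold T; rw [ht]; ring
    rw [this]
    exact (Nat.modEq_iff_dvd' (Nat.le_add_right _ _)).2 (by simp)
  have hc : (x1 * x2).Coprime F.Q := Nat.Coprime.mul_left h1.2.2.1 h2.2.2.1
  refine ⟨coprime_of_modEq e hc, ?_⟩
  rw [← J_congr e hc, J_mul (ne_zero_of_coprime h1.2.2.1) (ne_zero_of_coprime h2.2.2.1),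
    h2.2.2.2, ← h1.2.2.2, J_sq h1.2.2.1]

/-- The edge lemma. -/
theorem edge {σ s : ℤ} {x1 y1 x2 y2 K M W B Ym : ℕ} (h1 : F.IsV s x1 y1) (h2 : F.IsV s x2 y2)
    (hx1 : x1 ≤ y1) (hx2 : x2 ≤ y2) (hK1 : x1 * y2 ≤ y1 * x2 + K) (hK2 : y1 * x2 ≤ x1 * y2 + K)
    (hM : F.Q * K.factorial ∣ M) (hM0 : M ≠ 0) (hY1 : y1 ≤ Ym) (hY2 : y2 ≤ Ym)
    (hR : F.Rich M W B (F.N x2 y2)) (hW : K * F.c0 * y2 ≤ W * y1) :
    lam (F.N x1 y1) = lam (F.N x2 y2) ∨ F.Exc σ K (F.c2 K * B * Ym ^ 2) x1 y1 x2 y2 ∨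
      F.Exc σ K (F.c2 K * B * Ym ^ 2) x2 y2 x1 y1 := by
  have hy1 : 0 < y1 := (Nat.pos_of_ne_zero (ne_zero_of_coprime h1.2.2.1)).trans_le hx1
  have hy2 : 0 < y2 := (Nat.pos_of_ne_zero (ne_zero_of_coprime h2.2.2.1)).trans_le hx2
  have hAQ : (F.N x1 y1 * F.N x2 y2).Coprime F.Q := Nat.Coprime.mul_left h1.N_coprime h2.N_coprime
  have hJ : ∀ p, p.Prime → p ∣ F.N x1 y1 * F.N x2 y2 → F.J p = 1 := fun p hp hd =>
    ((Nat.Prime.dvd_mul hp).1 hd).elim (h1.J_prime hp) (h2.J_prime hp)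
  rcases lt_trichotomy (x1 * y2) (y1 * x2) with h | h | h
  · obtain ⟨k, hk⟩ := Nat.exists_eq_add_of_le h.le
    have hk' : x2 * y1 = y2 * x1 + k := by rw [mul_comm x2, mul_comm y2, hk]
    have hT := T_bounds (F := F) hx2 hx1
    rcases edge_abs (σ := σ) (k := k) (K := K) (by omega) (by omega) hM hM0
      ((N_T hk').trans (mul_comm _ _)) (by rw [mul_comm]; exact hT.1)
      (by rw [mul_right_comm]; exact hT.2) (N_bounds hx2).1 (N_bounds hx2).2 hy1 hy2 hY1 hY2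
      (T_V h2 h1).1 (T_V h2 h1).2 hAQ hJ hR hW with h3 | ⟨n, g, T', k', a1, a2, a3, a4, a5⟩
    · exact Or.inl h3
    · exact Or.inr (Or.inr ⟨n, g, T', k', a1, a2, a3, by rw [← a4, hk'], by omega, by omega, a5⟩)
  · left
    have e1 : x1 = x2 := Nat.dvd_antisymm
      (h1.1.dvd_of_dvd_mul_left ⟨y2, h.symm⟩)
      (h2.1.dvd_of_dvd_mul_right ⟨y1, by rw [h, mul_comm]⟩)
    have e2 : y1 = y2 := by
      rw [← e1, mul_comm y1] at h
      exact (Nat.eq_of_mul_eq_mul_left (Nat.pos_of_ne_zero (ne_zero_of_coprime h1.2.2.1)) h).symm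
    rw [e1, e2]
  · obtain ⟨k, hk⟩ := Nat.exists_eq_add_of_le h.le
    have hT := T_bounds (F := F) hx1 hx2
    rcases edge_abs (σ := σ) (k := k) (K := K) (by omega) (by omega) hM hM0
      (N_T hk) hT.1 hT.2 (N_bounds hx2).1 (N_bounds hx2).2 hy1 hy2 hY1 hY2
      (T_V h1 h2).1 (T_V h1 h2).2 hAQ hJ hR hW with h3 | ⟨n, g, T', k', a1, a2, a3, a4, a5⟩
    · exact Or.inl h3
    · exact Or.inr (Or.inl ⟨n, g, T', k', a1, a2, a3, by rw [← a4, hk], by omega, by omega, a5⟩)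

end Ctx

end Pool.Agent.P.MP_a1177c_nt.Sign
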