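import Mathlib

/-!
# An elementary bound for Kloosterman sums (fourth moment, exponent 3/4)
-/

namespace Pool.Agent.P.MP_a1177c_nt.Sign

open Finset

variable {u : ℕ} [NeZero u]

/-- The Kloosterman sum. -/
noncomputable def Kl (h k : ZMod u) : ℂ :=
  ∑ x : (ZMod u)ˣ, ZMod.stdAddChar (h * (x : ZMod u) + k * ((x⁻¹ : (ZMod u)ˣ) : ZMod u))

/-- The size of the annihilator of `c`. -/
def Kc (c : ZMod u) : ℕ := #{x : ZMod u | c * x = 0}

theorem one_le_Kc (c : ZMod u) : 1 ≤ Kc c :=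
  Finset.card_pos.2 ⟨0, by simp⟩

theorem Kc_le_gcd (c : ZMod u) : Kc c ≤ Nat.gcd c.val u := by
  have hu : 0 < u := NeZero.pos u
  set g := Nat.gcd c.val u with hg
  have hg0 : 0 < g := Nat.gcd_pos_of_pos_right _ hu
  obtain ⟨u', hu'⟩ : g ∣ u := Nat.gcd_dvd_right _ _
  obtain ⟨c', hc'⟩ : g ∣ c.val := Nat.gcd_dvd_left _ _
  have hu'0 : 0 < u' := by
    rcases Nat.eq_zero_or_pos u' with h | h
    · rw [h] at hu'; omega
    · exact h
  have hcop : Nat.Coprime c' u' := by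
    have h1 := Nat.coprime_div_gcd_div_gcd (m := c.val) (n := u) hg0
    rw [← hg] at h1
    have e1 : c.val / g = c' := by rw [hc', Nat.mul_div_cancel_left _ hg0]
    have e2 : u / g = u' := by
      conv_lhs => rw [hu']
      rw [Nat.mul_div_cancel_left _ hg0]
    rwa [e1, e2] at h1
  have key : ∀ x : ZMod u, c * x = 0 → u' ∣ x.val := by
    intro x hx
    have h1 : ((c.val * x.val : ℕ) : ZMod u) = 0 := by
      push_cast; simpa using hx
    rw [ZMod.natCast_eq_zero_iff] at h1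
    have h2 : g * u' ∣ g * (c' * x.val) := by
      rw [← hu', ← mul_assoc, ← hc']; exact h1
    exact hcop.symm.dvd_of_dvd_mul_left (Nat.dvd_of_mul_dvd_mul_left hg0 h2)
  unfold Kc
  rw [← Finset.card_range g]
  refine Finset.card_le_card_of_injOn (fun x => x.val / u') ?_ ?_
  · intro x _
    simp only [coe_range, Set.mem_Iio]
    rw [Nat.div_lt_iff_lt_mul hu'0, ← hu']
    exact ZMod.val_lt x
  · intro x hx y hy hxy
    simp only [coe_filter, mem_univ, true_and, Set.mem_ofPred_eq] at hx hy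
    apply ZMod.val_injective
    have h1 := Nat.div_mul_cancel (key x hx)
    have h2 := Nat.div_mul_cancel (key y hy)
    simp only at hxy
    rw [← h1, ← h2, hxy]

theorem card_fiber_le (c e : ZMod u) : #{x : ZMod u | c * x = e} ≤ Kc c := by
  rcases (univ.filter fun x : ZMod u => c * x = e).eq_empty_or_nonempty with h | ⟨x0, hx0⟩
  · rw [h]; simp
  · simp only [mem_filter, mem_univ, true_and] at hx0
    refine Finset.card_le_card_of_injOn (fun x => x - x0) ?_ ?_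
    · intro x hx
      simp only [coe_filter, mem_univ, true_and, Set.mem_ofPred_eq] at hx ⊢
      rw [mul_sub, hx, hx0, sub_self]
    · intro x _ y _ hxy
      simpa using hxy

theorem Kc_mul_le (a b : ZMod u) : Kc (a * b) ≤ Kc b * Kc a := by
  unfold Kc
  refine Finset.card_le_mul_card_image_of_maps_to (f := fun x => b * x) ?_ _ ?_
  · intro x hx
    simp only [mem_filter, mem_univ, true_and] at hx ⊢
    rw [← mul_assoc, hx]
  · intro y _
    refine le_trans (Finset.card_le_card ?_) (card_fiber_le b y)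
    intro x hx
    simp only [mem_filter, mem_univ, true_and] at hx ⊢
    exact hx.2

theorem Kc_two_le : Kc (2 : ZMod u) ≤ 2 := by
  refine (Kc_le_gcd _).trans ?_
  have : (2 : ZMod u).val = 2 % u := by
    rw [show (2 : ZMod u) = ((2 : ℕ) : ZMod u) by norm_cast, ZMod.val_natCast]
  rw [this, ← Nat.gcd_rec]
  exact Nat.le_of_dvd (by norm_num) (Nat.gcd_dvd_right _ _)

theorem gcd_le_sum (n : ℕ) : Nat.gcd n u ≤ ∑ g ∈ u.divisors, if g ∣ n then g else 0 := by
  have h : Nat.gcd n u ∈ u.divisors :=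
    Nat.mem_divisors.2 ⟨Nat.gcd_dvd_right _ _, NeZero.ne u⟩
  refine le_trans ?_ (Finset.single_le_sum (f := fun g => if g ∣ n then g else 0)
    (fun g _ => Nat.zero_le _) h)
  simp [Nat.gcd_dvd_left]

theorem sum_zmod_eq_range {M : Type*} [AddCommMonoid M] (F : ℕ → M) :
    ∑ c : ZMod u, F c.val = ∑ n ∈ range u, F n := by
  refine Finset.sum_bij (fun c _ => c.val) ?_ ?_ ?_ ?_
  · intro c _; exact mem_range.2 (ZMod.val_lt c)
  · intro a _ b _ h; exact ZMod.val_injective _ h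
  · intro n hn; exact ⟨(n : ZMod u), mem_univ _, ZMod.val_cast_of_lt (mem_range.1 hn)⟩
  · intro _ _; rfl

theorem sum_Kc_le : ∑ c : ZMod u, Kc c ≤ u * #u.divisors := by
  calc ∑ c : ZMod u, Kc c ≤ ∑ c : ZMod u, ∑ g ∈ u.divisors, if g ∣ c.val then g else 0 :=
        Finset.sum_le_sum fun c _ => (Kc_le_gcd c).trans (gcd_le_sum _)
    _ = ∑ g ∈ u.divisors, ∑ n ∈ range u, if g ∣ n then g else 0 := by
        rw [Finset.sum_comm]
        refine Finset.sum_congr rfl fun g _ => ?_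
        exact sum_zmod_eq_range (fun n => if g ∣ n then g else 0)
    _ ≤ ∑ _g ∈ u.divisors, u := by
        refine Finset.sum_le_sum fun g hg => ?_
        obtain ⟨m, hm⟩ := (Nat.mem_divisors.1 hg).1
        have hg0 : 0 < g := Nat.pos_of_mem_divisors hg
        rw [← Finset.sum_filter, Finset.sum_const, smul_eq_mul]
        have : #{n ∈ range u | g ∣ n} ≤ m := by
          rw [← Finset.card_range m]
          refine Finset.card_le_card_of_injOn (fun n => n / g) ?_ ?_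
          · intro n hn
            simp only [coe_filter, mem_range, Set.mem_ofPred_eq] at hn
            simp only [coe_range, Set.mem_Iio]
            rw [Nat.div_lt_iff_lt_mul hg0, mul_comm, ← hm]; exact hn.1
          · intro a ha b hb hab
            simp only [coe_filter, mem_range, Set.mem_ofPred_eq] at ha hb
            have h1 := Nat.div_mul_cancel ha.2
            have h2 := Nat.div_mul_cancel hb.2
            simp only at hab
            rw [← h1, ← h2, hab]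
        calc _ ≤ m * g := Nat.mul_le_mul_right _ this
          _ = u := by rw [hm, mul_comm]
    _ = u * #u.divisors := by rw [Finset.sum_const, smul_eq_mul, mul_comm]

theorem sum_char (c : ZMod u) :
    ∑ h : ZMod u, ZMod.stdAddChar (h * c) = if c = 0 then (u : ℂ) else 0 := by
  rw [AddChar.sum_mulShift c (ZMod.isPrimitive_stdAddChar u), ZMod.card]
  split_ifs <;> simp

theorem parseval {ι : Type*} [Fintype ι] [DecidableEq ι] (A B : ι → ZMod u) :
    ∑ h : ZMod u, ∑ k : ZMod u, ‖∑ i, ZMod.stdAddChar (h * A i + k * B i)‖ ^ 2 =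
      (u : ℝ) ^ 2 * #{q : ι × ι | A q.1 = A q.2 ∧ B q.1 = B q.2} := by
  have key : ∀ h k : ZMod u, ((‖∑ i, ZMod.stdAddChar (h * A i + k * B i)‖ ^ 2 : ℝ) : ℂ) =
      ∑ q : ι × ι, ZMod.stdAddChar (h * (A q.1 - A q.2)) *
        ZMod.stdAddChar (k * (B q.1 - B q.2)) := by
    intro h k
    rw [Complex.ofReal_pow, ← Complex.mul_conj', map_sum, Finset.sum_mul_sum,
      Fintype.sum_prod_type]
    refine Finset.sum_congr rfl fun i _ => Finset.sum_congr rfl fun j _ => ?_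
    rw [← AddChar.map_neg_eq_conj, ← AddChar.map_add_eq_mul, ← AddChar.map_add_eq_mul]
    congr 1; ring
  apply Complex.ofReal_injective
  push_cast
  simp only [← Complex.ofReal_pow, key]
  calc ∑ h : ZMod u, ∑ k : ZMod u, ∑ q : ι × ι, ZMod.stdAddChar (h * (A q.1 - A q.2)) *
        ZMod.stdAddChar (k * (B q.1 - B q.2))
      = ∑ q : ι × ι, (∑ h : ZMod u, ZMod.stdAddChar (h * (A q.1 - A q.2))) *
        ∑ k : ZMod u, ZMod.stdAddChar (k * (B q.1 - B q.2)) := by
        simp only [Finset.sum_mul_sum]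
        rw [Finset.sum_congr rfl fun h _ => Finset.sum_comm, Finset.sum_comm]
    _ = ∑ q : ι × ι, if A q.1 = A q.2 ∧ B q.1 = B q.2 then (u : ℂ) ^ 2 else 0 := by
        refine Finset.sum_congr rfl fun q _ => ?_
        rw [sum_char, sum_char]
        simp only [sub_eq_zero]
        by_cases h1 : A q.1 = A q.2 <;> by_cases h2 : B q.1 = B q.2 <;> simp [h1, h2, sq]
    _ = _ := by
        rw [← Finset.sum_filter, Finset.sum_const, nsmul_eq_mul, mul_comm]

theorem N4_le :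
    #{q : ((ZMod u)ˣ × (ZMod u)ˣ) × ((ZMod u)ˣ × (ZMod u)ˣ) |
      (q.1.1 : ZMod u) + q.1.2 = q.2.1 + q.2.2 ∧
      ((q.1.1⁻¹ : (ZMod u)ˣ) : ZMod u) + (q.1.2⁻¹ : (ZMod u)ˣ) =
        (q.2.1⁻¹ : (ZMod u)ˣ) + (q.2.2⁻¹ : (ZMod u)ˣ)} ≤ 2 * (u * #u.divisors) ^ 2 := by
  classical
  have h1 : #{q : ((ZMod u)ˣ × (ZMod u)ˣ) × ((ZMod u)ˣ × (ZMod u)ˣ) |
      (q.1.1 : ZMod u) + q.1.2 = q.2.1 + q.2.2 ∧
      ((q.1.1⁻¹ : (ZMod u)ˣ) : ZMod u) + (q.1.2⁻¹ : (ZMod u)ˣ) =
        (q.2.1⁻¹ : (ZMod u)ˣ) + (q.2.2⁻¹ : (ZMod u)ˣ)} ≤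
      #((univ : Finset (ZMod u × ZMod u)).sigma fun BC =>
        univ.filter fun x : ZMod u => (2 * BC.1 * BC.2) * x = -((BC.1 + BC.2) * BC.1 * BC.2)) := by
    refine Finset.card_le_card_of_injOn
      (fun q => ⟨((q.2.1 : ZMod u) - q.1.1, (q.1.2 : ZMod u) - q.2.1), (q.1.1 : ZMod u)⟩) ?_ ?_
    · rintro ⟨⟨x1, x2⟩, ⟨x3, x4⟩⟩ hq
      simp only [coe_filter, mem_univ, true_and, Set.mem_ofPred_eq] at hq
      simp only [coe_sigma, coe_univ, coe_filter, mem_univ, true_and, Set.mem_sigma_iff,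
        Set.mem_univ, Set.mem_ofPred_eq]
      obtain ⟨ha, hb⟩ := hq
      have e1 := x1.mul_inv
      have e2 := x2.mul_inv
      have e3 := x3.mul_inv
      have e4 := x4.mul_inv
      set a := (x1 : ZMod u)
      set b := (x2 : ZMod u)
      set c := (x3 : ZMod u)
      set d := (x4 : ZMod u)
      set a' := ((x1⁻¹ : (ZMod u)ˣ) : ZMod u)
      set b' := ((x2⁻¹ : (ZMod u)ˣ) : ZMod u)
      set c' := ((x3⁻¹ : (ZMod u)ˣ) : ZMod u)
      set d' := ((x4⁻¹ : (ZMod u)ˣ) : ZMod u)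
      have hd : d = a + b - c := by rw [ha]; ring
      have h5 : (a + b) * (c * d) = (c + d) * (a * b) := by
        calc (a + b) * (c * d) = (a * (b * b') + b * (a * a')) * (c * d) := by rw [e1, e2]; ring
          _ = (a' + b') * (a * b) * (c * d) := by ring
          _ = (c' + d') * (c * d) * (a * b) := by rw [hb]; ring
          _ = (d * (c * c') + c * (d * d')) * (a * b) := by ring
          _ = _ := by rw [e3, e4]; ring
      rw [← ha, hd] at h5
      linear_combination h5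
    · rintro ⟨⟨x1, x2⟩, ⟨x3, x4⟩⟩ hq ⟨⟨y1, y2⟩, ⟨y3, y4⟩⟩ hq' h
      simp only [coe_filter, mem_univ, true_and, Set.mem_ofPred_eq] at hq hq'
      simp only [Sigma.mk.injEq, Prod.mk.injEq, heq_eq_eq] at h
      obtain ⟨⟨h1, h2⟩, h3⟩ := h
      have h4 : (x3 : ZMod u) = y3 := by linear_combination h1 + h3
      have h5 : (x2 : ZMod u) = y2 := by linear_combination h2 + h4
      have h6 : (x4 : ZMod u) = y4 := by linear_combination hq'.1 - hq.1 + h3 + h5 - h4
      rw [Units.ext h3, Units.ext h4, Units.ext h5, Units.ext h6]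
  refine h1.trans ?_
  rw [Finset.card_sigma]
  calc ∑ BC : ZMod u × ZMod u, #{x : ZMod u |
        (2 * BC.1 * BC.2) * x = -((BC.1 + BC.2) * BC.1 * BC.2)}
      ≤ ∑ BC : ZMod u × ZMod u, 2 * (Kc BC.1 * Kc BC.2) := by
        refine Finset.sum_le_sum fun BC _ => (card_fiber_le _ _).trans ?_
        calc Kc (2 * BC.1 * BC.2) ≤ Kc BC.2 * Kc (2 * BC.1) := Kc_mul_le _ _
          _ ≤ Kc BC.2 * (Kc BC.1 * Kc (2 : ZMod u)) := by gcongr; exact Kc_mul_le _ _
          _ ≤ Kc BC.2 * (Kc BC.1 * 2) := by gcongr; exact Kc_two_le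
          _ = _ := by ring
    _ = 2 * (∑ c : ZMod u, Kc c) ^ 2 := by
        rw [← Finset.mul_sum, sq, Finset.sum_mul_sum, Fintype.sum_prod_type]
    _ ≤ _ := by gcongr; exact sum_Kc_le

theorem fourth_moment :
    ∑ h : ZMod u, ∑ k : ZMod u, ‖Kl h k‖ ^ 4 ≤ (u : ℝ) ^ 2 * (2 * (u * #u.divisors) ^ 2) := by
  classical
  have h1 := parseval (u := u) (ι := (ZMod u)ˣ × (ZMod u)ˣ) (fun q => (q.1 : ZMod u) + q.2)
    (fun q => ((q.1⁻¹ : (ZMod u)ˣ) : ZMod u) + (q.2⁻¹ : (ZMod u)ˣ))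
  have h2 : ∀ h k : ZMod u, ‖Kl h k‖ ^ 4 = ‖∑ q : (ZMod u)ˣ × (ZMod u)ˣ, ZMod.stdAddChar
      (h * ((q.1 : ZMod u) + (q.2 : ZMod u)) +
        k * (((q.1⁻¹ : (ZMod u)ˣ) : ZMod u) + ((q.2⁻¹ : (ZMod u)ˣ) : ZMod u)))‖ ^ 2 := by
    intro h k
    rw [show (4 : ℕ) = 2 * 2 from rfl, pow_mul, ← norm_pow, sq (Kl h k), Kl, Finset.sum_mul_sum,
      Fintype.sum_prod_type]
    congr 2
    refine Finset.sum_congr rfl fun i _ => Finset.sum_congr rfl fun j _ => ?_
    rw [← AddChar.map_add_eq_mul]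
    congr 1; ring
  simp only [h2]
  rw [h1]
  gcongr
  exact_mod_cast N4_le

theorem Kl_symm (h k : ZMod u) : Kl h k = Kl k h := by
  unfold Kl
  refine Fintype.sum_equiv (Equiv.inv _) _ _ fun x => ?_
  simp [add_comm]

theorem Kl_unit (h k : ZMod u) (v : (ZMod u)ˣ) :
    Kl (h * (v : ZMod u)) (k * ((v⁻¹ : (ZMod u)ˣ) : ZMod u)) = Kl h k := by
  unfold Kl
  refine Fintype.sum_equiv (Equiv.mulLeft v) _ _ fun x => ?_
  simp only [Equiv.coe_mulLeft, Units.val_mul, mul_inv_rev]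
  congr 1; ring

theorem le_totient_mul : u ≤ u.totient * #u.divisors := by
  conv_lhs => rw [← Nat.sum_totient u]
  rw [mul_comm, ← smul_eq_mul]
  refine Finset.sum_le_card_nsmul _ _ _ fun d hd => ?_
  exact Nat.le_of_dvd (Nat.totient_pos.2 (NeZero.pos u))
    (Nat.totient_dvd_of_dvd (Nat.mem_divisors.1 hd).1)

theorem Kl_pow_le (h k : ZMod u) :
    ‖Kl h k‖ ^ 4 ≤ 2 * (u : ℝ) ^ 3 * (#u.divisors : ℝ) ^ 3 * Kc h := by
  classical
  have h1 : (u.totient : ℝ) * ‖Kl h k‖ ^ 4 ≤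
      Kc h * ∑ q : ZMod u × ZMod u, ‖Kl q.1 q.2‖ ^ 4 := by
    calc (u.totient : ℝ) * ‖Kl h k‖ ^ 4
        = ∑ v : (ZMod u)ˣ, ‖Kl (h * (v : ZMod u)) (k * ((v⁻¹ : (ZMod u)ˣ) : ZMod u))‖ ^ 4 := by
          simp only [Kl_unit]
          rw [Finset.sum_const, card_univ, ZMod.card_units_eq_totient, nsmul_eq_mul]
      _ = ∑ q : ZMod u × ZMod u, ∑ v ∈ univ.filter (fun v : (ZMod u)ˣ =>
            (h * v.val, k * (v⁻¹).val) = q), ‖Kl (h * v.val) (k * (v⁻¹).val)‖ ^ 4 :=
          (Finset.sum_fiberwise univ (fun v : (ZMod u)ˣ => (h * v.val, k * (v⁻¹).val))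
            (fun v : (ZMod u)ˣ => ‖Kl (h * v.val) (k * (v⁻¹).val)‖ ^ 4)).symm
      _ ≤ ∑ q : ZMod u × ZMod u, Kc h * ‖Kl q.1 q.2‖ ^ 4 := by
          refine Finset.sum_le_sum fun q _ => ?_
          rw [Finset.sum_congr rfl (g := fun _ => ‖Kl q.1 q.2‖ ^ 4), Finset.sum_const,
            nsmul_eq_mul]
          · gcongr
            refine le_trans ?_ (card_fiber_le h q.1)
            refine Finset.card_le_card_of_injOn (fun v : (ZMod u)ˣ => v.val) ?_ ?_
            · intro v hv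
              simp only [coe_filter, mem_univ, true_and, Set.mem_ofPred_eq] at hv ⊢
              rw [← hv]
            · intro v _ w _ hvw
              exact Units.ext hvw
          · intro v hv
            simp only [mem_filter, mem_univ, true_and] at hv
            rw [← hv]
      _ = _ := by rw [Finset.mul_sum]
  rw [Fintype.sum_prod_type] at h1
  have h2 := fourth_moment (u := u)
  have h3 : (u : ℝ) ≤ u.totient * #u.divisors := by exact_mod_cast le_totient_mul (u := u)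
  have hu : (0 : ℝ) < u := by exact_mod_cast NeZero.pos u
  have h4 : (u : ℝ) * ‖Kl h k‖ ^ 4 ≤ u * (2 * (u : ℝ) ^ 3 * (#u.divisors : ℝ) ^ 3 * Kc h) := by
    calc (u : ℝ) * ‖Kl h k‖ ^ 4 ≤ (u.totient * #u.divisors) * ‖Kl h k‖ ^ 4 := by gcongr
      _ = #u.divisors * ((u.totient : ℝ) * ‖Kl h k‖ ^ 4) := by ring
      _ ≤ #u.divisors * (Kc h * ((u : ℝ) ^ 2 * (2 * (u * #u.divisors) ^ 2))) := by
          refine mul_le_mul_of_nonneg_left (h1.trans ?_) (by positivity)
          exact mul_le_mul_of_nonneg_left h2 (by positivity)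
      _ = _ := by ring
  exact le_of_mul_le_mul_left h4 hu

theorem norm_Kl_le {S : ℝ} (hS0 : 0 ≤ S) (hS : 2 * (u : ℝ) ^ 3 * (#u.divisors : ℝ) ^ 3 ≤ S ^ 4)
    (h k : ZMod u) : ‖Kl h k‖ ≤ S * Kc h := by
  have h1 : (1 : ℝ) ≤ Kc h := by exact_mod_cast one_le_Kc h
  refine le_of_pow_le_pow_left₀ (n := 4) (by norm_num) (by positivity) ?_
  calc ‖Kl h k‖ ^ 4 ≤ 2 * (u : ℝ) ^ 3 * (#u.divisors : ℝ) ^ 3 * Kc h := Kl_pow_le h k
    _ ≤ S ^ 4 * (Kc h : ℝ) ^ 4 := by
        gcongr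
        exact le_self_pow₀ h1 (by norm_num)
    _ = _ := by ring

end Pool.Agent.P.MP_a1177c_nt.Sign
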