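import Pool.Agent.P.MP_a1177c_nt.Sign.Primes
import Pool.Agent.P.MP_a1177c_nt.Sign.Form

/-!
# Unimodular pairs, cones and weights
-/

namespace Pool.Agent.P.MP_a1177c_nt.Sign

open Finset Filter Topology

/-- A pair of vectors `(x, y)`, `(z, u)`. -/
structure Pr where
  x : ℕ
  y : ℕ
  z : ℕ
  u : ℕ

namespace Pr

theorem ext' {e e' : Pr} (h1 : e.x = e'.x) (h2 : e.y = e'.y) (h3 : e.z = e'.z) (h4 : e.u = e'.u) :
    e = e' := by
  cases e; cases e'; simp_all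

/-- Unimodular pairs with slopes in the unit interval. -/
def Valid (e : Pr) : Prop :=
  1 ≤ e.y ∧ e.y < e.u ∧ e.x < e.y ∧ e.z < e.u ∧
    (e.x * e.u = e.y * e.z + 1 ∨ e.y * e.z = e.x * e.u + 1)

/-- First coordinate of `i v + j w`. -/
def X (e : Pr) (i j : ℕ) : ℕ := i * e.x + j * e.z
/-- Second coordinate of `i v + j w`. -/
def Y (e : Pr) (i j : ℕ) : ℕ := i * e.y + j * e.u
/-- Left child. -/
def cL (e : Pr) : Pr := ⟨e.x, e.y, e.x + e.z, e.y + e.u⟩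
/-- Right child. -/
def cR (e : Pr) : Pr := ⟨e.z, e.u, e.x + e.z, e.y + e.u⟩
/-- Membership in the cone. -/
def InC (e : Pr) (a b : ℕ) : Prop := ∃ s t, a = e.X s t ∧ b = e.Y s t
/-- Inclusion of cones. -/
def Sub (e e' : Pr) : Prop := e.InC e'.x e'.y ∧ e.InC e'.z e'.u
/-- The weight. -/
noncomputable def wt (e : Pr) : ℝ := 1 / ((e.y : ℝ) * e.u)

theorem wt_nonneg (e : Pr) : 0 ≤ e.wt := by unfold wt; positivity

theorem Valid.cL {e : Pr} (h : e.Valid) : e.cL.Valid := by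
  obtain ⟨h1, h2, h3, h4, h5⟩ := h
  refine ⟨h1, by simp only [Pr.cL]; omega, h3, by simp only [Pr.cL]; omega, ?_⟩
  simp only [Pr.cL]
  rcases h5 with h | h
  · left; nlinarith
  · right; nlinarith

theorem Valid.cR {e : Pr} (h : e.Valid) : e.cR.Valid := by
  obtain ⟨h1, h2, h3, h4, h5⟩ := h
  refine ⟨by simp only [Pr.cR]; omega, by simp only [Pr.cR]; omega, h4,
    by simp only [Pr.cR]; omega, ?_⟩
  simp only [Pr.cR]
  rcases h5 with h | h
  · right; nlinarith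
  · left; nlinarith

theorem cL_X (e : Pr) (i j : ℕ) : e.cL.X i j = e.X (i + j) j := by simp only [X, cL]; ring
theorem cL_Y (e : Pr) (i j : ℕ) : e.cL.Y i j = e.Y (i + j) j := by simp only [Y, cL]; ring
theorem cR_X (e : Pr) (i j : ℕ) : e.cR.X i j = e.X j (i + j) := by simp only [X, cR]; ring
theorem cR_Y (e : Pr) (i j : ℕ) : e.cR.Y i j = e.Y j (i + j) := by simp only [Y, cR]; ring

theorem InC.cL {e : Pr} {a b : ℕ} (h : e.cL.InC a b) : e.InC a b := by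
  obtain ⟨s, t, h1, h2⟩ := h
  exact ⟨s + t, t, by rw [h1, cL_X], by rw [h2, cL_Y]⟩

theorem InC.cR {e : Pr} {a b : ℕ} (h : e.cR.InC a b) : e.InC a b := by
  obtain ⟨s, t, h1, h2⟩ := h
  exact ⟨t, s + t, by rw [h1, cR_X], by rw [h2, cR_Y]⟩

theorem Sub.cL {e e' : Pr} (h : e.cL.Sub e') : e.Sub e' := ⟨h.1.cL, h.2.cL⟩
theorem Sub.cR {e e' : Pr} (h : e.cR.Sub e') : e.Sub e' := ⟨h.1.cR, h.2.cR⟩

theorem sub_refl (e : Pr) : e.Sub e :=
  ⟨⟨1, 0, by simp [X], by simp [Y]⟩, ⟨0, 1, by simp [X], by simp [Y]⟩⟩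

/-- The determinant of two combinations. -/
theorem Valid.det {e : Pr} (h : e.Valid) : ∃ δ : ℤ, δ ^ 2 = 1 ∧ ∀ i j i' j' : ℕ,
    (e.X i j * e.Y i' j' : ℤ) - e.Y i j * e.X i' j' = δ * (i * j' - j * i') := by
  rcases h.2.2.2.2 with h | h
  · refine ⟨1, by norm_num, fun i j i' j' => ?_⟩
    have h' : (e.x * e.u : ℤ) = e.y * e.z + 1 := by exact_mod_cast h
    simp only [X, Y]
    push_cast
    linear_combination (i * j' - j * i' : ℤ) * h'
  · refine ⟨-1, by norm_num, fun i j i' j' => ?_⟩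
    have h' : (e.y * e.z : ℤ) = e.x * e.u + 1 := by exact_mod_cast h
    simp only [X, Y]
    push_cast
    linear_combination (-(i * j' - j * i') : ℤ) * h'

theorem Valid.inj {e : Pr} (h : e.Valid) {i j i' j' : ℕ} (h1 : e.X i j = e.X i' j')
    (h2 : e.Y i j = e.Y i' j') : i = i' ∧ j = j' := by
  obtain ⟨δ, hδ, hd⟩ := h.det
  have a1 := hd i j 0 1
  have a2 := hd i' j' 0 1
  have a3 := hd i j 1 0
  have a4 := hd i' j' 1 0
  rw [h1, h2] at a1 a3
  have hδ0 : δ ≠ 0 := by rintro rfl; simp at hδ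
  have b1 := mul_left_cancel₀ hδ0 (a1.symm.trans a2)
  have b2 := mul_left_cancel₀ hδ0 (a3.symm.trans a4)
  constructor <;> omega

theorem Valid.lt {e : Pr} (h : e.Valid) {i j : ℕ} (hj : 1 ≤ j) : e.X i j < e.Y i j := by
  obtain ⟨_, _, h3, h4, _⟩ := h
  unfold X Y
  have : i * e.x ≤ i * e.y := by gcongr
  have : j * e.z < j * e.u := by gcongr
  omega

theorem Valid.le {e : Pr} (h : e.Valid) (i j : ℕ) : e.X i j ≤ e.Y i j := by
  obtain ⟨_, _, h3, h4, _⟩ := h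
  unfold X Y
  gcongr

theorem Valid.coprime {e : Pr} (h : e.Valid) {i j : ℕ} (hij : i.Coprime j) :
    (e.X i j).Coprime (e.Y i j) := by
  obtain ⟨δ, hδ, hd⟩ := h.det
  have a1 := hd i j 0 1
  have a3 := hd i j 1 0
  refine Nat.coprime_of_dvd fun p hp h1 h2 => ?_
  have h1' : (p : ℤ) ∣ e.X i j := by exact_mod_cast h1
  have h2' : (p : ℤ) ∣ e.Y i j := by exact_mod_cast h2
  have b1 : (p : ℤ) ∣ i := by
    have : (i : ℤ) = δ * ((e.X i j * e.Y 0 1 : ℤ) - e.Y i j * e.X 0 1) := by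
      rw [a1]; push_cast; linear_combination (-(i : ℤ)) * hδ
    rw [this]
    exact Dvd.dvd.mul_left (dvd_sub (h1'.mul_right _) (h2'.mul_right _)) _
  have b2 : (p : ℤ) ∣ j := by
    have : (j : ℤ) = -δ * ((e.X i j * e.Y 1 0 : ℤ) - e.Y i j * e.X 1 0) := by
      rw [a3]; push_cast; linear_combination (-(j : ℤ)) * hδ
    rw [this]
    exact Dvd.dvd.mul_left (dvd_sub (h1'.mul_right _) (h2'.mul_right _)) _
  exact hp.one_lt.ne' (Nat.eq_one_of_dvd_coprimes hij (by exact_mod_cast b1) (by exact_mod_cast b2))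

theorem coprime_of_coprime {e : Pr} {i j : ℕ} (h : (e.X i j).Coprime (e.Y i j)) : i.Coprime j :=
  Nat.coprime_of_dvd fun _ hp h1 h2 => hp.one_lt.ne' (Nat.eq_one_of_dvd_coprimes h
    (dvd_add (h1.mul_right _) (h2.mul_right _)) (dvd_add (h1.mul_right _) (h2.mul_right _)))

theorem Valid.not_both {e e' : Pr} (h : e.Valid) (h' : e'.Valid) (hL : e.cL.Sub e')
    (hR : e.cR.Sub e') : False := by
  have key : ∀ a b, e.cL.InC a b → e.cR.InC a b → ∃ t, a = t * (e.x + e.z) ∧ b = t * (e.y + e.u) := by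
    rintro a b ⟨s, t, a1, a2⟩ ⟨s', t', b1, b2⟩
    have := h.inj (i := s + t) (j := t) (i' := t') (j' := s' + t')
      (by rw [← cL_X, ← cR_X, ← a1, b1]) (by rw [← cL_Y, ← cR_Y, ← a2, b2])
    have hs : s = 0 := by omega
    subst hs
    exact ⟨t, by simpa [X, Pr.cL] using a1, by simpa [Y, Pr.cL] using a2⟩
  obtain ⟨t1, a1, a2⟩ := key _ _ hL.1 hR.1
  obtain ⟨t2, b1, b2⟩ := key _ _ hL.2 hR.2
  have : e'.x * e'.u = e'.y * e'.z := by rw [a1, a2, b1, b2]; ring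
  have := h'.2.2.2.2
  omega

/-- Every class `(r, 0)` modulo `Q` has a primitive representative with bounded coefficients. -/
theorem Valid.exists_vertex {e : Pr} (h : e.Valid) {Q r : ℕ} (hQ : 0 < Q) (hr : r.Coprime Q) :
    ∃ i j, 1 ≤ i ∧ i ≤ Q ^ 2 ∧ 1 ≤ j ∧ j ≤ Q ∧ i.Coprime j ∧ e.X i j ≡ r [MOD Q] ∧
      Q ∣ e.Y i j := by
  have : NeZero Q := ⟨hQ.ne'⟩
  obtain ⟨d, hd⟩ : ∃ d : ZMod Q, d * ((e.x : ZMod Q) * e.u - e.y * e.z) = 1 := by
    rcases h.2.2.2.2 with h | h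
    · have h' : (e.x * e.u : ZMod Q) = e.y * e.z + 1 := by exact_mod_cast congrArg Nat.cast h
      exact ⟨1, by linear_combination h'⟩
    · have h' : (e.y * e.z : ZMod Q) = e.x * e.u + 1 := by exact_mod_cast congrArg Nat.cast h
      exact ⟨-1, by linear_combination h'⟩
  have hrep : ∀ (R : ℕ), 0 < R → ∀ a : ℕ, ∃ b, 1 ≤ b ∧ b ≤ R ∧ b ≡ a [MOD R] := fun R hR a => by
    by_cases h0 : a % R = 0
    · exact ⟨R, hR, le_rfl, by unfold Nat.ModEq; rw [h0, Nat.mod_self]⟩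
    · exact ⟨a % R, Nat.pos_of_ne_zero h0, (Nat.mod_lt _ hR).le, Nat.mod_modEq _ _⟩
  obtain ⟨j, hj1, hj2, hj3⟩ := hrep Q hQ (-(d * r * e.y)).val
  have hj : (j : ZMod Q) = -(d * r * e.y) := by
    rw [(ZMod.natCast_eq_natCast_iff _ _ _).2 hj3, ZMod.natCast_zmod_val]
  have hXY : ∀ i : ℕ, i ≡ (d * r * e.u).val [MOD Q] → e.X i j ≡ r [MOD Q] ∧ Q ∣ e.Y i j := by
    intro i hi
    have hi' : (i : ZMod Q) = d * r * e.u := by
      rw [(ZMod.natCast_eq_natCast_iff _ _ _).2 hi, ZMod.natCast_zmod_val]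
    rw [← ZMod.natCast_eq_natCast_iff, ← ZMod.natCast_eq_zero_iff]
    simp only [X, Y]
    push_cast
    rw [hi', hj]
    exact ⟨by linear_combination (r : ZMod Q) * hd, by ring⟩
  obtain ⟨i1, hi1, hi2⟩ := coprime_lift (d * r * e.u).val Q j (by omega) (by
    refine Nat.coprime_of_dvd fun p hp h1 h2 => ?_
    have h3 : p ∣ Q := h2.trans (Nat.gcd_dvd_left _ _)
    have h4 : p ∣ j := h2.trans (Nat.gcd_dvd_right _ _)
    have h5 : p ∣ e.X (d * r * e.u).val j := dvd_add (h1.mul_right _) (h4.mul_right _)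
    have h6 := ((hXY _ rfl).1.of_dvd h3).dvd_iff dvd_rfl
    exact hp.one_lt.ne' (Nat.eq_one_of_dvd_coprimes hr (h6.1 h5) h3))
  obtain ⟨i, a1, a2, a3⟩ := hrep (Q * j) (by positivity) i1
  have a4 := hXY i ((a3.of_mul_right _).trans hi1)
  refine ⟨i, j, a1, a2.trans (by rw [sq]; gcongr), hj1, hj2, ?_, a4⟩
  unfold Nat.Coprime at hi2 ⊢
  rw [(a3.of_mul_left _).gcd_eq, hi2]

end Pr

end Pool.Agent.P.MP_a1177c_nt.Sign
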