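import Pool.Agent.P.MP_a1177c_nt.Sign.Form
import Pool.Agent.P.MP_a1177c_nt.Sign.Primes

/-!
# Subset products covering a group; the criterion for richness
-/

namespace Pool.Agent.P.MP_a1177c_nt.Sign

open Finset Filter Topology

theorem cover {G ι : Type*} [CommGroup G] [Fintype G] [DecidableEq G] [DecidableEq ι]
    (Γ : Subgroup G) (P : Finset ι) (cl : ι → G) (hP : ∀ p ∈ P, cl p ∈ Γ) (m : ℕ)
    (hm : Fintype.card G ≤ m)
    (h : ∀ H : Subgroup G, H ≤ Γ → H ≠ Γ → ∀ S ⊆ P, #S < m → ∃ p ∈ P, p ∉ S ∧ cl p ∉ H) :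
    ∀ g ∈ Γ, ∃ S ⊆ P, #S ≤ m ∧ ∏ p ∈ S, cl p = g := by
  have key : ∀ k ≤ m, ∃ S ⊆ P, #S ≤ k ∧
      ((∀ g ∈ Γ, g ∈ S.powerset.image fun T => ∏ p ∈ T, cl p) ∨
        k + 1 ≤ #(S.powerset.image fun T => ∏ p ∈ T, cl p)) := by
    intro k
    induction k with
    | zero => exact fun _ => ⟨∅, by simp, by simp, Or.inr (by simp)⟩
    | succ k ih =>
      intro hk
      obtain ⟨S, hS, hc, h1⟩ := ih (by omega)
      set A := S.powerset.image fun T => ∏ p ∈ T, cl p with hA
      by_cases h2 : ∀ g ∈ Γ, g ∈ A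
      · exact ⟨S, hS, by omega, Or.inl h2⟩
      have h3 := h1.resolve_left h2
      let H : Subgroup G :=
        { carrier := {g | ∀ x, x ∈ A ↔ g * x ∈ A}
          mul_mem' := fun {a b} ha hb x => by rw [mul_assoc, ← ha, ← hb]
          one_mem' := fun x => by rw [one_mul]
          inv_mem' := fun {a} ha x => by rw [ha (a⁻¹ * x), mul_inv_cancel_left] }
      have h1A : (1 : G) ∈ A := mem_image.2 ⟨∅, by simp, by simp⟩
      obtain ⟨p, hp, hpS, hpH'⟩ := h (Γ ⊓ H) inf_le_left (fun he => h2 fun g hg => by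
        have h4 : g ∈ H := (he.ge hg).2
        simpa using (h4 1).1 h1A) S hS (by omega)
      have hpH : cl p ∉ H := fun h4 => hpH' ⟨hP p hp, h4⟩
      obtain ⟨x, hx, hx'⟩ : ∃ x ∈ A, cl p * x ∉ A := by
        by_contra hcon
        push Not at hcon
        apply hpH
        intro x
        refine ⟨hcon x, fun hx => ?_⟩
        have h4 : A.image (cl p * ·) = A :=
          Finset.eq_of_subset_of_card_le (image_subset_iff.2 hcon)
            (Finset.card_image_of_injective _ (mul_right_injective _)).ge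
        rw [← h4] at hx
        obtain ⟨y, hy, hxy⟩ := mem_image.1 hx
        rwa [← mul_left_cancel hxy]
      refine ⟨insert p S, insert_subset hp hS, by rw [card_insert_of_notMem hpS]; omega,
        Or.inr ?_⟩
      refine le_trans ?_ (Finset.card_le_card (s := insert (cl p * x) A) ?_)
      · rw [card_insert_of_notMem hx']; omega
      · refine insert_subset ?_ (image_subset_image (powerset_mono.2 (subset_insert _ _)))
        obtain ⟨T, hT, rfl⟩ := mem_image.1 hx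
        have hT' := mem_powerset.1 hT
        refine mem_image.2 ⟨insert p T, mem_powerset.2 (insert_subset_insert _ hT'), ?_⟩
        rw [Finset.prod_insert fun h => hpS (hT' h)]
  obtain ⟨S, hS, hc, h1⟩ := key m le_rfl
  rcases h1 with h1 | h1
  · intro g hg
    obtain ⟨T, hT, rfl⟩ := mem_image.1 (h1 g hg)
    have hT' := mem_powerset.1 hT
    exact ⟨T, hT'.trans hS, (card_le_card hT').trans hc, rfl⟩
  · have := card_le_univ (S.powerset.image fun T => ∏ p ∈ T, cl p)
    omega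

theorem card_le_two_mul {G : Type*} [Group G] (A B : Finset G) [DecidableEq G] (g : G)
    (h : ∀ x ∈ A, x ∉ B → g * x ∈ B) : #A ≤ 2 * #B := by
  have h1 : #(A \ B) ≤ #B := Finset.card_le_card_of_injOn (g * ·)
    (fun x hx => h x (mem_sdiff.1 hx).1 (mem_sdiff.1 hx).2) (mul_right_injective g).injOn
  have h2 := Finset.le_card_sdiff B A
  omega

namespace Ctx

variable {F : Ctx}

open Classical in
variable (F) in
/-- A root of the monic polynomial modulo `p`. -/
noncomputable def nu (p : ℕ) : ℕ := if h : ∃ ν, p ∣ F.N ν 1 then h.choose else 0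

theorem nu_spec {p : ℕ} (hp : p.Prime) (hQ : p.Coprime F.Q) (hJ : F.J p = 1) :
    p ∣ F.N (F.nu p) 1 := by
  have h : ∃ ν, p ∣ F.N ν 1 := by
    have := Fact.mk hp
    obtain ⟨α, hα⟩ := ZMod.isSquare_of_jacobiSym_eq_one hJ
    have h2 : (2 : ZMod p) ≠ 0 := by
      intro h
      have h3 : p ∣ 2 := (ZMod.natCast_eq_zero_iff 2 p).1 (by exact_mod_cast h)
      exact hp.one_lt.ne' (Nat.eq_one_of_dvd_coprimes hQ dvd_rfl (h3.trans F.two_dvd_Q))
    refine ⟨((α - F.b) / 2).val, (ZMod.natCast_eq_zero_iff _ _).1 ?_⟩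
    unfold D at hα
    unfold N
    push_cast at hα ⊢
    rw [ZMod.natCast_zmod_val]
    have h4 : (4 : ZMod p) ≠ 0 := by
      rw [show (4 : ZMod p) = 2 * 2 by norm_num]; exact mul_ne_zero h2 h2
    field_simp
    linear_combination -hα
  unfold nu
  rw [dif_pos h]
  exact h.choose_spec

theorem dvd_N_of_modEq {p x y : ℕ} (h : p ∣ F.N (F.nu p) 1) (hxy : x ≡ F.nu p * y [MOD p]) :
    p ∣ F.N x y := by
  rw [← ZMod.natCast_eq_zero_iff] at h ⊢
  have h1 := (ZMod.natCast_eq_natCast_iff _ _ _).2 hxy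
  unfold N at h ⊢
  push_cast at h h1 ⊢
  rw [h1]
  linear_combination (y : ZMod p) ^ 2 * h

variable (F) in
/-- Admissible sets of residue classes. -/
def Adm (M : ℕ) (Z : Finset (ZMod M)) : Prop :=
  (∀ h ∈ Z, IsUnit h ∧ F.J h.val = 1) ∧ M.totient ≤ 4 * #Z

theorem rich_of (M : ℕ) [NeZero M] (hM : F.Q ∣ M) (A W Y : ℕ) (P : Finset ℕ)
    (hP : ∀ p ∈ P, p.Prime ∧ p.Coprime M ∧ F.J p = 1 ∧ W ≤ p ∧ p ≤ Y ∧ p ∣ A)
    (h : ∀ Z, F.Adm M Z → M < #(P.filter fun p : ℕ => (p : ZMod M) ∈ Z)) :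
    F.Rich M W (Y ^ (M + 1)) A := by
  classical
  have hval : ∀ g : (ZMod M)ˣ, g.val.val.Coprime F.Q := fun g =>
    (ZMod.val_coe_unit_coprime g).coprime_dvd_right hM
  have hJn : ∀ n : ℕ, n.Coprime M → F.J (n : ZMod M).val = F.J n := fun n hn => by
    rw [ZMod.val_natCast]
    exact (J_congr ((Nat.mod_modEq n M).of_dvd hM).symm (hn.coprime_dvd_right hM)).symm
  have hmul : ∀ g k : (ZMod M)ˣ, F.J (g * k).val.val = F.J g.val.val * F.J k.val.val := by
    intro g k
    rw [Units.val_mul, ZMod.val_mul, ← J_mul (ne_zero_of_coprime (hval g))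
      (ne_zero_of_coprime (hval k))]
    exact (J_congr ((Nat.mod_modEq _ M).of_dvd hM).symm ((hval g).mul_left (hval k))).symm
  have hone : F.J (1 : (ZMod M)ˣ).val.val = 1 := by
    have := hJn 1 (Nat.coprime_one_left _)
    rw [Nat.cast_one, J_one] at this
    exact this
  let Γ : Subgroup (ZMod M)ˣ :=
    { carrier := {g | F.J g.val.val = 1}
      mul_mem' := fun {a b} ha hb => by
        simp only [Set.mem_ofPred_eq] at ha hb ⊢
        rw [hmul, ha, hb, one_mul]
      one_mem' := hone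
      inv_mem' := fun {a} ha => by
        simp only [Set.mem_ofPred_eq] at ha ⊢
        have := hmul a a⁻¹
        rw [mul_inv_cancel, hone, ha, one_mul] at this
        exact this.symm }
  have hΓ : M.totient ≤ 2 * #{g : (ZMod M)ˣ | g ∈ Γ} := by
    rw [← ZMod.card_units_eq_totient, ← card_univ]
    by_cases h0 : ∃ g, g ∉ Γ
    · obtain ⟨g, hg⟩ := h0
      refine card_le_two_mul _ _ g fun x _ hx => ?_
      simp only [mem_filter, mem_univ, true_and] at hx ⊢
      change F.J (g * x).val.val = 1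
      have a1 := (mul_self_eq_one_iff.1 (J_sq (hval g))).resolve_left hg
      have a2 := (mul_self_eq_one_iff.1 (J_sq (hval x))).resolve_left hx
      rw [hmul, a1, a2]; norm_num
    · push Not at h0
      rw [filter_true_of_mem fun g _ => h0 g]; omega
  have hadm : ∀ T : Finset (ZMod M)ˣ, (∀ g ∈ T, g ∈ Γ) → M.totient ≤ 4 * #T →
      F.Adm M (T.image Units.val) := fun T h1 h2 =>
    ⟨fun h hh => by
      obtain ⟨g, hg, rfl⟩ := mem_image.1 hh
      exact ⟨g.isUnit, h1 g hg⟩,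
    by rwa [Finset.card_image_of_injective _ Units.val_injective]⟩
  let cl : ℕ → (ZMod M)ˣ := fun p => if h : p.Coprime M then ZMod.unitOfCoprime p h else 1
  have hcl : ∀ p : ℕ, p.Coprime M → (cl p).val = p := fun p hp => by
    simp only [cl, dif_pos hp]; rfl
  have hclΓ : ∀ p : ℕ, p.Coprime M → F.J p = 1 → cl p ∈ Γ := fun p hp hJ => by
    change F.J (cl p).val.val = 1
    rw [hcl p hp, hJn p hp, hJ]
  obtain ⟨p0, hp0⟩ : P.Nonempty := by
    have := h _ (hadm {g | g ∈ Γ} (fun g hg => (mem_filter.1 hg).2) (by omega))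
    exact (Finset.card_pos.1 (lt_of_le_of_lt (Nat.zero_le _) this)).mono (filter_subset _ _)
  have hcov := cover Γ (P.erase p0) cl
    (fun p hp => hclΓ p (hP p (mem_of_mem_erase hp)).2.1 (hP p (mem_of_mem_erase hp)).2.2.1) M
    (by rw [ZMod.card_units_eq_totient]; exact Nat.totient_le M) (by
      intro H hH hne S _ hS
      obtain ⟨g, hg, hg'⟩ := SetLike.exists_of_lt (lt_of_le_of_ne hH hne)
      have a1 : #{g : (ZMod M)ˣ | g ∈ Γ} ≤ 2 * #{g : (ZMod M)ˣ | g ∈ Γ ∧ g ∉ H} := by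
        refine card_le_two_mul _ _ g fun x hx hx' => ?_
        simp only [mem_filter, mem_univ, true_and, not_and, not_not] at hx hx' ⊢
        exact ⟨Γ.mul_mem hg hx, fun h => hg' ((H.mul_mem_cancel_right (hx' hx)).1 h)⟩
      have a2 := h _ (hadm {g | g ∈ Γ ∧ g ∉ H} (fun g hg => (mem_filter.1 hg).2.1) (by omega))
      obtain ⟨p, hp, hp'⟩ := Finset.exists_mem_notMem_of_card_lt_card
        (s := insert p0 S) (lt_of_le_of_lt ((card_insert_le _ _).trans hS) a2)
      simp only [mem_filter, mem_image, mem_univ, true_and] at hp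
      simp only [mem_insert, not_or] at hp'
      obtain ⟨hp1, k, hk, hk'⟩ := hp
      refine ⟨p, mem_erase.2 ⟨hp'.1, hp1⟩, hp'.2, ?_⟩
      rw [show cl p = k from Units.ext (by rw [hcl p (hP p hp1).2.1, hk'])]
      exact hk.2)
  intro h' hh' hJ'
  obtain ⟨S, hS, hc, he⟩ := hcov (cl h' * (cl p0)⁻¹)
    (Γ.mul_mem (hclΓ h' hh' hJ') (Γ.inv_mem (hclΓ p0 (hP p0 hp0).2.1 (hP p0 hp0).2.2.1)))
  have hp0S : p0 ∉ S := fun h => (mem_erase.1 (hS h)).1 rfl
  have hS' : ∀ p ∈ insert p0 S, p ∈ P := fun p hp =>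
    (mem_insert.1 hp).elim (fun h => h ▸ hp0) fun h => mem_of_mem_erase (hS h)
  refine ⟨∏ p ∈ insert p0 S, p, ?_, ?_, ?_, ?_⟩
  · exact Finset.prod_primes_dvd _ (fun p hp => (hP p (hS' p hp)).1.prime)
      fun p hp => (hP p (hS' p hp)).2.2.2.2.2
  · rw [← ZMod.natCast_eq_natCast_iff, ← hcl h' hh']
    have a1 : ∏ p ∈ insert p0 S, cl p = cl h' := by
      rw [Finset.prod_insert hp0S, he, mul_comm, inv_mul_cancel_right]
    rw [← a1, Units.coe_prod]
    push_cast
    exact Finset.prod_congr rfl fun p hp => (hcl p (hP p (hS' p hp)).2.1).symm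
  · refine (hP p0 hp0).2.2.2.1.trans (Nat.le_of_dvd ?_ (dvd_prod_of_mem _ (mem_insert_self _ _)))
    exact Finset.prod_pos fun p hp => (hP p (hS' p hp)).1.pos
  · refine (Finset.prod_le_pow_card _ _ Y fun p hp => (hP p (hS' p hp)).2.2.2.2.1).trans ?_
    refine Nat.pow_le_pow_right ((hP p0 hp0).1.pos.trans_le (hP p0 hp0).2.2.2.2.1) ?_
    exact (card_insert_le _ _).trans (by omega)

variable (F) in
/-- The sieving primes at level `u`. -/
def PP (M u : ℕ) : Finset ℕ :=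
  {p ∈ Icc 1 (2 ^ rr u) | p.Prime ∧ p.Coprime M ∧ F.J p = 1 ∧ tt u ^ 3 < p ∧ ¬ p ∣ u}

theorem PP_lower (M : ℕ) [NeZero M] (hM : F.Q ∣ M) : ∃ C : ℝ, ∀ u : ℕ, 2 ≤ u → ∀ Z, F.Adm M Z →
    1 / 32 * Real.log (rr u) - C ≤
      ∑ p ∈ (F.PP M u).filter (fun p : ℕ => (p : ZMod M) ∈ Z), (1 : ℝ) / p := by
  have h1 : ∀ a : ZMod M, ∃ C : ℝ, IsUnit a → ∀ r : ℕ,
      (M.totient : ℝ)⁻¹ / 4 * Real.log r - C ≤
      ∑ p ∈ (Icc 1 (2 ^ r)).filter (fun p : ℕ => p.Prime ∧ (p : ZMod M) = a), (1 : ℝ) / p := by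
    intro a
    by_cases ha : IsUnit a
    · obtain ⟨C, hC⟩ := mertensAP ha
      exact ⟨C, fun _ => hC⟩
    · exact ⟨0, fun h => absurd h ha⟩
  choose C hC using h1
  obtain ⟨C1, hC1⟩ := mertens_upper
  refine ⟨∑ a, |C a| + (C1 + Real.log 384) + 1, fun u hu Z hZ => ?_⟩
  have hr : (1 : ℝ) ≤ rr u := by exact_mod_cast rr_pos u
  have hlr : 0 ≤ Real.log (rr u) := Real.log_nonneg hr
  have hφ : (0 : ℝ) < M.totient := by exact_mod_cast Nat.totient_pos.2 (NeZero.pos M)
  set A := (Icc 1 (2 ^ rr u)).filter (fun p : ℕ => p.Prime ∧ (p : ZMod M) ∈ Z) with hA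
  have a1 : 1 / 16 * Real.log (rr u) - ∑ a, |C a| ≤ ∑ p ∈ A, (1 : ℝ) / p := by
    rw [← Finset.sum_fiberwise_of_maps_to (s := A) (t := Z) (g := fun p : ℕ => (p : ZMod M))
      (fun p hp => (mem_filter.1 hp).2.2)]
    calc 1 / 16 * Real.log (rr u) - ∑ a, |C a|
        ≤ ∑ a ∈ Z, ((M.totient : ℝ)⁻¹ / 4 * Real.log (rr u) - |C a|) := by
          rw [Finset.sum_sub_distrib, Finset.sum_const, nsmul_eq_mul, ← mul_assoc]
          refine sub_le_sub (mul_le_mul_of_nonneg_right ?_ hlr)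
            (Finset.sum_le_sum_of_subset_of_nonneg (subset_univ _) fun _ _ _ => abs_nonneg _)
          have : (M.totient : ℝ) ≤ 4 * #Z := by exact_mod_cast hZ.2
          rw [inv_eq_one_div, div_div, mul_one_div, div_le_div_iff₀ (by norm_num) (by positivity)]
          linarith
      _ ≤ _ := by
          refine Finset.sum_le_sum fun a ha => ?_
          refine le_trans (sub_le_sub_left (le_abs_self _) _) ((hC a (hZ.1 a ha).1 _).trans ?_)
          refine le_of_eq (Finset.sum_congr ?_ fun _ _ => rfl)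
          ext p
          simp only [hA, mem_filter]
          constructor
          · rintro ⟨b1, b2, b3⟩; exact ⟨⟨b1, b2, b3 ▸ ha⟩, b3⟩
          · rintro ⟨⟨b1, b2, -⟩, b3⟩; exact ⟨b1, b2, b3⟩
  have ht2 : 2 ≤ tt u := Nat.succ_le_succ (Nat.le_log_of_pow_le (by norm_num) (by simpa using hu))
  have ht3 : tt u ≤ tt u ^ 3 := Nat.le_self_pow (by norm_num) _
  have a2 : ∑ p ∈ A with p ≤ tt u ^ 3, (1 : ℝ) / p ≤
      1 / 32 * Real.log (rr u) + (C1 + Real.log 384) := by
    refine (hC1 (tt u ^ 3) (by omega) _ fun p hp =>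
      ⟨(mem_filter.1 (mem_filter.1 hp).1).2.1, (mem_filter.1 hp).2⟩).trans ?_
    have b1 : ((tt u ^ 3 : ℕ) : ℝ) ≤ (2 * rr u) ^ 12 := by
      have : tt u ^ 3 ≤ (2 * rr u) ^ 12 := by
        have := rr_pos u
        calc tt u ^ 3 ≤ ((2 * rr u) ^ 4) ^ 3 := by
              gcongr; exact (tt_le u).trans (by gcongr; omega)
          _ = _ := by rw [← pow_mul]
      exact_mod_cast this
    have b0 : (2 : ℝ) ≤ ((tt u ^ 3 : ℕ) : ℝ) := by exact_mod_cast (by omega)
    have b2 := Real.log_le_log (by linarith) b1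
    rw [Real.log_pow, Real.log_mul (by norm_num) (by linarith)] at b2
    have b3 : 0 < Real.log ((tt u ^ 3 : ℕ) : ℝ) := Real.log_pos (by linarith)
    have b4 := Real.log_le_sub_one_of_pos (x := Real.log ((tt u ^ 3 : ℕ) : ℝ) / 384)
      (by positivity)
    rw [Real.log_div b3.ne' (by norm_num)] at b4
    have := Real.log_two_lt_d9
    push_cast at b2 b4 ⊢
    linarith
  have a3 : ∑ p ∈ u.primeFactors with tt u ^ 3 < p, (1 : ℝ) / p ≤ 1 := by
    have ht : (0 : ℝ) < tt u := by exact_mod_cast tt_pos u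
    calc _ ≤ ∑ p ∈ u.primeFactors with tt u ^ 3 < p, (1 : ℝ) / tt u := by
          refine Finset.sum_le_sum fun p hp => ?_
          have : (tt u : ℝ) ≤ p := by exact_mod_cast ht3.trans (mem_filter.1 hp).2.le
          gcongr
      _ ≤ 1 := by
          rw [Finset.sum_const, nsmul_eq_mul, mul_one_div, div_le_one ht]
          exact_mod_cast ((card_filter_le _ _).trans
            (card_primeFactors_le u (by omega))).trans (Nat.le_succ _)
  have a4 : ∑ p ∈ A, (1 : ℝ) / p ≤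
      ∑ p ∈ (F.PP M u).filter (fun p : ℕ => (p : ZMod M) ∈ Z), (1 : ℝ) / p +
      (∑ p ∈ A with p ≤ tt u ^ 3, (1 : ℝ) / p +
        ∑ p ∈ u.primeFactors with tt u ^ 3 < p, (1 : ℝ) / p) := by
    have hu' : ∀ s t : Finset ℕ, ∑ p ∈ s ∪ t, (1 : ℝ) / p ≤
        ∑ p ∈ s, (1 : ℝ) / p + ∑ p ∈ t, (1 : ℝ) / p := fun s t => by
      rw [← Finset.sum_union_inter]
      exact le_add_of_nonneg_right (Finset.sum_nonneg fun _ _ => by positivity)
    refine le_trans ?_ ((hu' _ _).trans (add_le_add_right (hu' _ _) _))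
    refine Finset.sum_le_sum_of_subset_of_nonneg (fun p hp => ?_) fun _ _ _ => by positivity
    have hp' := mem_filter.1 hp
    simp only [mem_union, mem_filter, PP, Nat.mem_primeFactors]
    by_cases b1 : p ≤ tt u ^ 3
    · exact Or.inr (Or.inl ⟨hp, b1⟩)
    by_cases b2 : p ∣ u
    · exact Or.inr (Or.inr ⟨⟨hp'.2.1, b2, by omega⟩, by omega⟩)
    have b3 : p.Coprime M := (ZMod.isUnit_iff_coprime p M).1 (hZ.1 _ hp'.2.2).1
    refine Or.inl ⟨⟨hp'.1, hp'.2.1, b3, ?_, by omega, b2⟩, hp'.2.2⟩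
    rw [← (hZ.1 _ hp'.2.2).2, ZMod.val_natCast]
    exact J_congr ((Nat.mod_modEq p M).of_dvd hM).symm (b3.coprime_dvd_right hM)
  linarith

end Ctx

end Pool.Agent.P.MP_a1177c_nt.Sign
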